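import Pool.Agent.W_448wd_h84.WdE
import Pool.Agent.W_448s7_h27.BalE

/-!
# MP_448cb3_co, numerical facts about the late components (for S7, `j ≥ 17`)
-/

namespace Pool.Agent.GaussPoset.Wd

set_option linter.unusedSectionVars false

open Finset Cp

universe u

/-- the up-set of the element `s` of row `j` on the level `j - m`: an interval -/
def upI (lo hi : ℕ → ℕ) (j s : ℕ) : ℕ → ℕ × ℕ
  | 0 => (s, s)
  | m + 1 => (max (lo (j - m - 1)) ((upI lo hi j s m).1 - 1), min (hi (j - m - 1)) (upI lo hi j s m).2)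

lemma upI_succ (lo hi : ℕ → ℕ) (j s m : ℕ) : upI lo hi j s (m + 1) =
    (max (lo (j - m - 1)) ((upI lo hi j s m).1 - 1), min (hi (j - m - 1)) (upI lo hi j s m).2) := rfl

lemma upI_congr {L H lo hi : ℕ → ℕ} {B N s : ℕ} (hL : ∀ n, n ≤ N → L n = lo (B + n))
    (hH : ∀ n, n ≤ N → H n = hi (B + n)) : ∀ m, m ≤ N → upI L H N s m = upI lo hi (B + N) s m := by
  intro m
  induction m with
  | zero => intro _; rfl
  | succ m ih =>
    intro hm
    rw [upI_succ, upI_succ, ih (by omega), hL _ (by omega), hH _ (by omega),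
      show B + (N - m - 1) = B + N - m - 1 by omega]

variable {P : Type u} [Fintype P] [PartialOrder P] [DecidableEq P] {r j : ℕ}
variable {t : P} {lo hi : ℕ → ℕ} {e : ℕ → ℕ → P}

lemma upI_spec (C : Comp j t lo hi e) (H : Gr P r) (hg : ∀ l, l < j → Win.Good P l) (ht : lev t = 0)
    {s : ℕ} (h1 : lo j ≤ s) (h2 : s ≤ hi j) : ∀ m, m ≤ j →
    (lo (j - m) ≤ (upI lo hi j s m).1 ∧ (upI lo hi j s m).1 ≤ (upI lo hi j s m).2 ∧
      (upI lo hi j s m).2 ≤ hi (j - m)) ∧
    ∀ z, lev z = j - m → (e j s ≤ z ↔ ∃ s', (upI lo hi j s m).1 ≤ s' ∧ s' ≤ (upI lo hi j s m).2 ∧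
      e (j - m) s' = z) := by
  have hlev := C.lev_e j s le_rfl h1 h2
  have hle := C.le_t j s le_rfl h1 h2
  intro m
  induction m with
  | zero =>
    intro _
    refine ⟨⟨h1, le_rfl, h2⟩, ?_⟩
    intro z hz
    rw [Nat.sub_zero] at hz ⊢
    constructor
    · intro h
      refine ⟨s, le_rfl, le_rfl, ?_⟩
      rcases eq_or_lt_of_le h with h3 | h3
      · exact h3
      · have := lev_strictAnti h3
        omega
    · rintro ⟨s', h3, h4, rfl⟩
      have h5 : s' = s := le_antisymm h4 h3
      rw [h5]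
  | succ m ih =>
    intro hm
    obtain ⟨⟨i1, i2, i3⟩, i4⟩ := ih (by omega)
    obtain ⟨k, hk⟩ : ∃ k, j - m = k + 1 := ⟨j - m - 1, by omega⟩
    have hk' : j - (m + 1) = k := by omega
    rw [hk] at i1 i3 i4
    rw [upI_succ, hk, hk', Nat.add_sub_cancel]
    generalize (upI lo hi j s m).1 = L at *
    generalize (upI lo hi j s m).2 = R at *
    have c1 := C.lo_step k (by omega)
    have c2 := C.hi_step k (by omega)
    have c3 := C.lo_le k (by omega)
    refine ⟨by simp only [le_max_iff, max_le_iff, le_min_iff, min_le_iff]; omega, ?_⟩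
    intro z hz
    have hkj : k < j := by omega
    constructor
    · intro h
      have hlt : e j s < z := by
        rcases eq_or_lt_of_le h with h3 | h3
        · rw [h3] at hlev
          omega
        · exact h3
      obtain ⟨y, hy1, hy2⟩ := exists_le_covBy_of_lt hlt
      have hly := (H.covBy_iff.1 hy2).2
      obtain ⟨s'', g1, g2, rfl⟩ := (i4 y (by omega)).1 hy1
      have hzt : z ≤ t := by
        obtain ⟨t', ht', ht''⟩ := exists_above' (x := z) (j := 0) (Nat.zero_le _)
        have := Cp.top_eq H hg (z := e j s) hlev.le ht ht'' hle (h.trans ht')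
        rw [this]
        exact ht'
      obtain ⟨s', g3, g4, g5⟩ := C.surj z hzt (by omega)
      rw [hz] at g3 g4 g5
      rw [← g5] at hy2
      have g6 := (C.cov k s'' s' hkj (by omega) (by omega) g3 g4).1 hy2
      exact ⟨s', by simp only [max_le_iff]; omega, by simp only [le_min_iff]; omega, g5⟩
    · rintro ⟨s', g1, g2, rfl⟩
      simp only [max_le_iff, le_min_iff] at g1 g2
      rcases Nat.lt_or_ge s' L with g3 | g3
      · have g4 := (C.cov k L s' hkj (by omega) (by omega) (by omega) (by omega)).2 (by omega)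
        have g5 := (i4 (e (k + 1) L) (C.lev_e (k + 1) L (by omega) (by omega) (by omega))).2
          ⟨L, le_rfl, i2, rfl⟩
        exact g5.trans g4.le
      · have g4 := (C.cov k s' s' hkj (by omega) (by omega) (by omega) (by omega)).2 (Or.inl rfl)
        have g5 := (i4 (e (k + 1) s') (C.lev_e (k + 1) s' (by omega) (by omega) (by omega))).2
          ⟨s', by omega, by omega, rfl⟩
        exact g5.trans g4.le

/-- the number of elements of the level `j - m` above an element of the last row -/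
lemma nab_upI (C : Comp j t lo hi e) (H : Gr P r) (hg : ∀ l, l < j → Win.Good P l) (ht : lev t = 0)
    {s : ℕ} (h1 : lo j ≤ s) (h2 : s ≤ hi j) {m : ℕ} (hm : m ≤ j) :
    nab (j - m) (e j s) = (upI lo hi j s m).2 + 1 - (upI lo hi j s m).1 := by
  classical
  obtain ⟨⟨i1, i2, i3⟩, i4⟩ := upI_spec C H hg ht h1 h2 m hm
  unfold nab
  have h3 : (lv P (j - m)).filter (fun x => e j s ≤ x) =
      (Finset.Icc (upI lo hi j s m).1 (upI lo hi j s m).2).image (e (j - m)) := by
    ext z
    rw [mem_filter, mem_image, mem_lv]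
    constructor
    · rintro ⟨g1, g2⟩
      obtain ⟨s', g3, g4, g5⟩ := (i4 z g1).1 g2
      exact ⟨s', Finset.mem_Icc.2 ⟨g3, g4⟩, g5⟩
    · rintro ⟨s', g1, rfl⟩
      rw [Finset.mem_Icc] at g1
      have g2 := C.lev_e (j - m) s' (by omega) (by omega) (by omega)
      exact ⟨g2, (i4 _ g2).2 ⟨s', g1.1, g1.2, rfl⟩⟩
  rw [h3, Finset.card_image_of_injOn, Nat.card_Icc]
  intro s1 g1 s2 g2 g3
  rw [Finset.mem_coe, Finset.mem_Icc] at g1 g2
  exact C.inj (j - m) s1 s2 (by omega) (by omega) (by omega) (by omega) (by omega) g3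

end Pool.Agent.GaussPoset.Wd
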