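import Pool.Agent.W_448wd_h84.WdN

/-!
# MP_448cb3_co, case B: the laws of the last level `j + 1` in coordinates
-/

namespace Pool.Agent.GaussPoset.Wd

set_option linter.unusedSectionVars false

open Finset Win Win.I2

universe u

variable {P : Type u} [Fintype P] [PartialOrder P] [DecidableEq P] {r j i k : ℕ}
  {t : Tops P} {lo hi : ℕ → ℕ} {e : ℕ → ℕ → P}

lemma pen_uc {w z : P} (h : z ∈ pen w) : uc z = {w} := by
  obtain ⟨h1, h2⟩ := mem_pen.1 h
  obtain ⟨y, hy⟩ := card_eq_one.1 h2
  have h3 := mem_uc.2 h1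
  rw [hy, mem_singleton] at h3
  rw [hy, h3]

lemma mem_pen_of_uc {w z : P} (h : uc z = {w}) : z ∈ pen w := by
  refine mem_pen.2 ⟨?_, by rw [h, card_singleton]⟩
  rw [← mem_uc, h]
  exact mem_singleton_self w

/-- nothing hangs below an element of level `i + 2` over three sites of level `i` -/
theorem NJ.pen_three (h : NJ P r j) (hi1 : 1 ≤ i) (h3 : i + 2 ≤ j)
    (C : Cp.Comp j (t : P) lo hi e) {a : ℕ} (ha : lo i + 2 ≤ a) (ha' : a ≤ hi i) :
    pen (e (i + 2) a) = ∅ := by
  have W := C.toWin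
  have f1 := W.lo_ge i (by omega)
  have f2 := W.lo_ge (i + 1) (by omega)
  have f3 := W.hi_le i (by omega)
  have f4 := W.hi_le (i + 1) (by omega)
  have e1 : i + 1 + 1 = i + 2 := rfl
  rw [e1] at f2 f4
  have hl := W.lev_x (i + 2) (by omega) a (by omega) (by omega)
  have hat := W.le_t (i + 2) (by omega) a (by omega) (by omega)
  rw [eq_empty_iff_forall_notMem]
  intro z hz
  have hu := pen_uc hz
  have hzc := (mem_pen.1 hz).1
  have hlz := lev_cov h.g.H hzc
  have hN := (h.law hi1 h3 C).2.1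
  have : z ∈ SO.N1f i (SS i t) := by
    refine SO.mem_N1f.2 ⟨(h.mem (by omega) t (by omega)).2 (hzc.le.trans hat),
      Or.inl ⟨by omega, e (i + 2) a, ?_, hu⟩⟩
    exact mem_ZL.2 ⟨(h.mem (by omega) t (by omega)).2 hat, hl,
      (W.up_three h.g t.2 (by omega) (by omega) (by omega)).2 ⟨ha, ha'⟩⟩
  rw [hN] at this
  exact absurd this (notMem_empty _)

/-- the chains below the window `i`: the children of the pendants of level `i + 2` -/
theorem NJ.FL_eq (h : NJ P r j) (h3 : i + 2 ≤ j) (C : Cp.Comp j (t : P) lo hi e) :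
    (pdL lo hi i → pen (e (i + 2) (lo (i + 2))) ⊆ FL i (SS i t)) ∧
    (pdR lo hi i → pen (e (i + 2) (hi (i + 2))) ⊆ FL i (SS i t)) ∧
    (∀ z ∈ FL i (SS i t), (pdL lo hi i ∧ z ∈ pen (e (i + 2) (lo (i + 2)))) ∨
      (pdR lo hi i ∧ z ∈ pen (e (i + 2) (hi (i + 2))))) := by
  have W := C.toWin
  have e0 := W.lohi (i + 2) (by omega)
  have key : ∀ a, lo (i + 2) ≤ a → a ≤ hi (i + 2) → e (i + 2) a ∈ PD P i →
      pen (e (i + 2) a) ⊆ FL i (SS i t) := by
    intro a a1 a2 hp z hz
    have hat := W.le_t (i + 2) (by omega) a a1 a2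
    have hl := W.lev_x (i + 2) (by omega) a a1 a2
    have hzc := (mem_pen.1 hz).1
    have hlz := lev_cov h.g.H hzc
    exact mem_FL.2 ⟨(h.mem (by omega) t (by omega)).2 (hzc.le.trans hat), _, hp, pen_uc hz⟩
  refine ⟨fun hp => key _ le_rfl e0 ((W.mem_PD_iff h.g t.2 h3 le_rfl e0).2 (Or.inl ⟨rfl, hp⟩)),
    fun hp => key _ e0 le_rfl ((W.mem_PD_iff h.g t.2 h3 e0 le_rfl).2 (Or.inr ⟨rfl, hp⟩)), ?_⟩
  intro z hz
  obtain ⟨hzS, p, hp, hzp⟩ := mem_FL.1 hz
  have hlp := (lev_PD hp).1
  have hzc : z ⋖ p := by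
    rw [← mem_uc, hzp]
    exact mem_singleton_self p
  have hlz := lev_cov h.g.H hzc
  have hpS : p ∈ SS i t := (h.part (by omega) (k := i) (by omega) t).up hzS hzc
  have hpt := (h.mem (by omega) t (by omega)).1 hpS
  obtain ⟨a, a1, a2, rfl⟩ := W.surj (i + 2) (by omega) p hlp hpt
  rcases (W.mem_PD_iff h.g t.2 h3 a1 a2).1 hp with ⟨rfl, h5⟩ | ⟨rfl, h5⟩
  · exact Or.inl ⟨h5, mem_pen_of_uc hzp⟩
  · exact Or.inr ⟨h5, mem_pen_of_uc hzp⟩

/-- THE CHAIN BALANCE in coordinates, for a last row with at least two elements -/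
theorem NJ.chain (h : NJ P r j) (hi1 : 1 ≤ i) (h3 : i + 2 ≤ j) (C : Cp.Comp j (t : P) lo hi e)
    (hb : lo (i + 2) < hi (i + 2)) :
    (if pdL lo hi i then (pen (e (i + 2) (lo (i + 2)))).card else 0) +
      (if pdR lo hi i then (pen (e (i + 2) (hi (i + 2)))).card else 0) = fuw lo hi i := by
  classical
  have W := C.toWin
  obtain ⟨h1, h2, h4⟩ := h.FL_eq h3 C
  have hne := W.inj (i + 2) (by omega) (lo (i + 2)) (hi (i + 2)) le_rfl hb le_rfl
  rw [← (h.law hi1 h3 C).1]
  have hdis : Disjoint (pen (e (i + 2) (lo (i + 2)))) (pen (e (i + 2) (hi (i + 2)))) := by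
    rw [disjoint_left]
    intro z hz hz'
    have g1 := pen_uc hz
    rw [pen_uc hz', singleton_inj] at g1
    exact hne g1.symm
  by_cases c1 : pdL lo hi i
  · by_cases c2 : pdR lo hi i
    · rw [if_pos c1, if_pos c2, ← card_union_of_disjoint hdis]
      congr 1
      ext z
      rw [mem_union]
      constructor
      · rintro (g | g)
        · exact h1 c1 g
        · exact h2 c2 g
      · intro hz
        rcases h4 z hz with g | g
        · exact Or.inl g.2
        · exact Or.inr g.2
    · rw [if_pos c1, if_neg c2, add_zero]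
      congr 1
      ext z
      constructor
      · exact fun g => h1 c1 g
      · intro hz
        rcases h4 z hz with g | g
        · exact g.2
        · exact absurd g.1 c2
  · by_cases c2 : pdR lo hi i
    · rw [if_neg c1, if_pos c2, zero_add]
      congr 1
      ext z
      constructor
      · exact fun g => h2 c2 g
      · intro hz
        rcases h4 z hz with g | g
        · exact absurd g.1 c1
        · exact g.2
    · rw [if_neg c1, if_neg c2]
      symm
      rw [add_zero, card_eq_zero, eq_empty_iff_forall_notMem]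
      intro z hz
      rcases h4 z hz with g | g
      · exact absurd g.1 c1
      · exact absurd g.1 c2

/-- the numbers of pendants below the doubles of the last row (level `j`) -/
theorem NJ.s5c (h : NJ P r j) (hj : 2 ≤ j) (C : Cp.Comp j (t : P) lo hi e) :
    S5c lo hi e (j - 1) := by
  obtain ⟨n, rfl⟩ : ∃ n, j = n + 1 := ⟨j - 1, by omega⟩
  rw [Nat.add_sub_cancel]
  exact (near_level' h.g (by omega)).2 _ lo hi e t.2 C.toWin

/-- the defects of the last row -/
theorem NJ.pieces (h : NJ P r j) (hj : 2 ≤ j) (C : Cp.Comp j (t : P) lo hi e) :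
    ∃ (c : ℕ → ℤ) (β : ℤ), PcPat (hi j - lo j) c β ∧
      (∀ a b, lo j ≤ a → a < b → b ≤ hi j →
        (dcv (e j a) (e j b) : ℤ) - ucv (e j a) (e j b) =
          if b = a + 1 then c (a - lo j) else if a = lo j ∧ b = hi j then β else 0) ∧
      (β ≠ 0 → (uc (e j (lo j))).card = 1 ∧ (uc (e j (hi j))).card = 1) ∧
      (∀ a, lo j < a → a < hi j → c (a - 1 - lo j) = -1 →
        c (a - lo j) = -1 → (pen (e j a)).card = 1) := by
  obtain ⟨n, rfl⟩ : ∃ n, j = n + 1 := ⟨j - 1, by omega⟩
  exact S6_pieces h.g (by omega) h.hr h.no t.2 C.toWin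

/-- the children of an element of the last row: the pendants and the common children -/
theorem NJ.deg (h : NJ P r j) (C : Cp.Comp j (t : P) lo hi e) {a : ℕ} (a1 : lo j ≤ a)
    (a2 : a ≤ hi j) :
    (dc (e j a)).card = (pen (e j a)).card +
      ∑ b ∈ (Icc (lo j) (hi j)).erase a, dcv (e j a) (e j b) := by
  classical
  have W := C.toWin
  have hl := W.lev_x j le_rfl a a1 a2
  have hat := W.le_t j le_rfl a a1 a2
  -- the common children
  have hD : ((Icc (lo j) (hi j)).erase a).sum (fun b => dcv (e j a) (e j b)) =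
      (((Icc (lo j) (hi j)).erase a).biUnion
        (fun b => univ.filter (fun y => y ⋖ e j a ∧ y ⋖ e j b))).card := by
    rw [card_biUnion]
    · rfl
    · intro b hb b' hb' hne
      rw [mem_coe, mem_erase, mem_Icc] at hb hb'
      show Disjoint (univ.filter (fun y => y ⋖ e j a ∧ y ⋖ e j b))
        (univ.filter (fun y => y ⋖ e j a ∧ y ⋖ e j b'))
      rw [disjoint_left]
      intro y hy hy'
      rw [mem_filter] at hy hy'
      have hne1 := W.inj' (k := j) le_rfl (a := a) (b := b) a1 a2 hb.2.1 hb.2.2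
      have hne2 := W.inj' (k := j) le_rfl (a := a) (b := b') a1 a2 hb'.2.1 hb'.2.2
      have hne3 := W.inj' (k := j) le_rfl (a := b) (b := b') hb.2.1 hb.2.2 hb'.2.1 hb'.2.2
      have h3 := StB_uc_pair h.g.H hy.2.1 hy.2.2 (fun hh => hb.1 (hne1 hh).symm)
      have h4 : e j b' ∈ uc y := mem_uc.2 hy'.2.2
      rw [h3, mem_insert, mem_singleton] at h4
      rcases h4 with h4 | h4
      · exact hb'.1 (hne2 h4.symm).symm
      · exact hne (hne3 h4.symm)
  rw [hD, ← card_union_of_disjoint]
  · congr 1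
    ext z
    rw [mem_union, mem_dc, mem_pen, mem_biUnion]
    constructor
    · intro hz
      have hlz := lev_cov h.g.H hz
      rcases uc_card_cases h.g.H (x := z) (by omega) with h1 | h1
      · exact Or.inl ⟨hz, h1⟩
      · right
        obtain ⟨v, hv, hne⟩ := exists_other_uc (y := e j a) h1
        have hlv := lev_cov h.g.H hv
        have hzt : z ≤ (t : P) := hz.le.trans hat
        have hvt : v ≤ (t : P) := by
          obtain ⟨s, hs, hs2⟩ := exists_above' (x := v) (j := 0) (Nat.zero_le _)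
          have : s = (t : P) := Hul.top_unique (h.nj (z := z) (by omega)) hs2 t.2
            (hv.le.trans hs) hzt
          rw [← this]
          exact hs
        obtain ⟨b, b1, b2, rfl⟩ := W.surj j le_rfl v (by omega) hvt
        refine ⟨b, mem_erase.2 ⟨fun hab => hne (by rw [hab]), mem_Icc.2 ⟨b1, b2⟩⟩, ?_⟩
        rw [mem_filter]
        exact ⟨mem_univ _, hz, hv⟩
    · rintro (hz | ⟨b, -, hz⟩)
      · exact hz.1
      · rw [mem_filter] at hz
        exact hz.2.1
  · rw [disjoint_left]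
    intro z hz hz'
    rw [mem_pen] at hz
    rw [mem_biUnion] at hz'
    obtain ⟨b, hb, hz'⟩ := hz'
    rw [mem_erase, mem_Icc] at hb
    rw [mem_filter] at hz'
    have hne1 := W.inj' (k := j) le_rfl (a := a) (b := b) a1 a2 hb.2.1 hb.2.2
    have h3 := StB_uc_pair h.g.H hz'.2.1 hz'.2.2 (fun hh => hb.1 (hne1 hh).symm)
    rw [h3, card_pair (fun hh => hb.1 (hne1 hh).symm)] at hz
    omega

end Pool.Agent.GaussPoset.Wd
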