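import Pool.Agent.W_448wd_h84.WdC

/-!
# MP_448cb3_co, the late components with three or more elements at a window `j - E`, `E ≥ 4`

Known: `Laws3` at level `j`, `Laws` at level `j - 1`, and the identities (E',1) at level `j` for `E' < E`.
Then the component is `E7` and the window is `8`.
-/

namespace Pool.Agent.GaussPoset.Wd

/-- the word `E7` -/
def E7 : List Ltr := [OC, CO, CO, OO, CC, OC, OC, CO, CC, OC, OC, OC]

/-- the check of the word `w` of length `d + 1` at the window `E` levels above the last one -/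
def ChkE (A d : ℕ) (w : List Ltr) (E : ℕ) : Prop :=
  4 ≤ E → (∀ q ∈ badK A, q.1 < E → q.2 ≠ w) → Lw w (d + 4 - E) + 2 ≤ Hw w (d + 4 - E) →
    A = 4 ∧ d + 1 = E + 4 ∧ E ≤ 8 ∧ (w = E7.take (d + 1) ∨ (d = 7 ∧ w = E7.take 7 ++ [OO]))

instance (A d : ℕ) (w : List Ltr) (E : ℕ) : Decidable (ChkE A d w E) := by
  unfold ChkE; infer_instance

/-- the check of the word `w` of length `d + 1` -/
def ChkW (A d : ℕ) (w : List Ltr) : Prop := NewA w → ∀ E, E < d + 2 → ChkE A d w E

instance (A d : ℕ) (w : List Ltr) : Decidable (ChkW A d w) := by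
  unfold ChkW; infer_instance

/-- the check of the words of length `d + 1` -/
def Chk (A d : ℕ) : Prop := ∀ w ∈ tree A d, ∀ l ∈ [OO, CO, OC, CC], ChkW A d (w ++ [l])

instance (A d : ℕ) : Decidable (Chk A d) := by unfold Chk; infer_instance

lemma chk3 : ∀ d, d < 8 → Chk 3 d := by decide +kernel
lemma chk4 : ∀ d, d < 13 → Chk 4 d := by decide +kernel
lemma chk5 : ∀ d, d < 8 → Chk 5 d := by decide +kernel
lemma chk6 : ∀ d, d < 8 → Chk 6 d := by decide +kernel
lemma chk7 : ∀ d, d < 8 → Chk 7 d := by decide +kernel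
lemma chk8 : ∀ d, d < 8 → Chk 8 d := by decide +kernel

variable {lo hi : ℕ → ℕ} {j a d : ℕ}

lemma last_letter (p q : Bool) : (p, q) ∈ [OO, CO, OC, CC] := by
  cases p <;> cases q <;> decide

/-- the level `j` for the components of first double level `a ≥ 8`, `j - 1 ≥ a + 8`: rows of one element -/
lemma quad_rows (h : Laws lo hi (j - 1)) (hN : NF lo hi j) (h0 : 8 ≤ a) (haj : a + 9 ≤ j)
    (h1 : ∀ k, k < a → lo k = hi k) (h2 : lo a < hi a) (hor : (word lo hi a (j - a)).head? ≠ some CO) :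
    ∀ k, 1 ≤ k → a + k < j → lo (a + k) = hi (a + k) := by
  have hN' : NF lo hi (j - 1) := fun k hk => hN k (by omega)
  have hor' : (word lo hi a (j - 1 - a)).head? ≠ some CO := head_word (by omega) hor
  have h4 := h.mem_tree hN' (by omega) h1 h2 (A := 8) 8 (by omega) (Or.inr (by omega))
    (head_word (d := j - a) (by omega) hor)
  rw [tree8', List.mem_singleton] at h4
  have hL := h.Lw_word hN' (by omega) h1 h2 (d := 8) (by omega)
  have hH := h.Hw_word hN' (by omega) h1 h2 (d := 8) (by omega)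
  rw [h4] at hL hH
  have hr : ∀ k, 1 ≤ k → k ≤ 8 → lo (a + k) = 1 ∧ hi (a + k) = 1 := by
    intro k hk hk'
    have e1 := hL (k + 3) (by omega)
    have e2 := hH (k + 3) (by omega)
    rw [show a - 3 + (k + 3) = a + k by omega] at e1 e2
    rw [← e1, ← e2]
    interval_cases k <;> decide
  intro k hk hk'
  have h7 := h.quad (by omega) h1 h2 (fun k hk hk' => by
    have := hr k hk (by omega)
    omega) (j - 1 - a) (by omega)
  exact (h7 k hk (by omega)).1

/-- THREE ELEMENTS AT THE WINDOW `j - E`, `E ≥ 4`: only `E7` at the window `8` -/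
theorem late_b3 (h3 : Laws3 lo hi j) (h : Laws lo hi (j - 1)) (hN : NF lo hi j) (h0 : 3 ≤ a)
    (haj : a ≤ j) (h1 : ∀ k, k < a → lo k = hi k) (h2 : lo a < hi a)
    (hor : (word lo hi a (j - a)).head? ≠ some CO) {E : ℕ} (hE : 4 ≤ E) (hEj : E < j)
    (hbad : ∀ q ∈ badK a, q.1 < E → a + q.2.length = j → word lo hi a q.2.length ≠ q.2)
    (hb : lo (j - E) + 2 ≤ hi (j - E)) :
    a = 4 ∧ j = 8 + E ∧ E ≤ 8 ∧ (word lo hi 4 (j - 4) = E7.take (j - 4) ∨
      (j = 12 ∧ word lo hi 4 8 = E7.take 7 ++ [OO])) := by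
  have hat := h3.at_a hN haj (by omega) h1 h2
  have hia : a < j - E := by
    by_contra hc
    rcases Nat.lt_or_ge (j - E) a with h4 | h4
    · have := h1 _ h4
      omega
    · have h5 : j - E = a := by omega
      rw [h5] at hb
      omega
  obtain ⟨d, hd⟩ : ∃ d, j - a = d + 1 := ⟨j - a - 1, by omega⟩
  have hN' : NF lo hi (j - 1) := fun k hk => hN k (by omega)
  have hor' : (word lo hi a d).head? ≠ some CO := head_word (d := j - a) (by omega) hor
  have hnew : NewA (word lo hi a (d + 1)) := by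
    have := h3.new hN h0 h1 h2 (d := d + 1) (by omega) (by rw [← hd]; exact hor)
    exact this
  have hL := h3.Lw_word hN h0 h1 h2 (d := d + 1) (by omega)
  have hH := h3.Hw_word hN h0 h1 h2 (d := d + 1) (by omega)
  have e1 := hL (d + 4 - E) (by omega)
  have e2 := hH (d + 4 - E) (by omega)
  rw [show a - 3 + (d + 4 - E) = j - E by omega] at e1 e2
  rw [← e1, ← e2] at hb
  have hlen : (word lo hi a (d + 1)).length = d + 1 := word_length
  -- the general conclusion from the check
  have key : ∀ A, (A = a ∨ (A = 8 ∧ d ≤ 8 ∧ 8 ≤ a)) → Chk A d →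
      A = 4 ∧ d + 1 = E + 4 ∧ E ≤ 8 ∧ (word lo hi a (d + 1) = E7.take (d + 1) ∨
        (d = 7 ∧ word lo hi a (d + 1) = E7.take 7 ++ [OO])) := by
    intro A hA hC
    have hm := h.mem_tree hN' h0 h1 h2 (A := A) d (by omega) hA hor'
    rw [word_succ] at hnew hb ⊢
    refine hC _ hm _ (last_letter _ _) hnew E (by omega) hE ?_ hb
    intro q hq hqE hqw
    have hq' : q ∈ badK a := by
      rcases hA with rfl | ⟨rfl, hA⟩
      · exact hq
      · rw [badK_large (a := a) (by omega)]
        exact hq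
    have hl : q.2.length = d + 1 := by
      rw [hqw, List.length_append, word_length]
      rfl
    refine hbad q hq' hqE (by omega) ?_
    rw [hl, word_succ]
    exact hqw.symm
  -- `a < 8`
  have small : ∀ N, (∀ d, d < N → Chk a d) → tree a N = [] →
      a = 4 ∧ d + 1 = E + 4 ∧ E ≤ 8 ∧ (word lo hi a (d + 1) = E7.take (d + 1) ∨
        (d = 7 ∧ word lo hi a (d + 1) = E7.take 7 ++ [OO])) := by
    intro N hN1 hN2
    rcases Nat.lt_or_ge d N with h5 | h5
    · exact key a (Or.inl rfl) (hN1 d h5)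
    · have h6 := h.mem_tree hN' h0 h1 h2 (A := a) N (by omega) (Or.inl rfl)
        (head_word (d := j - a) (by omega) hor)
      rw [hN2] at h6
      simp at h6
  have fin : a = 4 ∧ d + 1 = E + 4 ∧ E ≤ 8 ∧ (word lo hi a (d + 1) = E7.take (d + 1) ∨
        (d = 7 ∧ word lo hi a (d + 1) = E7.take 7 ++ [OO])) := by
    rcases Nat.lt_or_ge a 8 with h8 | h8
    · obtain rfl | rfl | rfl | rfl | rfl : a = 3 ∨ a = 4 ∨ a = 5 ∨ a = 6 ∨ a = 7 := by omega
      · exact small 8 chk3 tree3'
      · exact small 13 chk4 tree4'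
      · exact small 8 chk5 tree5'
      · exact small 8 chk6 tree6'
      · exact small 8 chk7 tree7'
    · rcases Nat.lt_or_ge d 8 with h5 | h5
      · have := (key 8 (Or.inr (by omega)) (chk8 d h5)).1
        omega
      · have h6 := quad_rows h hN h8 (by omega) h1 h2 hor (j - E - a) (by omega) (by omega)
        rw [show a + (j - E - a) = j - E by omega] at h6
        omega
  obtain ⟨rfl, f2, f3, f4⟩ := fin
  refine ⟨rfl, by omega, f3, ?_⟩
  rw [show j - 4 = d + 1 by omega]
  rcases f4 with f4 | ⟨f4, f5⟩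
  · exact Or.inl f4
  · subst f4
    exact Or.inr ⟨by omega, f5⟩

/-- the check for `j = 16`, window `8` -/
lemma chk16 : ∀ w ∈ tree 8 7, ∀ l ∈ [OO, CO, OC, CC], NewA (w ++ [l]) → w = Qw 7 := by decide +kernel

lemma chk16' : ∀ w ∈ tree 4 11, Lw w 7 + 2 ≤ Hw w 7 := by decide +kernel

/-- `j = 16`, window `8`, two elements at the window: quadric rows -/
theorem late_16 (h3 : Laws3 lo hi 16) (h : Laws lo hi 15) (hN : NF lo hi 16) (h0 : 3 ≤ a)
    (haj : a ≤ 16) (h1 : ∀ k, k < a → lo k = hi k) (h2 : lo a < hi a)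
    (hor : (word lo hi a (16 - a)).head? ≠ some CO) (hb : hi 8 = lo 8 + 1) :
    a = 8 ∧ ∀ k, 1 ≤ k → k < 8 → lo (8 + k) = hi (8 + k) := by
  have hN' : NF lo hi 15 := fun k hk => hN k (by omega)
  have hia : a ≤ 8 := by
    by_contra hc
    have := h1 8 (by omega)
    omega
  have small : ∀ N, a + N ≤ 15 → tree a N = [] → False := by
    intro N hN1 hN2
    have h6 := h.mem_tree hN' h0 h1 h2 (A := a) N (by omega) (Or.inl rfl)
      (head_word (d := 16 - a) (by omega) hor)
    rw [hN2] at h6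
    simp at h6
  obtain rfl | rfl | rfl | rfl | rfl | rfl : a = 3 ∨ a = 4 ∨ a = 5 ∨ a = 6 ∨ a = 7 ∨ a = 8 := by omega
  · exact absurd (small 8 (by omega) tree3') id
  · exfalso
    have hm := h.mem_tree hN' h0 h1 h2 (A := 4) 11 (by omega) (Or.inl rfl)
      (head_word (d := 16 - 4) (by omega) hor)
    have hL := h.Lw_word hN' h0 h1 h2 (d := 11) (by omega) 7 (by omega)
    have hH := h.Hw_word hN' h0 h1 h2 (d := 11) (by omega) 7 (by omega)
    have := chk16' _ hm
    rw [hL, hH] at this
    simp only [Nat.reduceSub, Nat.reduceAdd] at this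
    omega
  · exact absurd (small 8 (by omega) tree5') id
  · exact absurd (small 8 (by omega) tree6') id
  · exact absurd (small 8 (by omega) tree7') id
  · refine ⟨rfl, ?_⟩
    have hm := h.mem_tree hN' h0 h1 h2 (A := 8) 7 (by omega) (Or.inl rfl)
      (head_word (d := 16 - 8) (by omega) hor)
    have hnew := h3.new hN h0 h1 h2 (d := 8) (by omega) hor
    rw [word_succ] at hnew
    have hw := chk16 _ hm _ (last_letter _ _) hnew
    have hL := h.Lw_word hN' h0 h1 h2 (d := 7) (by omega)
    have hH := h.Hw_word hN' h0 h1 h2 (d := 7) (by omega)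
    rw [hw] at hL hH
    intro k hk hk'
    have e1 := hL (k + 3) (by omega)
    have e2 := hH (k + 3) (by omega)
    rw [show 8 - 3 + (k + 3) = 8 + k by omega] at e1 e2
    rw [← e1, ← e2]
    interval_cases k <;> decide

end Pool.Agent.GaussPoset.Wd
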