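import Pool.Agent.W_448wd_h84.WdF
import Pool.Agent.W_448wd_h84.WdG
import Pool.Agent.W_448ec_h63.EQ

/-!
# MP_448cb3_co, individual identities at the window `i`, `i + E = j`: one stage
-/

namespace Pool.Agent.GaussPoset.Wd

set_option linter.unusedSectionVars false

open Finset Win Win.I2

universe u

variable {P : Type u} [Fintype P] [PartialOrder P] [DecidableEq P] {r j i E : ℕ}

/-- the extended component of a top -/
noncomputable def SS (i : ℕ) (t : Tops P) : Finset P := cext i (topOf : P → Tops P) t

lemma split_gt (h : GoodTo P r j) : Split j (topOf : P → Tops P) := split_top h.H h.good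

/-- the extended component does not depend on the level of the decomposition -/
lemma cext_eq (h : GoodTo P r j) (hij : i ≤ j) (t : Tops P) :
    cext j (topOf : P → Tops P) t = SS i t := by
  unfold SS
  ext x
  rw [mem_cext, mem_cext]
  constructor
  · intro hx y hy hl
    exact hx y hy (hl.trans hij)
  · intro hx y hy hl
    rcases Nat.lt_or_ge (lev y) i with h1 | h1
    · exact hx y hy h1.le
    · obtain ⟨y', hy', hl'⟩ := exists_above' (x := y) (j := i) h1
      rw [Split.le (split_gt h) (y := y') y hy' hl]
      exact hx y' (hy.trans hy') hl'.le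

lemma SS_ext (h : GoodTo P r j) (hij : i ≤ j) (t : Tops P) : Ext P i j (t : P) (SS i t) := by
  have := ext_top h.H h.good hij t
  rwa [cext_eq h hij t] at this

lemma bb_eq (h : GoodTo P r j) (hij : i ≤ j) (t : Tops P) :
    bb i j (topOf : P → Tops P) t = (st i (SS i t)).card := by
  unfold bb
  rw [cext_eq h hij t]

lemma VV_eq (h : GoodTo P r j) (hij : i ≤ j) (t : Tops P) :
    VV i j (topOf : P → Tops P) t = ZS i (SS i t) := by
  unfold VV
  rw [cext_eq h hij t]

lemma topOf_top (t : Tops P) : topOf (t : P) = t := by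
  have h1 := le_topOf (t : P)
  refine Subtype.ext ?_
  rcases eq_or_lt_of_le h1 with h2 | h2
  · exact h2.symm
  · have h3 := lev_strictAnti h2
    have h4 := t.2
    omega

lemma mem_tops (t : Tops P) : t ∈ (univ : Finset P).image (topOf : P → Tops P) :=
  mem_image.2 ⟨(t : P), mem_univ _, topOf_top t⟩

/-- all components are clean at the window `i` and the energy `n` -/
def Cln (P : Type u) [Fintype P] [PartialOrder P] [DecidableEq P] (i n : ℕ) : Prop :=
  ∀ t : Tops P, dd ^ (st i (SS i t)).card ∣ ZC i (SS i t) n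

/-- one stage: no positive second order term -/
theorem stage (h : GoodTo P r j) (hE1 : 1 ≤ E) (hE : i + E ≤ j)
    (hp : ∀ t : Tops P, Prof E (2 * E) (st i (SS i t)).card (ZS i (SS i t)))
    (hn : ∀ t : Tops P, be (2 * E) (st i (SS i t)).card (ZS i (SS i t)) ≤ 0) : Cln P i E := by
  have hr := h.hr
  intro t
  have h1 := individual (univ.image (topOf : P → Tops P)) hE1 (bb i j topOf) (VV i j topOf)
    (fun c _ => by rw [bb_eq h (by omega), VV_eq h (by omega)]; exact hp c)
    (fun c _ => eps_sq h.H (by omega) c)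
    (tot_dvd h.H (by omega) (by omega) (split_gt h) (by omega))
    (tot_dvd h.H (by omega) (by omega) (split_gt h) (by omega))
    (fun c _ => by
      rw [eps_VV h.H (by omega), one_mul, bb_eq h (by omega), VV_eq h (by omega)]
      exact hn c) t (mem_tops t)
  rw [bb_eq h (by omega), VV_eq h (by omega), coeff_ZS] at h1
  exact h1

/-- one stage: no negative first order term -/
theorem stage_first (h : GoodTo P r j) (hE1 : 1 ≤ E) (hE : i + E ≤ j)
    (hp : ∀ t : Tops P, Prof E (E + 1) (st i (SS i t)).card (ZS i (SS i t)))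
    (hn : ∀ t : Tops P, 0 ≤ al E (st i (SS i t)).card (ZS i (SS i t))) : Cln P i E := by
  have hr := h.hr
  intro t
  have hp' : ∀ c ∈ (univ : Finset P).image (topOf : P → Tops P),
      Prof E (E + 1) (bb i j topOf c) (VV i j topOf c) := by
    intro c _
    rw [bb_eq h (by omega), VV_eq h (by omega)]
    exact hp c
  obtain ⟨_, _, i3, _⟩ := prod_all (univ.image (topOf : P → Tops P)) hE1 (Nat.lt_succ_self E)
    (by omega) (bb i j topOf) (VV i j topOf) hp' (fun c _ => eps_sq h.H (by omega) c)
  have h0 : al E (∑ c ∈ univ.image (topOf : P → Tops P), bb i j topOf c)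
      (∏ c ∈ univ.image (topOf : P → Tops P), VV i j topOf c) = 0 := by
    unfold I2.al
    apply coeff_eq_zero_of_dvd
    rw [pow_succ']
    exact mul_dvd_mul_left _ (tot_dvd h.H (by omega) (by omega) (split_gt h) (by omega))
  rw [h0, mul_zero] at i3
  have h1 : ∀ c ∈ (univ : Finset P).image (topOf : P → Tops P),
      0 ≤ eps (bb i j topOf c) (VV i j topOf c) * al E (bb i j topOf c) (VV i j topOf c) := by
    intro c _
    rw [eps_VV h.H (by omega), one_mul, bb_eq h (by omega), VV_eq h (by omega)]
    exact hn c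
  have h2 := (Finset.sum_eq_zero_iff_of_nonneg h1).1 i3.symm t (mem_tops t)
  rw [eps_VV h.H (by omega), one_mul, bb_eq h (by omega), VV_eq h (by omega)] at h2
  have h3 := al_zero ((hp t).mid E (Nat.lt_succ_self E)) h2
  rwa [coeff_ZS] at h3

section profiles

variable {S : Finset P}

lemma coeff_dvd_one (H : Gr P r) (hP : Part i S) (h : 1 ≤ (st i S).card) (n : ℕ) :
    dd ∣ PowerSeries.coeff n (ZS i S) := by
  rw [coeff_ZS]
  exact dd_dvd_ZC H hP (card_pos.1 h) n

/-- small components -/
lemma prof_small (H : Gr P r) (hP : Part i S) (hb : (st i S).card ≤ 2)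
    (hlo : ∀ n, n < E → dd ^ (st i S).card ∣ ZC i S n) (m : ℕ) :
    Prof E m (st i S).card (ZS i S) where
  lo := by
    intro n hn
    rw [coeff_ZS]
    exact hlo n hn
  mid := by
    intro n _
    rcases Nat.eq_zero_or_pos (st i S).card with h | h
    · rw [h, pow_zero]
      exact one_dvd _
    · refine (pow_dvd_pow dd (show (st i S).card ≤ 1 + 1 by omega)).trans ?_
      rw [pow_add, pow_one]
      exact mul_dvd_mul_left _ (coeff_dvd_one H hP h n)
  top := (pow_dvd_pow dd (show (st i S).card ≤ 2 by omega)).trans (Dvd.intro _ rfl)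

lemma be_zero_small (H : Gr P r) (hP : Part i S) (hb : (st i S).card ≤ 2) (m : ℕ) :
    be m (st i S).card (ZS i S) = 0 := by
  unfold be
  rcases Nat.eq_zero_or_pos (st i S).card with h | h
  · rw [h]
    exact coeff_zero_of_dvd (a := 2) (Dvd.intro _ rfl) (by omega)
  · apply coeff_zero_of_dvd (a := 3)
    · rw [show (3 : ℕ) = 2 + 1 from rfl, pow_add, pow_one]
      exact mul_dvd_mul_left _ (coeff_dvd_one H hP h m)
    · omega

lemma al_zero_one (H : Gr P r) (hP : Part i S) (hb : (st i S).card ≤ 1) (m : ℕ) :
    al m (st i S).card (ZS i S) = 0 := by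
  unfold I2.al
  rcases Nat.eq_zero_or_pos (st i S).card with h | h
  · rw [h]
    exact coeff_zero_of_dvd (a := 1) (by rw [pow_one]; exact Dvd.intro _ rfl) (by omega)
  · apply coeff_zero_of_dvd (a := 2)
    · rw [pow_two]
      exact mul_dvd_mul_left _ (coeff_dvd_one H hP h m)
    · omega

lemma al_of_dvd {b n : ℕ} (h : dd ^ b ∣ ZC i S n) : al n b (ZS i S) = 0 := by
  unfold I2.al
  rw [coeff_ZS]
  apply coeff_eq_zero_of_dvd
  rw [pow_succ']
  exact mul_dvd_mul_left _ h

/-- components with three sites: the profile from the second order coefficients -/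
lemma prof_three (H : Gr P r) (hP : Part i S) (hb : (st i S).card = 3)
    (hlo : ∀ n, n < E → dd ^ (st i S).card ∣ ZC i S n) {m : ℕ}
    (hmid : ∀ n, E ≤ n → n < m → be n (st i S).card (ZS i S) = 0) :
    Prof E m (st i S).card (ZS i S) where
  lo := by
    intro n hn
    rw [coeff_ZS]
    exact hlo n hn
  mid := by
    intro n hn
    rcases Nat.lt_or_ge n E with h | h
    · rw [coeff_ZS]
      exact Dvd.dvd.mul_left (hlo n h) _
    · refine be_zero_iff ?_ (hmid n h hn)
      rw [hb]
      refine (pow_dvd_pow dd (show 3 ≤ 2 + 1 by omega)).trans ?_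
      rw [pow_add, pow_one]
      exact mul_dvd_mul_left _ (coeff_dvd_one H hP (by omega) n)
  top := by
    rw [hb]
    refine (pow_dvd_pow dd (show 3 ≤ 2 + 1 by omega)).trans ?_
    rw [pow_add, pow_one]
    exact mul_dvd_mul_left _ (coeff_dvd_one H hP (by omega) m)

end profiles

end Pool.Agent.GaussPoset.Wd
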