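import Pool.Agent.W_448wd_h84.WdJ

/-!
# MP_448cb3_co, the laws with `E ≤ 3`
-/

namespace Pool.Agent.GaussPoset.Wd

set_option linter.unusedSectionVars false

open Finset Win Win.I2

universe u

variable {P : Type u} [Fintype P] [PartialOrder P] [DecidableEq P] {r j i E : ℕ}

/-- INPUT (row 476): second order coefficients of the components with at least three sites -/
structure SO (P : Type u) [Fintype P] [PartialOrder P] [DecidableEq P] (r : ℕ) : Prop where
  be5_le : ∀ {j i : ℕ} {t : Tops P} {lo hi : ℕ → ℕ} {e : ℕ → ℕ → P}, GoodTo P r j →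
    Cp.Comp j (t : P) lo hi e → 1 ≤ i → i + 3 ≤ j → lo i + 2 ≤ hi i →
    be 5 (st i (SS i t)).card (ZS i (SS i t)) ≤ 0
  be5_flip : ∀ {j i : ℕ} {t : Tops P} {lo hi : ℕ → ℕ} {e : ℕ → ℕ → P}, GoodTo P r j →
    Cp.Comp j (t : P) lo hi e → 1 ≤ i → i + 3 ≤ j → lo i + 2 ≤ hi i → Flip lo hi i →
    be 5 (st i (SS i t)).card (ZS i (SS i t)) < 0
  be6_le : ∀ {j i : ℕ} {t : Tops P} {lo hi : ℕ → ℕ} {e : ℕ → ℕ → P}, GoodTo P r j →
    Cp.Comp j (t : P) lo hi e → 1 ≤ i → i + 3 ≤ j → lo i + 2 ≤ hi i → ¬ Flip lo hi i →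
    2 * be 6 (st i (SS i t)).card (ZS i (SS i t)) ≤ ((flw lo hi i : ℤ) - fuw lo hi i) ^ 2
  be6_al : ∀ {j i : ℕ} {t : Tops P} {lo hi : ℕ → ℕ} {e : ℕ → ℕ → P}, GoodTo P r j →
    Cp.Comp j (t : P) lo hi e → 1 ≤ i → i + 3 ≤ j → lo i + 2 ≤ hi i → ¬ Flip lo hi i →
    flw lo hi i ≠ fuw lo hi i →
    2 * be 6 (st i (SS i t)).card (ZS i (SS i t)) < ((flw lo hi i : ℤ) - fuw lo hi i) ^ 2
  be6_cco : ∀ {j i : ℕ} {t : Tops P} {lo hi : ℕ → ℕ} {e : ℕ → ℕ → P}, GoodTo P r j →
    Cp.Comp j (t : P) lo hi e → 1 ≤ i → i + 3 ≤ j → hi i = lo i + 2 → lo (i + 2) < hi (i + 2) →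
    cco lo hi i → ¬ Flip lo hi i →
    2 * be 6 (st i (SS i t)).card (ZS i (SS i t)) < ((flw lo hi i : ℤ) - fuw lo hi i) ^ 2

lemma card_SS (h : GoodTo P r j) (hij : i ≤ j) {t : Tops P} {lo hi : ℕ → ℕ} {e : ℕ → ℕ → P}
    (C : Cp.Comp j (t : P) lo hi e) : (st i (SS i t)).card = hi i + 1 - lo i :=
  C.toWin.card_st hij (fun y hy => (SS_ext h hij t).mem y (by omega))

lemma SS_part (h : GoodTo P r j) (hij : i ≤ j) {k : ℕ} (hk : k ≤ j) (t : Tops P) : Part k (SS i t) := by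
  rw [← cext_eq h hij t]
  exact part_cext h.H hk (split_gt h) t

lemma SS_lev (h : GoodTo P r j) {k : ℕ} (hi : i ≤ j) (hk : k ≤ j) (t : Tops P) : SS i t = SS k t := by
  rw [← cext_eq h hi t, ← cext_eq h hk t]

/-- the value of (3,1) for a component -/
lemma al3_SS (h : GoodTo P r j) (hi1 : 1 ≤ i) (h3 : i + 3 ≤ j) {t : Tops P} {lo hi : ℕ → ℕ}
    {e : ℕ → ℕ → P} (C : Cp.Comp j (t : P) lo hi e) (hf : ¬ Flip lo hi i) :
    I2.al 3 (st i (SS i t)).card (ZS i (SS i t)) = (flw lo hi i : ℤ) - fuw lo hi i :=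
  C.toWin.al3 h t.2 hi1 h3 (fun y hy => (SS_ext h (by omega) t).mem y (by omega))
    (SS_part h (by omega) (by omega) t) hf

section three

variable (I : SO P r) (h : GoodTo P r j) (hi1 : 1 ≤ i) (h3 : i + 3 ≤ j)
include I h hi1 h3

/-- (5,2) -/
theorem be5_all (t : Tops P) : be 5 (st i (SS i t)).card (ZS i (SS i t)) = 0 := by
  have hr := h.hr
  have h1 := be5_zero h.H (by omega) (show i + 3 ≤ j by omega)
    (fun m _ hm => h.good m (by omega)) (split_gt h) (by
      intro c _ hb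
      rw [bb_eq h (by omega)] at hb ⊢
      rw [VV_eq h (by omega)]
      obtain ⟨lo, hi, e, C⟩ := Cp.comp_exists h.H c.2 h.hr h.good
      rw [card_SS h (by omega) C] at hb
      exact I.be5_le h C hi1 h3 (by omega)) t (mem_tops t)
  rwa [bb_eq h (by omega), VV_eq h (by omega)] at h1

/-- no flip -/
theorem no_flip {t : Tops P} {lo hi : ℕ → ℕ} {e : ℕ → ℕ → P} (C : Cp.Comp j (t : P) lo hi e) :
    ¬ Flip lo hi i := by
  intro hf
  have h1 := I.be5_flip h C hi1 h3 (by have := hf.1; omega) hf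
  have h2 := be5_all I h hi1 h3 t
  omega

/-- (6,2) -/
theorem al3_sq_all (t : Tops P) : (I2.al 3 (st i (SS i t)).card (ZS i (SS i t))) ^ 2 =
    2 * be 6 (st i (SS i t)).card (ZS i (SS i t)) := by
  have hr := h.hr
  have h1 := al3_sq h.H (by omega) (show i + 3 ≤ j by omega)
    (fun m _ hm => h.good m (by omega)) (split_gt h) (by
      intro c _
      rw [bb_eq h (by omega), VV_eq h (by omega)]
      exact be5_all I h hi1 h3 c) (by
      intro c _ hb
      rw [bb_eq h (by omega)] at hb ⊢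
      rw [VV_eq h (by omega)]
      obtain ⟨lo, hi, e, C⟩ := Cp.comp_exists h.H c.2 h.hr h.good
      rw [card_SS h (by omega) C] at hb
      have hf := no_flip I h hi1 h3 C
      rw [al3_SS h hi1 h3 C hf]
      exact I.be6_le h C hi1 h3 (by omega) hf) t (mem_tops t)
  rwa [bb_eq h (by omega), VV_eq h (by omega)] at h1

/-- (3,1) -/
theorem al3_all (t : Tops P) : I2.al 3 (st i (SS i t)).card (ZS i (SS i t)) = 0 := by
  have h1 := al3_sq_all I h hi1 h3 t
  rcases Nat.lt_or_ge (st i (SS i t)).card 3 with h2 | h2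
  · rw [be_zero_small h.H (SS_part h (by omega) (by omega) t) (by omega), mul_zero] at h1
    exact pow_eq_zero_iff (two_ne_zero) |>.1 h1
  · obtain ⟨lo, hi, e, C⟩ := Cp.comp_exists h.H t.2 h.hr h.good
    rw [card_SS h (by omega) C] at h2
    have hf := no_flip I h hi1 h3 C
    rw [al3_SS h hi1 h3 C hf] at h1 ⊢
    by_contra hne
    have h4 := I.be6_al h C hi1 h3 (by omega) hf (by omega)
    omega

/-- all components are clean at energy 3 -/
theorem cln_three : Cln P i 3 := by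
  intro t
  have hr := h.hr
  have h1 := prof35 h.H (by omega) (show i + 2 ≤ j by omega)
    (fun m _ hm => h.good m (by omega)) (split_gt h) (mem_tops t)
  rw [bb_eq h (by omega), VV_eq h (by omega)] at h1
  have h2 := al_zero (h1.mid 3 (by omega)) (al3_all I h hi1 h3 t)
  rwa [coeff_ZS] at h2

end three

/-- all components are clean at the energies 1, 2 -/
theorem cln_two (h : GoodTo P r j) (h2 : i + 2 ≤ j) {n : ℕ} (hn1 : 1 ≤ n) (hn : n ≤ 2) :
    Cln P i n := by
  intro t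
  have hr := h.hr
  have h1 := indiv_two h.H (by omega) (show i + 2 ≤ j by omega)
    (fun m _ hm => h.good m (by omega)) (split_gt h) (mem_tops t) hn1
  rw [cext_eq h (show i ≤ j by omega)] at h1
  rwa [show (st i (SS i t)).card + 1 - (n + 1) / 2 = (st i (SS i t)).card by omega] at h1

/-- THE LAWS WITH `E ≤ 3` -/
theorem laws3 (I : SO P r) (h : GoodTo P r j) {t : Tops P} {lo hi : ℕ → ℕ} {e : ℕ → ℕ → P}
    (C : Cp.Comp j (t : P) lo hi e) : Laws3 lo hi j where
  lo_zero := C.lo_zero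
  hi_zero := C.hi_zero
  lo_step := C.lo_step
  hi_step := C.hi_step
  lo_le := C.lo_le
  two := fun i hi2 => (law_two h t.2 C hi2).1
  two_le := fun i hi2 => (law_two h t.2 C hi2).2
  two4 := fun i hi1 hi2 hb => law_two4 h t.2 C hi1 hi2 hb
  thr := by
    intro i hi1 h3 _
    have hf := no_flip I h hi1 h3 C
    have h1 := al3_all I h hi1 h3 t
    rw [al3_SS h hi1 h3 C hf] at h1
    omega
  be5 := fun i hi1 h3 => no_flip I h hi1 h3 C
  be6 := by
    intro i hi1 h3 hb hb2 hc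
    have hf := no_flip I h hi1 h3 C
    have h1 := I.be6_cco h C hi1 h3 hb hb2 hc hf
    have h2 := al3_sq_all I h hi1 h3 t
    rw [al3_SS h hi1 h3 C hf] at h2
    omega

end Pool.Agent.GaussPoset.Wd
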