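import Pool.Agent.W_448wd_h84.WdH

/-!
# MP_448cb3_co, widths and ends of the late components, `j ≥ 17`
-/

namespace Pool.Agent.GaussPoset.Wd

set_option linter.unusedSectionVars false

open Finset Cp

universe u

/-- bound of the widths (number of elements minus one) of a late component at distance `m` from its last row -/
def pool : ℕ → ℕ
  | 1 => 3
  | 2 => 2
  | 3 => 2
  | 4 => 1
  | 5 => 1
  | 6 => 1
  | 7 => 1
  | _ => 0

/-- number of extra elements above an element of the last row, within `d` levels -/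
def sE (lo hi : ℕ → ℕ) (j s d : ℕ) : ℕ :=
  ∑ m ∈ range d, ((upI lo hi j s (m + 1)).2 - (upI lo hi j s (m + 1)).1)

/-- sum of their distances -/
def sC (lo hi : ℕ → ℕ) (j s d : ℕ) : ℕ :=
  ∑ m ∈ range d, ((upI lo hi j s (m + 1)).2 - (upI lo hi j s (m + 1)).1) * (m + 1)

lemma late_width : ∀ w ∈ lateW 8, ∀ m, m < w.length + 1 → 1 ≤ m →
    Hw w (w.length + 3 - m) ≤ Lw w (w.length + 3 - m) + pool m := by decide +kernel

/-- the ends of the late components -/
def EndN (a c : ℕ) : Prop :=
  (a = 0 ∧ c = 0) ∨ (a = 1 ∧ 1 ≤ c ∧ c ≤ 7) ∨ (a = 3 ∧ c = 9) ∨ (a = 5 ∧ c = 20) ∨ (a = 5 ∧ c = 25)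

instance (a c : ℕ) : Decidable (EndN a c) := by unfold EndN; infer_instance

/-- the check of an end -/
def ChkN (w : List Ltr) (s : ℕ) : Prop :=
  Lw w (w.length + 3) ≤ s → s ≤ Hw w (w.length + 3) →
    (upI (Lw w) (Hw w) (w.length + 3) s 1).1 = (upI (Lw w) (Hw w) (w.length + 3) s 1).2 →
    EndN (sE (Lw w) (Hw w) (w.length + 3) s w.length) (sC (Lw w) (Hw w) (w.length + 3) s w.length)

instance (w : List Ltr) (s : ℕ) : Decidable (ChkN w s) := by unfold ChkN; infer_instance

lemma late_ends : ∀ w ∈ lateW 8, ∀ s, s < 20 → ChkN w s := by decide +kernel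

lemma late_small : ∀ w ∈ lateW 8, Hw w (w.length + 3) < 20 := by decide +kernel

lemma late_len : ∀ w ∈ lateW 8, w.length ≤ 7 := by decide +kernel
lemma late_len3 : ∀ w ∈ lateW 3, w.length ≤ 7 := by decide +kernel
lemma late_len4 : ∀ w ∈ lateW 4, w.length ≤ 12 := by decide +kernel
lemma late_len5 : ∀ w ∈ lateW 5, w.length ≤ 7 := by decide +kernel
lemma late_len6 : ∀ w ∈ lateW 6, w.length ≤ 7 := by decide +kernel
lemma late_len7 : ∀ w ∈ lateW 7, w.length ≤ 7 := by decide +kernel

lemma lateW_large {a : ℕ} (ha : 7 ≤ a) : lateW a = lateW 8 := by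
  unfold lateW
  simp only [show ¬ a = 3 by omega, show ¬ a = 4 by omega, show ¬ a = 5 by omega, show ¬ a = 6 by omega,
    show 5 ≤ a by omega, show 6 ≤ a by omega, show 7 ≤ a by omega]
  rfl

variable {P : Type u} [Fintype P] [PartialOrder P] [DecidableEq P] {r j a : ℕ}
variable {t : P} {lo hi : ℕ → ℕ} {e : ℕ → ℕ → P}

lemma late_len_all {w : List Ltr} (h : w ∈ lateW a) : w.length ≤ 7 ∨ (a = 4 ∧ w.length ≤ 12) ∨ a < 3 := by
  rcases Nat.lt_or_ge a 7 with h1 | h1
  · obtain h2 | rfl | rfl | rfl | rfl : a < 3 ∨ a = 3 ∨ a = 4 ∨ a = 5 ∨ a = 6 := by omega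
    · omega
    · exact Or.inl (late_len3 w h)
    · exact Or.inr (Or.inl ⟨rfl, late_len4 w h⟩)
    · exact Or.inl (late_len5 w h)
    · exact Or.inl (late_len6 w h)
  · rw [lateW_large h1] at h
    exact Or.inl (late_len w h)

/-- the rows of a word, without the laws -/
lemma Lw_of_trunk (C : Comp j t lo hi e) (h0 : 3 ≤ a) (haj : a ≤ j) (h2 : ∀ k, k < a → lo k = 0 ∧ hi k = 0)
    (h3 : lo a = 0 ∧ hi a = 1) : ∀ n, n ≤ j - a + 3 →
    Lw (word lo hi a (j - a)) n = lo (a - 3 + n) ∧ Hw (word lo hi a (j - a)) n = hi (a - 3 + n) := by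
  intro n hn
  rcases Nat.lt_or_ge n 3 with h4 | h4
  · have := h2 (a - 3 + n) (by omega)
    unfold Lw Hw
    rw [if_pos h4, show n - 3 = 0 by omega, List.take_zero, List.countP_nil]
    omega
  · obtain ⟨m, rfl⟩ : ∃ m, n = m + 3 := ⟨n - 3, by omega⟩
    unfold Lw Hw
    rw [if_neg (by omega), show m + 3 - 3 = m by omega, word_take (by omega),
      show a - 3 + (m + 3) = a + m by omega]
    clear h4
    induction m with
    | zero => simp [word, h3]
    | succ m ih =>
      obtain ⟨i1, i2⟩ := ih (by omega)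
      rw [word_succ, List.countP_append, List.countP_append, i1, ← Nat.add_assoc 1, i2]
      have e3 := C.lo_step (a + m) (by omega)
      have e4 := C.hi_step (a + m) (by omega)
      constructor
      · rcases e3 with e3 | e3
        · simp [e3, ← Nat.add_assoc]
        · simp [e3, ← Nat.add_assoc]
      · rcases e4 with e4 | e4
        · simp [e4, ← Nat.add_assoc]
        · simp [e4, ← Nat.add_assoc]

/-- the data of a late component -/
structure LateD (j a : ℕ) (lo hi : ℕ → ℕ) : Prop where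
  h0 : 3 ≤ a
  h1 : a ≤ j
  h2 : ∀ k, k < a → lo k = 0 ∧ hi k = 0
  h3 : lo a = 0 ∧ hi a = 1
  h4 : ((1 ≤ j - a ∧ j - a ≤ a) ∧ word lo hi a (j - a) = Qw (j - a)) ∨ word lo hi a (j - a) ∈ lateW a

lemma LateD.big (D : LateD j a lo hi) (hj : 17 ≤ j) : 9 ≤ a := by
  rcases D.h4 with h | h
  · omega
  · have := late_len_all h
    rw [word_length] at this
    have := D.h0
    omega

/-- one element on the levels `≤ 8` -/
theorem LateD.rows (D : LateD j a lo hi) (hj : 17 ≤ j) {k : ℕ} (hk : k ≤ 8) : lo k = hi k := by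
  have := D.big hj
  have := D.h2 k (by omega)
  omega

lemma Qw_counts (n : ℕ) : ∀ m, 1 ≤ m → m ≤ n → ((Qw n).take m).countP (fun l => l.1) = 1 ∧
    ((Qw n).take m).countP (fun l => l.2) = 0 := by
  intro m hm hn
  obtain ⟨k, rfl⟩ : ∃ k, m = k + 1 := ⟨m - 1, by omega⟩
  unfold Qw
  rw [List.take_succ_cons, List.take_replicate]
  constructor
  · rw [List.countP_cons_of_pos (by decide), List.countP_replicate]
    simp [OC]
  · rw [List.countP_cons_of_neg (by decide), List.countP_replicate]
    simp [OC]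

/-- the rows of a quadric -/
lemma LateD.quad (D : LateD j a lo hi) (C : Comp j t lo hi e) (hq : word lo hi a (j - a) = Qw (j - a)) :
    ∀ k, 1 ≤ k → a + k ≤ j → lo (a + k) = 1 ∧ hi (a + k) = 1 := by
  intro k hk hkj
  obtain ⟨e1, e2⟩ := Lw_of_trunk C D.h0 D.h1 D.h2 D.h3 (k + 3) (by omega)
  have h0 := D.h0
  rw [hq, show a - 3 + (k + 3) = a + k by omega] at e1 e2
  obtain ⟨g1, g2⟩ := Qw_counts (j - a) k hk (by omega)
  unfold Lw at e1
  unfold Hw at e2
  rw [Nat.add_sub_cancel, g1] at e1
  rw [if_neg (by omega), Nat.add_sub_cancel, g2] at e2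
  omega

/-- WIDTHS of the late components, `j ≥ 17` -/
theorem LateD.widths (D : LateD j a lo hi) (C : Comp j t lo hi e) (hj : 17 ≤ j) :
    (∀ m, 1 ≤ m → m ≤ j → hi (j - m) - lo (j - m) ≤ pool m) ∨
    (a ≤ j ∧ 2 * (j - a) ≤ j ∧ ∀ k, k < j → hi k - lo k ≤ if k = a then 1 else 0) := by
  rcases D.h4 with ⟨h, hq⟩ | h
  · right
    refine ⟨D.h1, by omega, ?_⟩
    intro k hk
    split_ifs with h5
    · rw [h5, D.h3.1, D.h3.2]
    · rcases Nat.lt_or_ge k a with h6 | h6
      · have := D.h2 k h6
        omega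
      · have := D.quad C hq (k - a) (by omega) (by omega)
        rw [show a + (k - a) = k by omega] at this
        omega
  · left
    intro m hm hmj
    have hb := D.big hj
    have h1 := D.h1
    rcases Nat.lt_or_ge (j - m) a with h5 | h5
    · have := D.h2 _ h5
      omega
    · rw [lateW_large (by omega)] at h
      have h6 := late_width _ h m (by rw [word_length]; omega) hm
      rw [word_length] at h6
      obtain ⟨e1, e2⟩ := Lw_of_trunk C D.h0 D.h1 D.h2 D.h3 (j - a + 3 - m) (by omega)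
      rw [show a - 3 + (j - a + 3 - m) = j - m by omega] at e1 e2
      omega

lemma uc_card_nab (H : Gr P r) {x : P} (hx : 1 ≤ lev x) : (Win.uc x).card = nab (lev x - 1) x := by
  classical
  unfold nab
  congr 1
  ext y
  rw [Win.mem_uc, mem_filter, mem_lv, H.covBy_iff]
  constructor
  · rintro ⟨h1, h2⟩
    exact ⟨by omega, h1.le⟩
  · rintro ⟨h1, h2⟩
    refine ⟨lt_of_le_of_ne h2 ?_, by omega⟩
    rintro rfl
    omega

/-- ENDS of the late components, `j ≥ 17` -/
theorem LateD.ends (D : LateD j a lo hi) (C : Comp j t lo hi e) (H : Gr P r)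
    (hg : ∀ l, l < j → Win.Good P l) (ht : lev t = 0) (hj : 17 ≤ j) {x : P} (hxt : x ≤ t)
    (hxl : lev x = j) (hx : (Win.uc x).card = 1) :
    Bal.NEnd2 j (∑ k ∈ range j, ((nab k x : ℤ) - 1)) (∑ k ∈ range j, ((nab k x : ℤ) - 1) * ((j : ℤ) - k)) := by
  have h0 := D.h0
  have h1 := D.h1
  have hb := D.big hj
  obtain ⟨s, s1, s2, hs⟩ := C.surj x hxt hxl.le
  rw [hxl] at s1 s2 hs
  subst hs
  have hnab : ∀ m, m ≤ j → nab (j - m) (e j s) = (upI lo hi j s m).2 + 1 - (upI lo hi j s m).1 :=
    fun m hm => nab_upI C H hg ht s1 s2 hm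
  have hint : ∀ m, m ≤ j → lo (j - m) ≤ (upI lo hi j s m).1 ∧
      (upI lo hi j s m).1 ≤ (upI lo hi j s m).2 ∧ (upI lo hi j s m).2 ≤ hi (j - m) :=
    fun m hm => (upI_spec C H hg ht s1 s2 m hm).1
  -- the first step
  have hfirst : (upI lo hi j s 1).1 = (upI lo hi j s 1).2 := by
    rw [uc_card_nab H (by omega), hxl, hnab 1 (by omega)] at hx
    have := hint 1 (by omega)
    omega
  -- the sums
  have hsum : ∀ g : ℕ → ℤ, ∑ k ∈ range j, ((nab k (e j s) : ℤ) - 1) * g k =
      ∑ m ∈ range (j - a), (((upI lo hi j s (m + 1)).2 - (upI lo hi j s (m + 1)).1 : ℕ) : ℤ) *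
        g (j - (m + 1)) := by
    intro g
    rw [← Finset.sum_range_reflect]
    have e1 : ∀ m ∈ range j, ((nab (j - 1 - m) (e j s) : ℤ) - 1) * g (j - 1 - m) =
        (((upI lo hi j s (m + 1)).2 - (upI lo hi j s (m + 1)).1 : ℕ) : ℤ) * g (j - (m + 1)) := by
      intro m hm
      rw [mem_range] at hm
      rw [show j - 1 - m = j - (m + 1) by omega, hnab (m + 1) (by omega)]
      have := hint (m + 1) (by omega)
      congr 1
      omega
    rw [Finset.sum_congr rfl e1]
    symm
    apply Finset.sum_subset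
    · intro m hm
      rw [mem_range] at hm ⊢
      omega
    · intro m hm hm'
      rw [mem_range] at hm hm'
      have g1 := hint (m + 1) (by omega)
      have g2 := D.h2 (j - (m + 1)) (by omega)
      rw [show (upI lo hi j s (m + 1)).2 - (upI lo hi j s (m + 1)).1 = 0 by omega]
      simp
  have hE : ∑ k ∈ range j, ((nab k (e j s) : ℤ) - 1) = (sE lo hi j s (j - a) : ℤ) := by
    have := hsum (fun _ => 1)
    simp only [mul_one] at this
    rw [this]
    unfold sE
    push_cast
    rfl
  have hC : ∑ k ∈ range j, ((nab k (e j s) : ℤ) - 1) * ((j : ℤ) - k) = (sC lo hi j s (j - a) : ℤ) := by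
    have := hsum (fun k => (j : ℤ) - k)
    rw [this]
    unfold sC
    rw [Nat.cast_sum]
    refine Finset.sum_congr rfl fun m hm => ?_
    rw [mem_range] at hm
    rw [Nat.cast_mul]
    congr 1
    omega
  rw [hE, hC]
  rcases D.h4 with ⟨h, hq⟩ | h
  · -- quadric
    have hr := D.quad C hq
    have hd2 : 2 ≤ j - a := by
      by_contra hc
      have hd : j - a = 1 := by omega
      have := hr 1 le_rfl (by omega)
      rw [show a + 1 = j by omega] at this
      rw [upI_succ, upI] at hfirst
      simp only [Nat.sub_zero] at hfirst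
      rw [show j - 1 = a by omega, D.h3.1, D.h3.2] at hfirst
      omega
    have hw : ∀ m, m + 1 < j - a → (upI lo hi j s (m + 1)).2 - (upI lo hi j s (m + 1)).1 = 0 := by
      intro m hm
      have g1 := hint (m + 1) (by omega)
      have g2 := hr (j - a - (m + 1)) (by omega) (by omega)
      rw [show a + (j - a - (m + 1)) = j - (m + 1) by omega] at g2
      omega
    have hlast : (upI lo hi j s (j - a)).2 - (upI lo hi j s (j - a)).1 = 1 := by
      obtain ⟨n, hn⟩ : ∃ n, j - a = n + 1 := ⟨j - a - 1, by omega⟩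
      rw [hn, upI_succ]
      have g1 := hint n (by omega)
      have g2 := hr 1 le_rfl (by omega)
      rw [show j - n = a + 1 by omega] at g1
      rw [show j - n - 1 = a by omega, D.h3.1, D.h3.2]
      simp only
      omega
    have hs1 : sE lo hi j s (j - a) = 1 := by
      unfold sE
      obtain ⟨n, hn⟩ : ∃ n, j - a = n + 1 := ⟨j - a - 1, by omega⟩
      rw [hn, Finset.sum_range_succ, ← hn, hlast, Finset.sum_eq_zero]
      intro m hm
      rw [mem_range] at hm
      exact hw m (by omega)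
    have hs2 : sC lo hi j s (j - a) = j - a := by
      unfold sC
      obtain ⟨n, hn⟩ : ∃ n, j - a = n + 1 := ⟨j - a - 1, by omega⟩
      rw [hn, Finset.sum_range_succ, ← hn, hlast, Finset.sum_eq_zero]
      · omega
      · intro m hm
        rw [mem_range] at hm
        rw [hw m (by omega), Nat.zero_mul]
    rw [hs1, hs2]
    unfold Bal.NEnd2
    right
    left
    refine ⟨rfl, by omega, Or.inr ?_⟩
    omega
  · -- the words
    rw [lateW_large (by omega)] at h
    have hL := fun n hn => (Lw_of_trunk C h0 h1 D.h2 D.h3 n hn).1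
    have hH := fun n hn => (Lw_of_trunk C h0 h1 D.h2 D.h3 n hn).2
    have hup := upI_congr (s := s) hL hH
    have hj' : a - 3 + (j - a + 3) = j := by omega
    rw [hj'] at hup
    have k1 := late_small _ h
    have k2 := late_ends _ h s
    rw [word_length] at k1
    unfold ChkN at k2
    rw [word_length, hL _ le_rfl, hH _ le_rfl, hj', hup 1 (by omega)] at k2
    rw [hH _ le_rfl, hj'] at k1
    have k3 := k2 (by omega) s1 s2 hfirst
    have c1 : sE (Lw (word lo hi a (j - a))) (Hw (word lo hi a (j - a))) (j - a + 3) s (j - a) =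
        sE lo hi j s (j - a) := by
      unfold sE
      refine Finset.sum_congr rfl fun m hm => ?_
      rw [mem_range] at hm
      rw [hup (m + 1) (by omega)]
    have c2 : sC (Lw (word lo hi a (j - a))) (Hw (word lo hi a (j - a))) (j - a + 3) s (j - a) =
        sC lo hi j s (j - a) := by
      unfold sC
      refine Finset.sum_congr rfl fun m hm => ?_
      rw [mem_range] at hm
      rw [hup (m + 1) (by omega)]
    rw [c1, c2] at k3
    unfold EndN at k3
    unfold Bal.NEnd2
    omega

end Pool.Agent.GaussPoset.Wd
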