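import Pool.Agent.W_448wd_h84.WdA

/-!
# MP_448cb3_co, letters of a component: the word of a late component is in the tree
-/

namespace Pool.Agent.GaussPoset.Wd

section congr

variable {lo hi L H : ℕ → ℕ} {B N i : ℕ}

lemma pdL_congr (hL : ∀ n, n ≤ N → L n = lo (B + n)) (hH : ∀ n, n ≤ N → H n = hi (B + n))
    (h : i + 2 ≤ N) : pdL L H i ↔ pdL lo hi (B + i) := by
  have e0 := hL i (by omega)
  have e1 := hL (i + 1) (by omega)
  have e2 := hL (i + 2) (by omega)
  have f0 := hH i (by omega)
  rw [← Nat.add_assoc] at e1 e2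
  unfold pdL
  rw [e0, e1, e2, f0]

lemma pdR_congr (hL : ∀ n, n ≤ N → L n = lo (B + n)) (hH : ∀ n, n ≤ N → H n = hi (B + n))
    (h : i + 2 ≤ N) : pdR L H i ↔ pdR lo hi (B + i) := by
  have e0 := hH i (by omega)
  have e1 := hH (i + 1) (by omega)
  have e2 := hH (i + 2) (by omega)
  have f0 := hL i (by omega)
  rw [← Nat.add_assoc] at e1 e2
  unfold pdR
  rw [e0, e1, e2, f0]

lemma sub_aux {m : ℕ} (h : m ≤ i) : B + i - m = B + (i - m) := by omega

lemma puL_congr (hL : ∀ n, n ≤ N → L n = lo (B + n)) (hH : ∀ n, n ≤ N → H n = hi (B + n))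
    (h2 : 2 ≤ i) (h : i ≤ N) : puL L H i ↔ puL lo hi (B + i) := by
  have e0 := hL i (by omega)
  have e1 := hL (i - 1) (by omega)
  have e2 := hL (i - 2) (by omega)
  have f0 := hH i (by omega)
  unfold puL
  rw [sub_aux (B := B) (show 1 ≤ i by omega), sub_aux (B := B) h2, e0, e1, e2, f0]
  constructor
  · rintro ⟨h1, h3⟩
    exact ⟨by omega, h3⟩
  · rintro ⟨h1, h3⟩
    exact ⟨h2, h3⟩

lemma puR_congr (hL : ∀ n, n ≤ N → L n = lo (B + n)) (hH : ∀ n, n ≤ N → H n = hi (B + n))
    (h2 : 2 ≤ i) (h : i ≤ N) : puR L H i ↔ puR lo hi (B + i) := by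
  have e0 := hH i (by omega)
  have e1 := hH (i - 1) (by omega)
  have e2 := hH (i - 2) (by omega)
  have f0 := hL i (by omega)
  unfold puR
  rw [sub_aux (B := B) (show 1 ≤ i by omega), sub_aux (B := B) h2, e0, e1, e2, f0]
  constructor
  · rintro ⟨h1, h3⟩
    exact ⟨by omega, h3⟩
  · rintro ⟨h1, h3⟩
    exact ⟨h2, h3⟩

lemma npd_congr (hL : ∀ n, n ≤ N → L n = lo (B + n)) (hH : ∀ n, n ≤ N → H n = hi (B + n))
    (h : i + 2 ≤ N) : npd L H i = npd lo hi (B + i) := by
  unfold npd
  simp only [pdL_congr hL hH h, pdR_congr hL hH h]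

lemma npu_congr (hL : ∀ n, n ≤ N → L n = lo (B + n)) (hH : ∀ n, n ≤ N → H n = hi (B + n))
    (h2 : 2 ≤ i) (h : i ≤ N) : npu L H i = npu lo hi (B + i) := by
  unfold npu
  simp only [puL_congr hL hH h2 h, puR_congr hL hH h2 h]

lemma flw_congr (hL : ∀ n, n ≤ N → L n = lo (B + n)) (hH : ∀ n, n ≤ N → H n = hi (B + n))
    (h : i + 3 ≤ N) : flw L H i = flw lo hi (B + i) := by
  have e2 := hL (i + 2) (by omega)
  have e3 := hL (i + 3) (by omega)
  have f2 := hH (i + 2) (by omega)
  have f3 := hH (i + 3) (by omega)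
  rw [← Nat.add_assoc] at e2 e3 f2 f3
  unfold flw
  simp only [pdL_congr hL hH (show i + 2 ≤ N by omega), pdR_congr hL hH (show i + 2 ≤ N by omega),
    e2, e3, f2, f3]

lemma fuw_congr (hL : ∀ n, n ≤ N → L n = lo (B + n)) (hH : ∀ n, n ≤ N → H n = hi (B + n))
    (h3 : 3 ≤ i) (h : i ≤ N) : fuw L H i = fuw lo hi (B + i) := by
  have e2 := hL (i - 2) (by omega)
  have e3 := hL (i - 3) (by omega)
  have f2 := hH (i - 2) (by omega)
  have f3 := hH (i - 3) (by omega)
  have h4 : 3 ≤ B + i := by omega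
  unfold fuw
  simp only [puL_congr hL hH (show 2 ≤ i by omega) h, puR_congr hL hH (show 2 ≤ i by omega) h,
    sub_aux (B := B) (show 2 ≤ i by omega), sub_aux (B := B) h3, e2, e3, f2, f3, h3, h4]

lemma Flip_congr (hL : ∀ n, n ≤ N → L n = lo (B + n)) (hH : ∀ n, n ≤ N → H n = hi (B + n))
    (h2 : 2 ≤ i) (h : i + 2 ≤ N) : Flip L H i ↔ Flip lo hi (B + i) := by
  unfold Flip
  rw [puL_congr hL hH h2 (by omega), puR_congr hL hH h2 (by omega), pdL_congr hL hH h, pdR_congr hL hH h,
    hL i (by omega), hH i (by omega)]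

lemma cco_congr (hL : ∀ n, n ≤ N → L n = lo (B + n)) (hH : ∀ n, n ≤ N → H n = hi (B + n))
    (h : i + 3 ≤ N) : cco L H i ↔ cco lo hi (B + i) := by
  have e0 := hL i (by omega)
  have e1 := hL (i + 1) (by omega)
  have e2 := hL (i + 2) (by omega)
  have e3 := hL (i + 3) (by omega)
  have f0 := hH i (by omega)
  have f1 := hH (i + 1) (by omega)
  have f2 := hH (i + 2) (by omega)
  have f3 := hH (i + 3) (by omega)
  rw [← Nat.add_assoc] at e1 e2 e3 f1 f2 f3
  unfold cco
  rw [e0, e1, e2, e3, f0, f1, f2, f3]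

lemma chL_congr {E : ℕ} (hL : ∀ n, n ≤ N → L n = lo (B + n)) (hH : ∀ n, n ≤ N → H n = hi (B + n))
    (hE : 1 ≤ E) (h : i + E ≤ N) : chL L H i E ↔ chL lo hi (B + i) E := by
  have e0 := hL i (by omega)
  have e1 := hL (i + 1) (by omega)
  rw [← Nat.add_assoc] at e1
  unfold chL
  rw [e0, e1]
  refine and_congr Iff.rfl (forall_congr' fun k => ?_)
  constructor
  · intro h1 hk hk1
    have e2 := hL (i + k) (by omega)
    have e3 := hL (i + k + 1) (by omega)
    have f2 := hH (i + k) (by omega)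
    have := h1 hk hk1
    rw [e2, e3, f2] at this
    simpa only [Nat.add_assoc] using this
  · intro h1 hk hk1
    have e2 := hL (i + k) (by omega)
    have e3 := hL (i + k + 1) (by omega)
    have f2 := hH (i + k) (by omega)
    have := h1 hk hk1
    rw [e2, e3, f2]
    simpa only [Nat.add_assoc] using this

lemma chR_congr {E : ℕ} (hL : ∀ n, n ≤ N → L n = lo (B + n)) (hH : ∀ n, n ≤ N → H n = hi (B + n))
    (hE : 1 ≤ E) (h : i + E ≤ N) : chR L H i E ↔ chR lo hi (B + i) E := by
  have e0 := hH i (by omega)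
  have e1 := hH (i + 1) (by omega)
  rw [← Nat.add_assoc] at e1
  unfold chR
  rw [e0, e1]
  refine and_congr Iff.rfl (forall_congr' fun k => ?_)
  constructor
  · intro h1 hk hk1
    have e2 := hH (i + k) (by omega)
    have e3 := hH (i + k + 1) (by omega)
    have f2 := hL (i + k) (by omega)
    have := h1 hk hk1
    rw [e2, e3, f2] at this
    simpa only [Nat.add_assoc] using this
  · intro h1 hk hk1
    have e2 := hH (i + k) (by omega)
    have e3 := hH (i + k + 1) (by omega)
    have f2 := hL (i + k) (by omega)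
    have := h1 hk hk1
    rw [e2, e3, f2]
    simpa only [Nat.add_assoc] using this

lemma loE_congr {E : ℕ} (hL : ∀ n, n ≤ N → L n = lo (B + n)) (hH : ∀ n, n ≤ N → H n = hi (B + n))
    (hE : 1 ≤ E) (h : i + E ≤ N) : loE L H i E = loE lo hi (B + i) E := by
  have e2 := hL (i + E) (by omega)
  have f2 := hH (i + E) (by omega)
  rw [← Nat.add_assoc] at e2 f2
  unfold loE
  simp only [chL_congr hL hH hE h, chR_congr hL hH hE h, e2, f2]

end congr

/-! ## the word -/

variable {lo hi : ℕ → ℕ} {j a d : ℕ}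

lemma word_succ : word lo hi a (d + 1) = word lo hi a d ++
    [(decide (lo (a + d + 1) ≠ lo (a + d)), decide (hi (a + d + 1) ≠ hi (a + d)))] := by
  unfold word
  rw [List.range_succ, List.map_append]
  rfl

@[simp] lemma word_length : (word lo hi a d).length = d := by simp [word]

lemma word_take {m : ℕ} (h : m ≤ d) : (word lo hi a d).take m = word lo hi a m := by
  unfold word
  rw [← List.map_take, List.take_range, min_eq_left h]

/-- rows of level `≤ a` -/
lemma Laws3.trunk (h : Laws3 lo hi j) (hN : NF lo hi j) (ha : a ≤ j) (h1 : ∀ k, k < a → lo k = hi k) :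
    ∀ k, k < a → lo k = 0 := by
  intro k
  induction k with
  | zero => intro _; exact h.lo_zero
  | succ k ih =>
    intro hk
    rw [hN k (by omega) (h1 k (by omega)) (h1 (k + 1) hk)]
    exact ih (by omega)

lemma Laws3.at_a (h : Laws3 lo hi j) (hN : NF lo hi j) (ha : a ≤ j) (h0 : 1 ≤ a)
    (h1 : ∀ k, k < a → lo k = hi k) (h2 : lo a < hi a) : lo a = 0 ∧ hi a = 1 := by
  obtain ⟨b, rfl⟩ : ∃ b, a = b + 1 := ⟨a - 1, by omega⟩
  have e1 := h.trunk hN ha h1 b (by omega)
  have e2 := h1 b (by omega)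
  have e3 := h.lo_step b (by omega)
  have e4 := h.hi_step b (by omega)
  omega

lemma Laws3.Lw_word (h : Laws3 lo hi j) (hN : NF lo hi j) (h0 : 3 ≤ a)
    (h1 : ∀ k, k < a → lo k = hi k) (h2 : lo a < hi a) (hd : a + d ≤ j) :
    ∀ n, n ≤ d + 3 → Lw (word lo hi a d) n = lo (a - 3 + n) := by
  intro n hn
  unfold Lw
  rcases Nat.lt_or_ge n 3 with h3 | h3
  · rw [Nat.sub_eq_zero_of_le h3.le, List.take_zero, List.countP_nil,
      h.trunk hN (by omega) h1 _ (by omega)]
  · obtain ⟨m, rfl⟩ : ∃ m, n = m + 3 := ⟨n - 3, by omega⟩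
    rw [show m + 3 - 3 = m by omega, word_take (by omega), show a - 3 + (m + 3) = a + m by omega]
    clear h3
    induction m with
    | zero =>
      have := (h.at_a hN (by omega) (by omega) h1 h2).1
      simpa [word] using this.symm
    | succ m ih =>
      rw [word_succ, List.countP_append, ih (by omega)]
      have e3 := h.lo_step (a + m) (by omega)
      rcases e3 with e3 | e3
      · simp [e3, ← Nat.add_assoc]
      · simp [e3, ← Nat.add_assoc]

lemma Laws3.Hw_word (h : Laws3 lo hi j) (hN : NF lo hi j) (h0 : 3 ≤ a)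
    (h1 : ∀ k, k < a → lo k = hi k) (h2 : lo a < hi a) (hd : a + d ≤ j) :
    ∀ n, n ≤ d + 3 → Hw (word lo hi a d) n = hi (a - 3 + n) := by
  intro n hn
  unfold Hw
  split_ifs with h3
  · rw [← h1 _ (by omega), h.trunk hN (by omega) h1 _ (by omega)]
  · obtain ⟨m, rfl⟩ : ∃ m, n = m + 3 := ⟨n - 3, by omega⟩
    rw [show m + 3 - 3 = m by omega, word_take (by omega), show a - 3 + (m + 3) = a + m by omega]
    clear h3
    induction m with
    | zero =>
      have := (h.at_a hN (by omega) (by omega) h1 h2).2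
      simpa [word] using this.symm
    | succ m ih =>
      rw [word_succ, List.countP_append, ← Nat.add_assoc, ih (by omega)]
      have e3 := h.hi_step (a + m) (by omega)
      rcases e3 with e3 | e3
      · simp [e3, ← Nat.add_assoc]
      · simp [e3, ← Nat.add_assoc]

/-- the laws of `Laws3` with the last level `a + d` -/
theorem Laws3.new (h : Laws3 lo hi j) (hN : NF lo hi j) (h0 : 3 ≤ a)
    (h1 : ∀ k, k < a → lo k = hi k) (h2 : lo a < hi a) (hd : a + d ≤ j)
    (hor : (word lo hi a d).head? ≠ some CO) : NewA (word lo hi a d) := by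
  have hL := h.Lw_word hN h0 h1 h2 hd
  have hH := h.Hw_word hN h0 h1 h2 hd
  set B := a - 3 with hB
  have hl : (word lo hi a d).length = d := word_length
  refine ⟨?_, ?_, ?_, hor⟩
  · rw [hl]
    constructor
    · rw [hL _ le_rfl, hH _ le_rfl]
      exact h.lo_le _ (by omega)
    · intro h3 h4 h5
      have e1 := hL (d + 2) (by omega)
      have e2 := hL (d + 3) (by omega)
      have e3 := hH (d + 2) (by omega)
      have e4 := hH (d + 3) (by omega)
      rw [e1, e3] at h4
      rw [e2, e4] at h5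
      rw [e1, e2]
      exact hN (B + (d + 2)) (by omega) h4 h5
  · rw [hl]
    intro h3
    rw [npd_congr (i := d + 1) hL hH (by omega), npu_congr (i := d + 1) hL hH (by omega) (by omega),
      pdL_congr (i := d + 1) hL hH (by omega), pdR_congr (i := d + 1) hL hH (by omega),
      puL_congr (i := d + 1) hL hH (by omega) (by omega), puR_congr (i := d + 1) hL hH (by omega) (by omega),
      hL (d + 1) (by omega), hH (d + 1) (by omega)]
    exact ⟨h.two _ (by omega), h.two_le _ (by omega), h.two4 _ (by omega) (by omega)⟩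
  · rw [hl]
    intro h3
    rw [Flip_congr (i := d) hL hH (by omega) (by omega), flw_congr (i := d) hL hH (by omega),
      fuw_congr (i := d) hL hH (by omega) (by omega), cco_congr (i := d) hL hH (by omega),
      hL d (by omega), hH d (by omega), hL (d + 2) (by omega), hH (d + 2) (by omega)]
    exact ⟨h.be5 _ (by omega) (by omega), h.thr _ (by omega) (by omega), h.be6 _ (by omega) (by omega)⟩

lemma badK_large (ha : 8 ≤ a) : badK a = badK 8 := by
  unfold badK
  simp only [show ¬ a = 3 by omega, show ¬ a = 4 by omega, show ¬ a = 5 by omega,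
    show ¬ a = 6 by omega, show 4 ≤ a by omega, show 5 ≤ a by omega, show 6 ≤ a by omega,
    show 7 ≤ a by omega]
  rfl

lemma badW_large (ha : 8 ≤ a) : badW a = badW 8 := by
  unfold badW
  rw [badK_large ha]

/-- the laws with the last level `a + d` -/
theorem Laws.new (h : Laws lo hi j) (hN : NF lo hi j) (h0 : 3 ≤ a)
    (h1 : ∀ k, k < a → lo k = hi k) (h2 : lo a < hi a) (hd : a + d ≤ j) {A : ℕ}
    (hA : A = a ∨ (A = 8 ∧ d ≤ 8 ∧ 8 ≤ a)) (hor : (word lo hi a d).head? ≠ some CO) :
    New A (word lo hi a d) := by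
  have hL := h.Lw_word hN h0 h1 h2 hd
  have hH := h.Hw_word hN h0 h1 h2 hd
  set B := a - 3 with hB
  have hl : (word lo hi a d).length = d := word_length
  refine ⟨h.toLaws3.new hN h0 h1 h2 hd hor, ?_, ?_⟩
  · rw [hl]
    intro h3 h4
    have h5 := h.fq a d h1 h2 h0 h3 hd (fun k hk hk' => by
      have e1 := hL (k + 3) (by omega)
      have e2 := hH (k + 3) (by omega)
      have e3 := h4 k hk' hk
      rw [e1, e2, show B + (k + 3) = a + k by omega] at e3
      exact e3)
    rw [hL _ le_rfl, hH _ le_rfl, show B + (d + 3) = a + d by omega]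
    exact ⟨by omega, h5.2⟩
  · intro hb
    have hb' : word lo hi a d ∈ badW a := by
      rcases hA with rfl | ⟨rfl, hA⟩
      · exact hb
      · rw [badW_large (a := a) (by omega)]
        exact hb
    refine h.bad _ _ hb' (fun k hk => ?_) (h.at_a hN (by omega) (by omega) h1 h2) h0
      (by rw [hl]; exact hd) (by rw [hl])
    have e1 := h.trunk hN (by omega) h1 k hk
    have e2 := h1 k hk
    omega

theorem Laws.mem_tree (h : Laws lo hi j) (hN : NF lo hi j) (h0 : 3 ≤ a)
    (h1 : ∀ k, k < a → lo k = hi k) (h2 : lo a < hi a) {A : ℕ} :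
    ∀ d, a + d ≤ j → (A = a ∨ (A = 8 ∧ d ≤ 8 ∧ 8 ≤ a)) → (word lo hi a d).head? ≠ some CO →
      word lo hi a d ∈ tree A d := by
  intro d
  induction d with
  | zero => intro _ _ _; simp [tree, word]
  | succ d ih =>
    intro hd hA hor
    have hor' : (word lo hi a d).head? ≠ some CO := by
      rcases d with _ | d
      · simp [word]
      · rw [word_succ] at hor
        rwa [List.head?_append_of_ne_nil _ (by simp [word])] at hor
    have h3 := ih (by omega) (by omega) hor'
    rw [tree, List.mem_filter]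
    refine ⟨?_, by simpa using h.new hN h0 h1 h2 hd hA hor⟩
    rw [List.mem_flatMap]
    refine ⟨_, h3, ?_⟩
    rw [word_succ]
    generalize decide (lo (a + d + 1) ≠ lo (a + d)) = p
    generalize decide (hi (a + d + 1) ≠ hi (a + d)) = q
    cases p <;> cases q <;> simp [OO, CO, OC, CC]

end Pool.Agent.GaussPoset.Wd
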