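import Pool.Agent.W_448wd_h84.WdA

/-!
# MP_448cb3_co, the early components (row 470)
-/

namespace Pool.Agent.GaussPoset.Wd

variable {lo hi : ℕ → ℕ} {j : ℕ}

/-! ## `a = 1`: rectangles -/

lemma Laws3.rect_aux (h : Laws3 lo hi j) (h1 : lo 1 < hi 1) : ∀ n, n ≤ j →
    (∀ k, 1 ≤ k → k < n → lo k < hi k) ∧ (∀ i, i + 2 ≤ n → ¬ pdL lo hi i ∧ ¬ pdR lo hi i) := by
  intro n
  induction n with
  | zero => intro _; exact ⟨fun k _ hk => by omega, fun i hi => by omega⟩
  | succ n ih =>
    intro hn
    obtain ⟨ih1, ih2⟩ := ih (by omega)
    have e0 := h.lo_zero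
    have f0 := h.hi_zero
    have hb : ∀ k, 1 ≤ k → k < n + 1 → lo k < hi k := by
      intro k hk hk'
      rcases Nat.lt_or_ge k n with h3 | h3
      · exact ih1 k hk h3
      obtain rfl : k = n := by omega
      rcases Nat.eq_or_lt_of_le hk with rfl | h4
      · exact h1
      by_contra h5
      obtain ⟨m, rfl⟩ : ∃ m, k = m + 1 := ⟨k - 1, by omega⟩
      have g1 := ih1 m (by omega) (by omega)
      have g2 := h.lo_step m (by omega)
      have g3 := h.hi_step m (by omega)
      have g4 := h.lo_step (m + 1) (by omega)
      have g5 := h.hi_step (m + 1) (by omega)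
      have g6 := h.lo_le (m + 1) (by omega)
      have g7 := h.lo_le (m + 1 + 1) (by omega)
      -- the pattern at `m`
      have k1 : npd lo hi m = npu lo hi m := h.two m (by omega)
      have k2 : npu lo hi m = 0 := by
        unfold npu
        have : ¬ puL lo hi m ∧ ¬ puR lo hi m := by
          constructor
          · rintro ⟨a1, a2, a3, a4⟩
            obtain ⟨s, rfl⟩ : ∃ s, m = s + 2 := ⟨m - 2, by omega⟩
            have : pdL lo hi s := by
              refine ⟨?_, ?_, ?_⟩
              · simpa using a2
              · simpa using a3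
              · rcases Nat.eq_zero_or_pos s with rfl | hs
                · simp at a2
                  have := h.lo_step 1 (by omega)
                  have := h.hi_step 0 (by omega)
                  simp at *
                  omega
                · exact ih1 s hs (by omega)
            exact (ih2 s (by omega)).1 this
          · rintro ⟨a1, a2, a3, a4⟩
            obtain ⟨s, rfl⟩ : ∃ s, m = s + 2 := ⟨m - 2, by omega⟩
            have : pdR lo hi s := by
              refine ⟨?_, ?_, ?_⟩
              · simpa using a2
              · simpa using a3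
              · rcases Nat.eq_zero_or_pos s with rfl | hs
                · simp at a2
                  have := h.lo_step 0 (by omega)
                  simp at *
                  omega
                · exact ih1 s hs (by omega)
            exact (ih2 s (by omega)).2 this
        rw [if_neg this.1, if_neg this.2]
      rw [k2] at k1
      unfold npd at k1
      have k3 : ¬ pdL lo hi m ∧ ¬ pdR lo hi m := by
        constructor
        · intro hh; rw [if_pos hh] at k1; omega
        · intro hh; rw [if_pos hh] at k1; omega
      obtain ⟨k4, k5⟩ := k3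
      unfold pdL at k4
      unfold pdR at k5
      rw [show m + 1 + 1 = m + 2 from rfl] at g4 g5 g7
      omega
    refine ⟨hb, ?_⟩
    intro i hi2
    rcases Nat.lt_or_ge (i + 2) (n + 1) with h3 | h3
    · exact ih2 i (by omega)
    have k1 : npd lo hi i = npu lo hi i := h.two i (by omega)
    have k2 : npu lo hi i = 0 := by
      unfold npu
      have : ¬ puL lo hi i ∧ ¬ puR lo hi i := by
        constructor
        · rintro ⟨a1, a2, a3, a4⟩
          obtain ⟨s, rfl⟩ : ∃ s, i = s + 2 := ⟨i - 2, by omega⟩
          have : pdL lo hi s := by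
            refine ⟨?_, ?_, ?_⟩
            · simpa using a2
            · simpa using a3
            · rcases Nat.eq_zero_or_pos s with rfl | hs
              · simp at a2
                have := h.hi_step 0 (by omega)
                simp at *
                omega
              · exact hb s hs (by omega)
          exact (ih2 s (by omega)).1 this
        · rintro ⟨a1, a2, a3, a4⟩
          obtain ⟨s, rfl⟩ : ∃ s, i = s + 2 := ⟨i - 2, by omega⟩
          have : pdR lo hi s := by
            refine ⟨?_, ?_, ?_⟩
            · simpa using a2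
            · simpa using a3
            · rcases Nat.eq_zero_or_pos s with rfl | hs
              · simp at a2
                have := h.lo_step 0 (by omega)
                simp at *
                omega
              · exact hb s hs (by omega)
          exact (ih2 s (by omega)).2 this
      rw [if_neg this.1, if_neg this.2]
    rw [k2] at k1
    unfold npd at k1
    constructor
    · intro hh; rw [if_pos hh] at k1; omega
    · intro hh; rw [if_pos hh] at k1; omega

/-- (A) a component with two elements on level `1` is rectangle-like -/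
theorem Laws3.rect (h : Laws3 lo hi j) (h1 : lo 1 < hi 1) :
    (∀ k, k < j → lo (k + 1) = 0 ∨ lo (k + 1) = lo k + 1) ∧
    (∀ k, k < j → hi (k + 1) = k + 1 ∨ hi (k + 1) = hi k) := by
  obtain ⟨hb, hc⟩ := h.rect_aux h1 j le_rfl
  have e0 := h.lo_zero
  have f0 := h.hi_zero
  have hlo : ∀ k, k < j → lo (k + 1) = lo k → lo k = 0 := by
    intro k
    induction k with
    | zero => intro _ _; exact e0
    | succ k ih =>
      intro hk h3
      rcases h.lo_step k (by omega) with h4 | h4
      · rw [h4]
        exact ih (by omega) h4
      · exfalso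
        rcases Nat.eq_zero_or_pos k with rfl | hk0
        · have := h.hi_step 0 (by omega)
          simp at *
          omega
        · exact (hc k (by omega)).1 ⟨h4, h3, hb k hk0 (by omega)⟩
  have hhi : ∀ k, k < j → hi (k + 1) = hi k + 1 → hi k = k := by
    intro k
    induction k with
    | zero => intro _ _; exact f0
    | succ k ih =>
      intro hk h3
      rcases h.hi_step k (by omega) with h4 | h4
      · exfalso
        rcases Nat.eq_zero_or_pos k with rfl | hk0
        · have := h.lo_step 0 (by omega)
          simp at *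
          omega
        · exact (hc k (by omega)).2 ⟨h4, h3, hb k hk0 (by omega)⟩
      · rw [h4, ih (by omega) h4]
  constructor
  · intro k hk
    rcases h.lo_step k hk with h3 | h3
    · left
      rw [h3]
      exact hlo k hk h3
    · right
      exact h3
  · intro k hk
    rcases h.hi_step k hk with h3 | h3
    · right
      exact h3
    · left
      rw [h3, hhi k hk h3]

/-! ## `a = 2`: stairs -/

/-- natural like a stair (fold on the side of `hi`) down to level `n` -/
def Stair (lo hi : ℕ → ℕ) (n : ℕ) : Prop :=
  (∀ k, k < n → lo (k + 1) = 0 ∨ lo (k + 1) = lo k + 1) ∧ (∀ k, k ≤ n → hi k = k / 2)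

lemma Stair.mono {n m : ℕ} (S : Stair lo hi n) (h : m ≤ n) : Stair lo hi m :=
  ⟨fun k hk => S.1 k (by omega), fun k hk => S.2 k (by omega)⟩

lemma Stair.not_puL {n i : ℕ} (S : Stair lo hi n) (hi2 : i ≤ n) : ¬ puL lo hi i := by
  rintro ⟨a1, a2, a3, a4⟩
  obtain ⟨s, rfl⟩ : ∃ s, i = s + 2 := ⟨i - 2, by omega⟩
  simp only [Nat.add_sub_cancel, show s + 2 - 1 = s + 1 by omega] at a2 a3
  have := S.1 s (by omega)
  have := S.1 (s + 1) (by omega)
  rw [show s + 1 + 1 = s + 2 from rfl] at this
  omega

lemma Stair.fuw_zero {n i : ℕ} (S : Stair lo hi n) (hi2 : i ≤ n) (he : i % 2 = 0)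
    (hb : 4 ≤ i → lo (i - 2) < hi (i - 2)) : fuw lo hi i = 0 := by
  unfold fuw
  have h0 := S.not_puL hi2
  rw [if_neg, if_neg]
  · rintro ⟨h1, h2, -⟩
    rw [S.2 (i - 2) (by omega), S.2 (i - 3) (by omega)] at h2
    omega
  · rintro ⟨h1, h2, h3⟩
    rcases h3 with h3 | ⟨-, h3⟩
    · exact h0 h3
    · have := hb (by omega)
      omega

/-- a row of even level which is not the last one has at least two elements -/
lemma Laws3.even_two (h : Laws3 lo hi j) (h2 : lo 2 < hi 2) {n : ℕ} (S : Stair lo hi n) (_ : n ≤ j) :
    ∀ k, 2 ≤ k → k % 2 = 0 → k < j → k ≤ n → lo k < hi k := by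
  intro k
  induction k using Nat.strong_induction_on with
  | _ k ih =>
    intro hk he hkj hkn
    rcases Nat.lt_or_ge k 3 with h3 | h3
    · obtain rfl : k = 2 := by omega
      exact h2
    obtain ⟨i, rfl⟩ : ∃ i, k = i + 2 := ⟨k - 2, by omega⟩
    have hbi : lo i < hi i := ih i (by omega) (by omega) (by omega) (by omega) (by omega)
    by_contra hc
    have e0 := S.2 i (by omega)
    have e1 := S.2 (i + 1) (by omega)
    have e2 := S.2 (i + 2) (by omega)
    have g0 := S.1 i (by omega)
    have g1 := S.1 (i + 1) (by omega)
    have g2 := h.lo_le (i + 2) (by omega)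
    have l0 := h.lo_step i (by omega)
    have l1 := h.lo_step (i + 1) (by omega)
    rw [show i + 1 + 1 = i + 2 from rfl] at g1 l1
    have g3 := h.lo_le (i + 3) (by omega)
    have l2 := h.lo_step (i + 2) (by omega)
    have l3 := h.hi_step (i + 2) (by omega)
    rw [show i + 2 + 1 = i + 3 from rfl] at l2 l3
    have hpd : pdR lo hi i := ⟨by omega, by omega, hbi⟩
    have k1 := h.thr i (by omega) (by omega) hbi
    rw [S.fuw_zero (by omega) (by omega) (fun h4 => ih (i - 2) (by omega) (by omega) (by omega) (by omega)
      (by omega))] at k1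
    unfold flw at k1
    have k2 : lo (i + 2) = hi (i + 2) := by omega
    have k3 : lo (i + 3) = lo (i + 2) ∨ hi (i + 3) = hi (i + 2) + 1 := by omega
    rcases k3 with k3 | k3
    · rw [if_pos ⟨k3, Or.inr ⟨hpd, k2⟩⟩] at k1
      omega
    · rw [if_pos (show hi (i + 3) = hi (i + 2) + 1 ∧ _ from ⟨k3, Or.inl hpd⟩)] at k1
      omega

/-- the exceptional word `F1 = OO OC OO CC OC` (levels `≤ 6`) -/
def F1 (lo hi : ℕ → ℕ) : Prop :=
  (lo 0 = 0 ∧ lo 1 = 0 ∧ lo 2 = 0 ∧ lo 3 = 0 ∧ lo 4 = 0 ∧ lo 5 = 1 ∧ lo 6 = 1) ∧
  (hi 0 = 0 ∧ hi 1 = 0 ∧ hi 2 = 1 ∧ hi 3 = 1 ∧ hi 4 = 2 ∧ hi 5 = 2 ∧ hi 6 = 2)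

/-- one more level -/
lemma Laws3.stair_step (h : Laws3 lo hi j) (h2 : lo 2 < hi 2)
    (hN : ∀ k, 2 ≤ k → k < j → lo k = hi k → lo (k + 1) = hi (k + 1) → lo (k + 1) = lo k + 1)
    {n : ℕ} (S : Stair lo hi n) (hn4 : 4 ≤ n) (hn : n < j) :
    Stair lo hi (n + 1) ∨ (j = 6 ∧ F1 lo hi) := by
  have e0 := h.lo_zero
  have f0 := h.hi_zero
  have hl := h.lo_step n hn
  have hr := h.hi_step n hn
  have ev := h.even_two h2 S hn.le
  -- it is enough to know the letters
  have fin : (lo (n + 1) = lo n → lo n = 0) → hi (n + 1) = (n + 1) / 2 → Stair lo hi (n + 1) := by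
    intro h3 h4
    refine ⟨fun k hk => ?_, fun k hk => ?_⟩
    · rcases Nat.lt_or_ge k n with h5 | h5
      · exact S.1 k h5
      · obtain rfl : k = n := by omega
        rcases hl with hl | hl
        · left
          rw [hl, h3 hl]
        · right
          exact hl
    · rcases Nat.lt_or_ge k (n + 1) with h5 | h5
      · exact S.2 k (by omega)
      · obtain rfl : k = n + 1 := by omega
        exact h4
  -- the left letters before
  have hl0 : ∀ k, k < n → lo (k + 1) = lo k → lo k = 0 := by
    intro k hk h3
    rcases S.1 k hk with h4 | h4 <;> omega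
  rcases Nat.mod_two_eq_zero_or_one n with he | he
  · -- `n` even: the letter on the right is C
    obtain ⟨i, rfl⟩ : ∃ i, n = i + 2 := ⟨n - 2, by omega⟩
    left
    have hbi := ev i (by omega) (by omega) (by omega) (by omega)
    have hbn := ev (i + 2) (by omega) he hn le_rfl
    have c0 := S.2 i (by omega)
    have c1 := S.2 (i + 1) (by omega)
    have c2 := S.2 (i + 2) (by omega)
    have l0 := h.lo_step i (by omega)
    have l1 := h.lo_step (i + 1) (by omega)
    have h31 := h.lo_le (i + 1) (by omega)
    rw [show i + 1 + 1 = i + 2 from rfl] at l1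
    have hpd : pdR lo hi i := ⟨by omega, by omega, hbi⟩
    have k1 := h.thr i (by omega) (by omega) hbi
    rw [S.fuw_zero (by omega) (by omega) (fun h4 => ev (i - 2) (by omega) (by omega) (by omega)
      (by omega))] at k1
    unfold flw at k1
    rw [show i + 2 + 1 = i + 3 from rfl] at *
    have hr2 : hi (i + 3) = hi (i + 2) := by
      rcases hr with hr | hr
      · exact hr
      · rw [if_pos (show hi (i + 3) = hi (i + 2) + 1 ∧ _ from ⟨hr, Or.inl hpd⟩)] at k1
        omega
    apply fin
    · intro h3
      -- window `i + 1`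
      rcases Nat.lt_or_ge (lo (i + 1)) (hi (i + 1)) with h5 | h5
      · have k2 : npd lo hi (i + 1) = npu lo hi (i + 1) := h.two (i + 1) (by omega)
        have k3 : npu lo hi (i + 1) = 0 := by
          unfold npu
          rw [if_neg (S.not_puL (by omega)), if_neg]
          rintro ⟨a1, a2, a3, a4⟩
          simp only [Nat.add_sub_cancel] at a3
          omega
        rw [k3] at k2
        unfold npd at k2
        have k4 : ¬ pdL lo hi (i + 1) := by
          intro hh
          rw [if_pos hh] at k2
          omega
        rcases l1 with l1 | l1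
        · rw [l1]
          exact hl0 (i + 1) (by omega) l1
        · exfalso
          exact k4 ⟨l1, h3, h5⟩
      · have h6 : lo (i + 2) = lo (i + 1) := by omega
        have h7 := hl0 (i + 1) (by omega) h6
        omega
    · rw [hr2, c2]
      omega
  · -- `n` odd: the letter on the right is O
    obtain ⟨i, rfl⟩ : ∃ i, n = i + 1 := ⟨n - 1, by omega⟩
    have hbi := ev i (by omega) (by omega) (by omega) (by omega)
    have c0 := S.2 i (by omega)
    have c1 := S.2 (i + 1) (by omega)
    have l0 := h.lo_step i (by omega)
    have h31 := h.lo_le (i + 1) (by omega)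
    have h32 := h.lo_le (i + 2) (by omega)
    rw [show i + 1 + 1 = i + 2 from rfl] at *
    have hpu : puR lo hi i := by
      refine ⟨by omega, ?_, ?_, hbi⟩
      · rw [S.2 (i - 1) (by omega), S.2 (i - 2) (by omega)]
        omega
      · rw [c0, S.2 (i - 1) (by omega)]
        omega
    have npul : ¬ puL lo hi i := S.not_puL (by omega)
    have k2 : npd lo hi i = npu lo hi i := h.two i (by omega)
    have k3 : npu lo hi i = 1 := by
      unfold npu
      rw [if_neg npul, if_pos hpu]
    rw [k3] at k2
    unfold npd at k2
    by_cases hL : pdL lo hi i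
    · -- the bad case
      rw [if_pos hL] at k2
      have hR : ¬ pdR lo hi i := by
        intro hh
        rw [if_pos hh] at k2
        omega
      obtain ⟨a1, a2, -⟩ := hL
      have a3 : hi (i + 2) = hi (i + 1) := by
        rcases hr with hr | hr
        · exact hr
        · exact absurd ⟨by omega, hr, hbi⟩ hR
      rcases Nat.lt_or_ge (lo i + 2) (hi i) with h5 | h5
      · exfalso
        exact npul ((h.two4 i (by omega) (by omega) (by omega)).1.1 ⟨a1, a2, hbi⟩)
      rcases Nat.lt_or_ge (lo i + 1) (hi i) with h6 | h6
      · -- `b_i = 3`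
        have h7 : hi i = lo i + 2 := by omega
        rcases Nat.lt_or_ge (i + 2) j with h8 | h8
        · exfalso
          exact h.be5 i (by omega) (by omega) ⟨h7, Or.inr ⟨hpu, ⟨a1, a2, hbi⟩⟩⟩
        · have hj : j = i + 2 := by omega
          obtain ⟨s, rfl⟩ : ∃ s, i = s + 1 := ⟨i - 1, by omega⟩
          have d0 := S.2 s (by omega)
          rcases h.lo_step s (by omega) with h9 | h9
          · right
            have h10 : lo s = 0 := hl0 s (by omega) h9
            have hs : s = 3 := by omega
            subst hs
            have h11 : ∀ k, k ≤ 3 → lo k = 0 := by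
              intro k hk
              have q0 := h.lo_step 0 (by omega)
              have q1 := h.lo_step 1 (by omega)
              have q2 := h.lo_step 2 (by omega)
              simp only [Nat.reduceAdd] at *
              interval_cases k <;> omega
            refine ⟨by omega, ⟨e0, h11 1 (by omega), h11 2 (by omega), h11 3 (by omega), ?_, ?_, ?_⟩,
              f0, ?_, ?_, ?_, ?_, ?_, ?_⟩
            · simp only [Nat.reduceAdd] at *; omega
            · simp only [Nat.reduceAdd] at *; omega
            · simp only [Nat.reduceAdd] at *; omega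
            · rw [S.2 1 (by omega)]
            · rw [S.2 2 (by omega)]
            · rw [S.2 3 (by omega)]
            · rw [S.2 4 (by omega)]
            · rw [S.2 5 (by omega)]
            · simp only [Nat.reduceAdd] at *; omega
          · exfalso
            refine h.be6 s (by omega) (by omega) (by omega) ?_ (Or.inl ⟨h9, a1, a2⟩)
            rw [show s + 1 + 1 = s + 2 from rfl] at *
            omega
      · -- `b_i = 2`
        exfalso
        have := hN (i + 1) (by omega) (by omega) (by omega) (by
          rw [show i + 1 + 1 = i + 2 from rfl]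
          omega)
        rw [show i + 1 + 1 = i + 2 from rfl] at this
        omega
    · left
      rw [if_neg hL] at k2
      have hR : pdR lo hi i := by
        by_contra hh
        rw [if_neg hh] at k2
        omega
      obtain ⟨a1, a2, -⟩ := hR
      apply fin
      · intro h3
        rcases l0 with l0 | l0
        · rw [l0]
          exact hl0 i (by omega) l0
        · exact absurd ⟨l0, h3, hbi⟩ hL
      · rw [a2, a1, c0]
        omega

/-- (B) a component with two elements on level `2`, one element on level `1`, fold on the right side -/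
theorem Laws3.stair (h : Laws3 lo hi j) (hj : 4 ≤ j) (h10 : lo 1 = 0) (h11 : hi 1 = 0) (h2 : lo 2 < hi 2)
    (hor : ¬ pdL lo hi 2)
    (hN : ∀ k, 2 ≤ k → k < j → lo k = hi k → lo (k + 1) = hi (k + 1) → lo (k + 1) = lo k + 1) :
    Stair lo hi j ∨ (j = 6 ∧ F1 lo hi) := by
  have e0 := h.lo_zero
  have f0 := h.hi_zero
  have l1 := h.lo_step 1 (by omega)
  have r1 := h.hi_step 1 (by omega)
  have l2 := h.lo_step 2 (by omega)
  have r2 := h.hi_step 2 (by omega)
  have l3 := h.lo_step 3 (by omega)
  have r3 := h.hi_step 3 (by omega)
  simp only [Nat.reduceAdd] at l1 r1 l2 r2 l3 r3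
  have hlo2 : lo 2 = 0 := by omega
  have hhi2 : hi 2 = 1 := by omega
  have base : Stair lo hi 4 := by
    have k2 : npd lo hi 2 = npu lo hi 2 := h.two 2 (by omega)
    have k3 : npu lo hi 2 = 1 := by
      unfold npu
      rw [if_neg, if_pos]
      · exact ⟨le_rfl, by rw [h11, f0], by rw [hhi2, h11], h2⟩
      · rintro ⟨-, a2, -⟩
        rw [show (2 : ℕ) - 1 = 1 from rfl, show (2 : ℕ) - 2 = 0 from rfl] at a2
        omega
    rw [k3] at k2
    unfold npd at k2
    rw [if_neg hor] at k2
    have hR : pdR lo hi 2 := by
      by_contra hh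
      rw [if_neg hh] at k2
      omega
    obtain ⟨a1, a2, -⟩ := hR
    have a3 : ¬ (lo 3 = 1 ∧ lo 4 = lo 3) := by
      rintro ⟨b1, b2⟩
      exact hor ⟨show lo 3 = lo 2 + 1 by omega, b2, h2⟩
    simp only [Nat.reduceAdd] at a1 a2
    constructor
    · intro k hk
      obtain rfl | rfl | rfl | rfl : k = 0 ∨ k = 1 ∨ k = 2 ∨ k = 3 := by omega
      · left; exact h10
      · left; exact hlo2
      · show lo 3 = 0 ∨ lo 3 = lo 2 + 1
        omega
      · show lo 4 = 0 ∨ lo 4 = lo 3 + 1
        omega
    · intro k hk
      obtain rfl | rfl | rfl | rfl | rfl : k = 0 ∨ k = 1 ∨ k = 2 ∨ k = 3 ∨ k = 4 := by omega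
      · exact f0
      · exact h11
      · exact hhi2
      · omega
      · omega
  have main : ∀ n, 4 ≤ n → n ≤ j → Stair lo hi n ∨ (j = 6 ∧ F1 lo hi) := by
    intro n hn
    induction n, hn using Nat.le_induction with
    | base => intro _; exact Or.inl base
    | succ n hn ih =>
      intro hnj
      rcases ih (by omega) with S | hF
      · exact h.stair_step h2 hN S hn (by omega)
      · exact Or.inr hF
  exact main j hj le_rfl

end Pool.Agent.GaussPoset.Wd
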