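import Pool.Agent.W_448wd_h84.WdC
import Pool.Agent.W_448wd_h84.WdD
import Pool.Agent.W_448fw_h5.FwS

/-!
# MP_448cb3_co: the shapes of the components (S3 and S4), from the laws
-/

namespace Pool.Agent.GaussPoset.Wd

set_option linter.unusedSectionVars false

open Cp

universe u

variable {P : Type u} [Fintype P] [PartialOrder P] [DecidableEq P]

/-! ## renormalisation of the steps between one-element rows -/

/-- new left ends; the steps between one-element rows are given by `c` -/
def rlo (lo hi c : ℕ → ℕ) : ℕ → ℕ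
  | 0 => 0
  | k + 1 => rlo lo hi c k + if lo k = hi k ∧ lo (k + 1) = hi (k + 1) then c k else lo (k + 1) - lo k

def rhi (lo hi c : ℕ → ℕ) (k : ℕ) : ℕ := rlo lo hi c k + (hi k - lo k)

lemma rlo_succ_one {lo hi c : ℕ → ℕ} {k : ℕ} (h : lo k = hi k ∧ lo (k + 1) = hi (k + 1)) :
    rlo lo hi c (k + 1) = rlo lo hi c k + c k := by
  rw [rlo, if_pos h]

lemma rlo_succ {lo hi c : ℕ → ℕ} {k : ℕ} (h : ¬ (lo k = hi k ∧ lo (k + 1) = hi (k + 1))) :
    rlo lo hi c (k + 1) = rlo lo hi c k + (lo (k + 1) - lo k) := by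
  rw [rlo, if_neg h]

theorem renorm {j : ℕ} {t : P} {lo hi : ℕ → ℕ} {e : ℕ → ℕ → P} (C : Comp j t lo hi e) (c : ℕ → ℕ)
    (hc : ∀ k, c k ≤ 1) :
    Comp j t (rlo lo hi c) (rhi lo hi c) (fun k s => e k (s + lo k - rlo lo hi c k)) where
  lo_zero := rfl
  hi_zero := by
    unfold rhi
    rw [C.hi_zero, C.lo_zero]
    rfl
  top := by
    have h1 := C.lo_zero
    show e 0 (0 + lo 0 - 0) = t
    rw [h1]
    exact C.top
  lo_step := by
    intro k hk
    by_cases h : lo k = hi k ∧ lo (k + 1) = hi (k + 1)
    · rw [rlo_succ_one h]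
      have := hc k
      omega
    · rw [rlo_succ h]
      have := C.lo_step k hk
      omega
  hi_step := by
    intro k hk
    unfold rhi
    have h1 := C.lo_le k (by omega)
    have h2 := C.lo_le (k + 1) (by omega)
    have h3 := C.lo_step k hk
    have h4 := C.hi_step k hk
    by_cases h : lo k = hi k ∧ lo (k + 1) = hi (k + 1)
    · rw [rlo_succ_one h]
      have := hc k
      omega
    · rw [rlo_succ h]
      omega
  lo_le := by
    intro k hk
    unfold rhi
    omega
  lev_e := by
    intro k s hk h1 h2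
    unfold rhi at h2
    have h3 := C.lo_le k hk
    exact C.lev_e k _ hk (by omega) (by omega)
  le_t := by
    intro k s hk h1 h2
    unfold rhi at h2
    have h3 := C.lo_le k hk
    exact C.le_t k _ hk (by omega) (by omega)
  inj := by
    intro k s s' hk h1 h2 h3 h4 h5
    unfold rhi at h2 h4
    have h6 := C.lo_le k hk
    have := C.inj k _ _ hk (by omega) (by omega) (by omega) (by omega) h5
    omega
  surj := by
    intro z hz hzj
    obtain ⟨s, h1, h2, h3⟩ := C.surj z hz hzj
    refine ⟨s + rlo lo hi c (lev z) - lo (lev z), by omega, ?_, ?_⟩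
    · unfold rhi
      omega
    · show e (lev z) (s + rlo lo hi c (lev z) - lo (lev z) + lo (lev z) - rlo lo hi c (lev z)) = z
      rw [show s + rlo lo hi c (lev z) - lo (lev z) + lo (lev z) - rlo lo hi c (lev z) = s by omega]
      exact h3
  cov := by
    intro k s s' hk h1 h2 h3 h4
    unfold rhi at h2 h4
    have g1 := C.lo_le k (by omega)
    have g2 := C.lo_le (k + 1) (by omega)
    have g3 := C.lo_step k hk
    have g4 := C.hi_step k hk
    have key := C.cov k (s + lo (k + 1) - rlo lo hi c (k + 1)) (s' + lo k - rlo lo hi c k) hk (by omega)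
      (by omega) (by omega) (by omega)
    show e (k + 1) (s + lo (k + 1) - rlo lo hi c (k + 1)) ⋖ e k (s' + lo k - rlo lo hi c k) ↔
      s' = s ∨ s' + 1 = s
    rw [key]
    by_cases h : lo k = hi k ∧ lo (k + 1) = hi (k + 1)
    · rw [rlo_succ_one h] at h1 h2 ⊢
      have := hc k
      omega
    · rw [rlo_succ h] at h1 h2 ⊢
      omega

variable {lo hi : ℕ → ℕ} {j : ℕ} {t : P} {e : ℕ → ℕ → P}

lemma rhi_sub {c : ℕ → ℕ} {k : ℕ} : rhi lo hi c k - rlo lo hi c k = hi k - lo k := by
  unfold rhi
  omega

lemma r_one {c : ℕ → ℕ} (C : Comp j t lo hi e) {k : ℕ} (hk : k ≤ j) :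
    rlo lo hi c k = rhi lo hi c k ↔ lo k = hi k := by
  have := C.lo_le k hk
  unfold rhi
  omega

/-- normal form for a step: no move between one-element rows -/
lemma renorm_NF (C : Comp j t lo hi e) : NF (rlo lo hi fun _ => 0) (rhi lo hi fun _ => 0) j := by
  intro k hk h1 h2
  rw [r_one C (by omega)] at h1
  rw [r_one C (by omega)] at h2
  rw [rlo_succ_one ⟨h1, h2⟩]
  rfl

/-! ## the classification -/

/-- the possible shapes of a component which is natural down to level `j` -/
inductive Shape (j : ℕ) (lo hi : ℕ → ℕ) : Prop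
  /-- one element on every level -/
  | light (h : ∀ k, k ≤ j → lo k = 0 ∧ hi k = 0)
  /-- two elements on level 1 -/
  | rect (h1 : lo 1 = 0 ∧ hi 1 = 1) (h2 : RectShape j lo hi)
  /-- two elements on level 2 -/
  | stair (h0 : 2 ≤ j) (h2 : StairShape j lo hi)
  /-- `OO OO`, level 3 -/
  | three (h0 : j = 3) (h1 : lo 1 = 0 ∧ lo 2 = 0 ∧ lo 3 = 0) (h2 : hi 1 = 0 ∧ hi 2 = 1 ∧ hi 3 = 2)
  /-- the word `F1`, level 6 -/
  | six (h0 : j = 6) (h1 : F1 lo hi)
  /-- two elements on level `a ≥ 3` for the first time -/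
  | late (a : ℕ) (h0 : 3 ≤ a) (h1 : a ≤ j) (h2 : ∀ k, k < a → lo k = 0 ∧ hi k = 0) (h3 : lo a = 0 ∧ hi a = 1)
      (hN : NF lo hi j)
      (h4 : ((1 ≤ j - a ∧ j - a ≤ a) ∧ word lo hi a (j - a) = Qw (j - a)) ∨ word lo hi a (j - a) ∈ lateW a)

/-- the possible shapes of a component, the late ones not analysed -/
inductive Pre (j : ℕ) (lo hi : ℕ → ℕ) : Prop
  /-- one element on every level -/
  | light (h : ∀ k, k ≤ j → lo k = 0 ∧ hi k = 0)
  /-- two elements on level 1 -/
  | rect (h1 : lo 1 = 0 ∧ hi 1 = 1) (h2 : RectShape j lo hi)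
  /-- two elements on level 2 -/
  | stair (h0 : 2 ≤ j) (h2 : StairShape j lo hi)
  /-- `OO OO`, level 3 -/
  | three (h0 : j = 3) (h1 : lo 1 = 0 ∧ lo 2 = 0 ∧ lo 3 = 0) (h2 : hi 1 = 0 ∧ hi 2 = 1 ∧ hi 3 = 2)
  /-- the word `F1`, level 6 -/
  | six (h0 : j = 6) (h1 : F1 lo hi)
  /-- two elements on level `a ≥ 3` for the first time -/
  | late (a : ℕ) (h0 : 3 ≤ a) (h1 : a ≤ j) (h2 : ∀ k, k < a → lo k = 0 ∧ hi k = 0) (h3 : lo a = 0 ∧ hi a = 1)
      (hN : NF lo hi j) (h4 : (word lo hi a (j - a)).head? ≠ some CO)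

/-- the late components, from all the laws -/
theorem Pre.shape {lo hi : ℕ → ℕ} {j : ℕ} (h : Pre j lo hi) (L : Laws lo hi j) : Shape j lo hi := by
  rcases h with h | ⟨h1, h2⟩ | ⟨h1, h2⟩ | ⟨h1, h2, h3⟩ | ⟨h1, h2⟩ | ⟨a, h0, h1, h2, h3, hN, h4⟩
  · exact Shape.light h
  · exact Shape.rect h1 h2
  · exact Shape.stair h1 h2
  · exact Shape.three h1 h2 h3
  · exact Shape.six h1 h2
  · exact Shape.late a h0 h1 h2 h3 hN (L.late hN h0 h1 (fun k hk => by have := h2 k hk; omega) (by omega) h4)

/-- S3: the shape of a component, from the laws `Laws3`; the late components are only normalised -/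
theorem exists_pre (C : Comp j t lo hi e) (HL : ∀ lo hi e, Comp j t lo hi e → Laws3 lo hi j) :
    ∃ lo hi e, Comp j t lo hi e ∧ Pre j lo hi := by
  classical
  -- normal form, first level with two elements
  by_cases hl : ∀ k, k ≤ j → lo k = hi k
  · -- light
    have C1 := renorm C (fun _ => 0) (fun _ => by omega)
    refine ⟨_, _, _, C1, Pre.light ?_⟩
    have hN := renorm_NF C
    intro k
    induction k with
    | zero => intro _; exact ⟨C1.lo_zero, C1.hi_zero⟩
    | succ k ih =>
      intro hk
      have h1 := ih (by omega)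
      have h2 := (r_one (c := fun _ => 0) C (by omega)).2 (hl (k + 1) hk)
      have h3 := hN k (by omega) (by omega) h2
      omega
  push Not at hl
  obtain ⟨k0, hk0, hk0'⟩ := hl
  have hex : ∃ k, lo k ≠ hi k := ⟨k0, hk0'⟩
  set a := Nat.find hex with ha
  have ha1 : lo a ≠ hi a := Nat.find_spec hex
  have ha2 : ∀ k, k < a → lo k = hi k := fun k hk => by
    by_contra hc
    exact Nat.find_min hex hk hc
  have haj : a ≤ j := (Nat.find_min' hex hk0').trans hk0
  have ha0 : 1 ≤ a := by
    rcases Nat.eq_zero_or_pos a with h | h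
    · rw [h, C.lo_zero, C.hi_zero] at ha1
      exact absurd rfl ha1
    · exact h
  have hle := C.lo_le a haj
  -- the facts for a representation in normal form below level `a`
  have start : ∀ lo' hi' e', Comp j t lo' hi' e' → (∀ k, k < a → lo' k = hi' k) → lo' a ≠ hi' a →
      (∀ k, k + 1 < a → lo' (k + 1) = lo' k) →
      (∀ k, k < a → lo' k = 0 ∧ hi' k = 0) ∧ lo' a = 0 ∧ hi' a = 1 := by
    intro lo' hi' e' C' h1 h2 h3
    have h4 : ∀ k, k < a → lo' k = 0 := by
      intro k
      induction k with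
      | zero => intro _; exact C'.lo_zero
      | succ k ih =>
        intro hk
        rw [h3 k hk]
        exact ih (by omega)
    obtain ⟨b, hb⟩ : ∃ b, a = b + 1 := ⟨a - 1, by omega⟩
    have h5 := h4 b (by omega)
    have h6 := h1 b (by omega)
    have h7 := C'.lo_step b (by omega)
    have h8 := C'.hi_step b (by omega)
    have h9 := C'.lo_le a haj
    rw [hb] at h2 h9 ⊢
    refine ⟨fun k hk => ⟨h4 k (by omega), ?_⟩, by omega, by omega⟩
    rw [← h1 k (by omega), h4 k (by omega)]
  -- mirror image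
  have swp : ∀ lo' hi' e', Comp j t lo' hi' e' → (∀ k, k < a → lo' k = hi' k) → lo' a ≠ hi' a →
      ∃ lo'' hi'' e'', Comp j t lo'' hi'' e'' ∧ (∀ k, k < a → lo'' k = hi'' k) ∧ lo'' a ≠ hi'' a ∧
        (∀ k, k ≤ j → lo'' k = k - hi' k ∧ hi'' k = k - lo' k) := by
    intro lo' hi' e' C' h1 h2
    refine ⟨_, _, _, comp_swap C', ?_, ?_, fun k _ => ⟨rfl, rfl⟩⟩
    · intro k hk
      show k - hi' k = k - lo' k
      rw [h1 k hk]
    · have h3 := C'.hi_le (k := a) haj
      have h4 := C'.lo_le a haj
      show a - hi' a ≠ a - lo' a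
      omega
  -- renormalisation keeps the letters of the other steps
  have ren : ∀ (c : ℕ → ℕ), (∀ k, c k ≤ 1) → ∀ lo' hi' e', Comp j t lo' hi' e' →
      (∀ k, k < a → lo' k = hi' k) → lo' a ≠ hi' a →
      ∃ lo'' hi'' e'', Comp j t lo'' hi'' e'' ∧ (∀ k, k < a → lo'' k = hi'' k) ∧ lo'' a ≠ hi'' a ∧
        (∀ k, k < j → lo' k = hi' k → lo' (k + 1) = hi' (k + 1) → lo'' (k + 1) = lo'' k + c k) ∧
        (∀ k, k < j → ¬ (lo' k = hi' k ∧ lo' (k + 1) = hi' (k + 1)) →
          lo'' (k + 1) = lo'' k + (lo' (k + 1) - lo' k)) ∧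
        (∀ k, k ≤ j → hi'' k = lo'' k + (hi' k - lo' k)) := by
    intro c hc lo' hi' e' C' h1 h2
    refine ⟨_, _, _, renorm C' c hc, ?_, ?_, ?_, ?_, ?_⟩
    · intro k hk
      exact (r_one C' (by omega)).2 (h1 k hk)
    · intro h3
      exact h2 ((r_one C' haj).1 h3)
    · intro k hk h3 h4
      exact rlo_succ_one ⟨h3, h4⟩
    · intro k hk h3
      exact rlo_succ h3
    · intro k hk
      rfl
  rcases Nat.lt_or_ge a 2 with h1 | h1
  · -- rectangle
    have hA : a = 1 := by omega
    have L := HL lo hi e C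
    rw [hA] at ha1 hle
    obtain ⟨h2, h3⟩ := L.rect (by omega)
    refine ⟨lo, hi, e, C, Pre.rect ?_ ⟨h2, h3⟩⟩
    have h4 := C.lo_step 0 (by omega)
    have h5 := C.hi_step 0 (by omega)
    have h6 := C.lo_zero
    have h7 := C.hi_zero
    simp only [Nat.reduceAdd] at h4 h5
    omega
  rcases Nat.lt_or_ge a 3 with h3 | h3
  · -- stair
    have hA : a = 2 := by omega
    -- the normalisation: step `0 → 1` does not move, the others move
    have norm : ∀ lo' hi' e', Comp j t lo' hi' e' → (∀ k, k < a → lo' k = hi' k) → lo' a ≠ hi' a →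
        ∃ lo'' hi'' e'', Comp j t lo'' hi'' e'' ∧ lo'' 1 = 0 ∧ hi'' 1 = 0 ∧ lo'' 2 = 0 ∧ hi'' 2 = 1 ∧
          (∀ k, 2 ≤ k → k < j → lo'' k = hi'' k → lo'' (k + 1) = hi'' (k + 1) →
            lo'' (k + 1) = lo'' k + 1) ∧
          (∀ k, k < j → ¬ (lo' k = hi' k ∧ lo' (k + 1) = hi' (k + 1)) →
            lo'' (k + 1) = lo'' k + (lo' (k + 1) - lo' k)) ∧
          (∀ k, k ≤ j → hi'' k = lo'' k + (hi' k - lo' k)) := by
      intro lo' hi' e' C' h4 h5
      obtain ⟨lo'', hi'', e'', C'', g1, g2, g3, g4, g5⟩ :=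
        ren (fun k => if k = 0 then 0 else 1) (fun k => by split_ifs <;> omega) lo' hi' e' C' h4 h5
      have g6 := start lo'' hi'' e'' C'' g1 g2 (by
        intro k hk
        obtain rfl : k = 0 := by omega
        rw [g3 0 (by omega) (h4 0 (by omega)) (h4 1 (by omega))]
        rfl)
      have g7 := g6.1 1 (by omega)
      have g8 := g6.2
      rw [hA] at g8
      refine ⟨lo'', hi'', e'', C'', g7.1, g7.2, g8.1, g8.2, ?_, g4, g5⟩
      intro k hk hk' h6 h7
      have h8 := g5 k (by omega)
      have h9 := g5 (k + 1) (by omega)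
      have := C'.lo_le k (by omega)
      have := C'.lo_le (k + 1) (by omega)
      rw [g3 k hk' (by omega) (by omega), if_neg (by omega)]
    rcases Nat.lt_or_ge j 4 with hj4 | hj4
    · -- small `j`
      obtain ⟨lo', hi', e', C', g1, g2, g3, g4, g5, g6, g7⟩ := norm lo hi e C ha2 ha1
      rcases Nat.lt_or_ge j 3 with hj3 | hj3
      · refine ⟨lo', hi', e', C', Pre.stair (by omega) ⟨?_, ?_⟩⟩
        · intro k hk
          obtain rfl | rfl : k = 0 ∨ k = 1 := by omega
          · left; exact g1
          · left; exact g3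
        · intro k hk
          obtain rfl | rfl | rfl : k = 0 ∨ k = 1 ∨ k = 2 := by omega
          · exact C'.hi_zero
          · exact g2
          · exact g4
      · have hj : j = 3 := by omega
        have k1 := C'.lo_step 2 (by omega)
        have k2 := C'.hi_step 2 (by omega)
        simp only [Nat.reduceAdd] at k1 k2
        rcases k2 with k2 | k2
        · refine ⟨lo', hi', e', C', Pre.stair (by omega) ⟨?_, ?_⟩⟩
          · intro k hk
            obtain rfl | rfl | rfl : k = 0 ∨ k = 1 ∨ k = 2 := by omega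
            · left; exact g1
            · left; exact g3
            · show lo' 3 = 0 ∨ lo' 3 = lo' 2 + 1
              omega
          · intro k hk
            obtain rfl | rfl | rfl | rfl : k = 0 ∨ k = 1 ∨ k = 2 ∨ k = 3 := by omega
            · exact C'.hi_zero
            · exact g2
            · exact g4
            · omega
        · rcases k1 with k1 | k1
          · exact ⟨lo', hi', e', C', Pre.three hj ⟨g1, g3, by omega⟩ ⟨g2, g4, by omega⟩⟩
          · -- the mirror image
            obtain ⟨lo2, hi2, e2, C2, m1, m2, m3⟩ := swp lo' hi' e' C' (by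
              intro k hk
              obtain rfl | rfl : k = 0 ∨ k = 1 := by omega
              · rw [C'.lo_zero, C'.hi_zero]
              · rw [g1, g2]) (by rw [hA]; omega)
            obtain ⟨lo3, hi3, e3, C3, n1, n2, n3, n4, n5, n6, n7⟩ := norm lo2 hi2 e2 C2 m1 m2
            have p2 := m3 2 (by omega)
            have p3 := m3 3 (by omega)
            have q2 := n7 2 (by omega)
            have q3 := n7 3 (by omega)
            have q4 := n6 2 (by omega) (by omega)
            simp only [Nat.reduceAdd] at q4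
            refine ⟨lo3, hi3, e3, C3, Pre.stair (by omega) ⟨?_, ?_⟩⟩
            · intro k hk
              obtain rfl | rfl | rfl : k = 0 ∨ k = 1 ∨ k = 2 := by omega
              · left; exact n1
              · left; exact n3
              · show lo3 3 = 0 ∨ lo3 3 = lo3 2 + 1
                omega
            · intro k hk
              obtain rfl | rfl | rfl | rfl : k = 0 ∨ k = 1 ∨ k = 2 ∨ k = 3 := by omega
              · exact C3.hi_zero
              · exact n2
              · exact n4
              · omega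
    · -- `j ≥ 4`
      have big : ∀ lo' hi' e', Comp j t lo' hi' e' → lo' 1 = 0 → hi' 1 = 0 → lo' 2 = 0 → hi' 2 = 1 →
          (∀ k, 2 ≤ k → k < j → lo' k = hi' k → lo' (k + 1) = hi' (k + 1) → lo' (k + 1) = lo' k + 1) →
          ¬ pdL lo' hi' 2 → Comp j t lo' hi' e' ∧ Pre j lo' hi' := by
        intro lo' hi' e' C' g1 g2 g3 g4 g5 g6
        refine ⟨C', ?_⟩
        rcases (HL lo' hi' e' C').stair hj4 g1 g2 (by omega) g6 g5 with S | ⟨h4, h5⟩
        · exact Pre.stair (by omega) ⟨S.1, S.2⟩
        · exact Pre.six h4 h5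
      obtain ⟨lo', hi', e', C', g1, g2, g3, g4, g5, g6, g7⟩ := norm lo hi e C ha2 ha1
      by_cases hor : pdL lo' hi' 2
      · -- mirror
        have L := HL lo' hi' e' C'
        obtain ⟨lo2, hi2, e2, C2, m1, m2, m3⟩ := swp lo' hi' e' C' (by
          intro k hk
          obtain rfl | rfl : k = 0 ∨ k = 1 := by omega
          · rw [C'.lo_zero, C'.hi_zero]
          · rw [g1, g2]) (by rw [hA]; omega)
        obtain ⟨lo3, hi3, e3, C3, n1, n2, n3, n4, n5, n6, n7⟩ := norm lo2 hi2 e2 C2 m1 m2
        refine ⟨lo3, hi3, e3, big lo3 hi3 e3 C3 n1 n2 n3 n4 n5 ?_⟩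
        -- the pattern on the left would mean two patterns
        intro h4
        obtain ⟨a1, a2, -⟩ := hor
        obtain ⟨b1, b2, -⟩ := h4
        simp only [Nat.reduceAdd] at a1 a2 b1 b2
        have p2 := m3 2 (by omega)
        have p3 := m3 3 (by omega)
        have p4 := m3 4 (by omega)
        have q3 := n7 3 (by omega)
        have q4 := n7 4 (by omega)
        have r2 := n6 2 (by omega) (by omega)
        simp only [Nat.reduceAdd] at r2
        have u2 := C'.hi_le (k := 3) (by omega)
        have u3 := C'.hi_le (k := 4) (by omega)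
        have v1 := C'.hi_step 2 (by omega)
        have v2 := C'.hi_step 3 (by omega)
        simp only [Nat.reduceAdd] at v1 v2
        have w1 := C'.lo_le 3 (by omega)
        have w2 := C'.lo_le 4 (by omega)
        -- row 3 has one element or more
        have k2 : npd lo' hi' 2 = npu lo' hi' 2 := L.two 2 (by omega)
        have k5 := L.two_le 2 (by omega)
        have k6 : pdL lo' hi' 2 := ⟨a1, a2, by omega⟩
        have k7 : ¬ pdR lo' hi' 2 := by
          intro hh
          unfold npd at k5
          rw [if_pos k6, if_pos hh] at k5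
          omega
        have k8 : ¬ (hi' 3 = hi' 2 ∧ hi' 4 = hi' 3 + 1) := fun hh => k7 ⟨hh.1, hh.2, by omega⟩
        by_cases h33 : lo' 3 = hi' 3
        · -- then level 4 has one element, the word is `OO CC OC`, and nothing is wrong with the new one
          have r3 := n5 3 (by omega) (by omega) (by omega) (by
            have := C3.lo_le 4 (by omega)
            simp only [Nat.reduceAdd]
            omega)
          simp only [Nat.reduceAdd] at r3
          omega
        · have r3 := n6 3 (by omega) (by omega)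
          simp only [Nat.reduceAdd] at r3
          omega
      · exact ⟨lo', hi', e', big lo' hi' e' C' g1 g2 g3 g4 g5 hor⟩
  · -- late
    have fin : ∀ lo' hi' e', Comp j t lo' hi' e' → (∀ k, k < a → lo' k = hi' k) → lo' a ≠ hi' a →
        NF lo' hi' j → (word lo' hi' a (j - a)).head? ≠ some CO → Pre j lo' hi' := by
      intro lo' hi' e' C' g1 g2 g3 g4
      have g5 := start lo' hi' e' C' g1 g2 (fun k hk => g3 k (by omega) (g1 k (by omega)) (g1 (k + 1) hk))
      exact Pre.late a h3 haj g5.1 g5.2 g3 g4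
    obtain ⟨lo', hi', e', C', g1, g2, g3, g4, g5⟩ := ren (fun _ => 0) (fun _ => by omega) lo hi e C ha2 ha1
    have hN' : NF lo' hi' j := by
      intro k hk h4 h5
      have h6 := g5 k (by omega)
      have h7 := g5 (k + 1) (by omega)
      have := C.lo_le k (by omega)
      have := C.lo_le (k + 1) (by omega)
      rw [g3 k hk (by omega) (by omega), Nat.add_zero]
    by_cases hor : (word lo' hi' a (j - a)).head? = some CO
    · obtain ⟨lo2, hi2, e2, C2, m1, m2, m3⟩ := swp lo' hi' e' C' g1 g2
      obtain ⟨lo3, hi3, e3, C3, n1, n2, n3, n4, n5⟩ := ren (fun _ => 0) (fun _ => by omega) lo2 hi2 e2 C2 m1 m2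
      have hN3 : NF lo3 hi3 j := by
        intro k hk h4 h5
        have h6 := n5 k (by omega)
        have h7 := n5 (k + 1) (by omega)
        have := C2.lo_le k (by omega)
        have := C2.lo_le (k + 1) (by omega)
        rw [n3 k hk (by omega) (by omega), Nat.add_zero]
      refine ⟨lo3, hi3, e3, C3, fin lo3 hi3 e3 C3 n1 n2 hN3 ?_⟩
      have hja : 1 ≤ j - a := by
        rcases Nat.eq_zero_or_pos (j - a) with h4 | h4
        · rw [h4] at hor
          simp [word] at hor
        · exact h4
      obtain ⟨d, hd⟩ : ∃ d, j - a = d + 1 := ⟨j - a - 1, by omega⟩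
      have hw : ∀ lo hi : ℕ → ℕ, (word lo hi a (j - a)).head? =
          some (decide (lo (a + 1) ≠ lo a), decide (hi (a + 1) ≠ hi a)) := by
        intro lo hi
        rw [hd]
        unfold word
        rw [List.range_succ_eq_map]
        rfl
      rw [hw] at hor ⊢
      simp only [CO, ne_eq, Option.some.injEq, Prod.mk.injEq, decide_eq_true_eq] at hor ⊢
      obtain ⟨h4, h5⟩ := hor
      have q1 := C'.lo_step a (by omega)
      have q2 := C'.hi_step a (by omega)
      have q3 := C'.hi_le (k := a) haj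
      have q4 := C'.hi_le (k := a + 1) (by omega)
      have q5 := C'.lo_le a haj
      have q6 := C'.lo_le (a + 1) (by omega)
      have p1 := m3 a haj
      have p2 := m3 (a + 1) (by omega)
      have r1 := n4 a (by omega) (by omega)
      omega
    · exact ⟨lo', hi', e', C', fin lo' hi' e' C' g1 g2 hN' hor⟩

/-- S3 and S4: the shape of a component, from the laws -/
theorem exists_shape (C : Comp j t lo hi e) (HL : ∀ lo hi e, Comp j t lo hi e → Laws lo hi j) :
    ∃ lo hi e, Comp j t lo hi e ∧ Shape j lo hi := by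
  obtain ⟨lo', hi', e', C', h⟩ := exists_pre C (fun lo hi e C => (HL lo hi e C).toLaws3)
  exact ⟨lo', hi', e', C', h.shape (HL _ _ _ C')⟩

end Pool.Agent.GaussPoset.Wd
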