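import Pool.Agent.W_448wd_h84.WdR
import Pool.Agent.W_448cr_h63.CC

/-!
# MP_448cb3_co, (E,1)(a) for the quadric rows: component form
-/

namespace Pool.Agent.GaussPoset.Win

set_option linter.unusedSectionVars false

open Finset

universe u

variable {P : Type u} [Fintype P] [PartialOrder P] [DecidableEq P] {r j a E : ℕ}
variable {t : P} {lo hi : ℕ → ℕ} {x : ℕ → ℕ → P}

/-- the data of the chains of a component with quadric rows -/
lemma Comp.qd (C : Comp P t j lo hi x) (h : GoodTo P r j) (ht : lev t = 0)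
    (ha : ∀ k, k < a → lo k = hi k) (hb : hi a = lo a + 1)
    (hone : ∀ k, 1 ≤ k → k < E → lo (a + k) = hi (a + k)) (hE : 2 ≤ E) (hEa : E ≤ a + 1)
    (hj : a + E ≤ j) {S : Finset P} (hS : ∀ y, lev y ≤ a + E → (y ∈ S ↔ y ≤ t))
    (hP : Part a S) :
    Wd.Qd r a E S (fun k => x k (lo k)) (x a (lo a)) (x a (lo a + 1)) := by
  have hr := h.hr
  have hl : ∀ k, k < a + E → k ≠ a → lo k = hi k := by
    intro k h1 h2
    rcases Nat.lt_or_ge k a with h3 | h3
    · exact ha k h3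
    · have := hone (k - a) (by omega) (by omega)
      rwa [show a + (k - a) = k by omega] at this
  have m0 : ∀ k b, k ≤ a + E → lo k ≤ b → b ≤ hi k → x k b ∈ S ∧ lev (x k b) = k := by
    intro k b h1 h2 h3
    have h4 := C.lev_x k (by omega) b h2 h3
    exact ⟨(hS _ (by omega)).2 (C.le_t k (by omega) b h2 h3), h4⟩
  refine ⟨h.H, by omega, hP, ?_, hE, hEa, ?_, ?_, ?_, ?_, ?_, ?_, ?_, ?_, ?_⟩
  · intro y z hz hyz hl
    have h1 := lev_cov h.H hyz
    exact (hS y (by omega)).2 (hyz.le.trans ((hS z (by omega)).1 hz))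
  · exact C.inj a (by omega) _ _ le_rfl (by omega) (by omega)
  · intro z hz hzl
    obtain ⟨b, b1, b2, rfl⟩ := C.surj a (by omega) z hzl ((hS z (by omega)).1 hz)
    rcases Nat.lt_or_ge (lo a) b with h1 | h1
    · right
      congr 1
      omega
    · left
      congr 1
      omega
  · exact (m0 a (lo a) (by omega) le_rfl (by omega)).1
  · exact (m0 a (lo a + 1) (by omega) (by omega) (by omega)).1
  · exact (m0 a (lo a) (by omega) le_rfl (by omega)).2
  · exact (m0 a (lo a + 1) (by omega) (by omega) (by omega)).2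
  · intro k h1 h2
    exact (m0 k (lo k) (by omega) le_rfl (C.lohi k (by omega))).1
  · intro k h1 h2
    exact (m0 k (lo k) (by omega) le_rfl (C.lohi k (by omega))).2
  · intro z hz h1 h2
    obtain ⟨b, b1, b2, h3⟩ := C.surj (lev z) (by omega) z rfl ((hS z (by omega)).1 hz)
    have h4 := hl (lev z) h1 h2
    have h5 : b = lo (lev z) := by omega
    rw [h5] at h3
    exact h3

/-- (E,1)(a) FOR QUADRIC ROWS, `2 ≤ E ≤ a + 1` -/
theorem Comp.al_quad (C : Comp P t j lo hi x) (h : GoodTo P r j) (ht : lev t = 0)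
    (ha : ∀ k, k < a → lo k = hi k) (hb : hi a = lo a + 1)
    (hone : ∀ k, 1 ≤ k → k < E → lo (a + k) = hi (a + k)) (hE : 2 ≤ E) (hEa : E ≤ a + 1)
    (hj : a + E ≤ j) {S : Finset P} (hS : ∀ y, lev y ≤ a + E → (y ∈ S ↔ y ≤ t))
    (hP : Part a S) :
    I2.al E 2 (ZS a S) = ((hi (a + E) + 1 - lo (a + E) : ℕ) : ℤ) - (if E ≤ a then 1 else 0) := by
  classical
  have Q := C.qd h ht ha hb hone hE hEa hj hS hP
  unfold I2.al
  rw [coeff_ZS]
  unfold dd
  rw [show (2 : ℕ) = 1 + 1 from rfl, PowerSeries.coeff_succ_X_mul]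
  have h1 := Q.c1_ZC
  rw [h1]
  have hs : S.filter (fun z => lev z = a + E) =
      (Finset.Icc (lo (a + E)) (hi (a + E))).image (x (a + E)) := by
    ext v
    rw [mem_filter, mem_image]
    constructor
    · rintro ⟨h1, h2⟩
      obtain ⟨b, b1, b2, rfl⟩ := C.surj (a + E) hj v h2 ((hS v (by omega)).1 h1)
      exact ⟨b, Finset.mem_Icc.2 ⟨b1, b2⟩, rfl⟩
    · rintro ⟨b, hb, rfl⟩
      rw [Finset.mem_Icc] at hb
      have hl := C.lev_x (a + E) hj b hb.1 hb.2
      exact ⟨(hS _ (by omega)).2 (C.le_t (a + E) hj b hb.1 hb.2), hl⟩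
  rw [hs, Finset.card_image_of_injOn, Nat.card_Icc]
  intro b hb c hc hbc
  rw [Finset.mem_coe, Finset.mem_Icc] at hb hc
  exact C.inj' hj hb.1 hb.2 hc.1 hc.2 hbc

end Pool.Agent.GaussPoset.Win
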