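import Pool.Agent.W_448wd_h84.WdK
import Pool.Agent.W_448wd_h84.WdE
import Pool.Agent.W_448wd_h84.WdS

/-!
# MP_448cb3_co: the laws and the shapes of the components (S3, S4), from the values of the identities
-/

namespace Pool.Agent.GaussPoset.Wd

set_option linter.unusedSectionVars false

open Finset Win Win.I2

universe u

variable {P : Type u} [Fintype P] [PartialOrder P] [DecidableEq P] {r j i E : ℕ}

/-- the component `E7` down to level `J` -/
def E7c (J : ℕ) (lo hi : ℕ → ℕ) : Prop :=
  (∀ k, k < 4 → lo k = 0 ∧ hi k = 0) ∧ (lo 4 = 0 ∧ hi 4 = 1) ∧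
  (word lo hi 4 (J - 4) = E7.take (J - 4) ∨ (J = 12 ∧ word lo hi 4 8 = E7.take 7 ++ [OO]))

/-- INPUT: values for explicit words -/
structure EV (P : Type u) [Fintype P] [PartialOrder P] [DecidableEq P] (r : ℕ) : Prop where
  be_E7 : ∀ {j : ℕ} {t : Tops P} {lo hi : ℕ → ℕ} {e : ℕ → ℕ → P}, GoodTo P r j →
    Cp.Comp j (t : P) lo hi e → 12 ≤ j → j ≤ 16 → E7c j lo hi →
    ∀ m, 5 ≤ m → m ≤ 2 * (j - 8) → m ≤ 14 → be m 3 (ZS 8 (SS 8 t)) = 0
  al_E7 : ∀ {t : Tops P} {lo hi : ℕ → ℕ} {e : ℕ → ℕ → P}, GoodTo P r 16 →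
    Cp.Comp 16 (t : P) lo hi e → E7c 16 lo hi → I2.al 8 3 (ZS 8 (SS 8 t)) = 0
  al_bad : ∀ {j a : ℕ} {t : Tops P} {lo hi : ℕ → ℕ} {e : ℕ → ℕ → P}, GoodTo P r j →
    Cp.Comp j (t : P) lo hi e → 3 ≤ a → (∀ k, k < a → lo k = 0 ∧ hi k = 0) → lo a = 0 ∧ hi a = 1 →
    ∀ q ∈ badK a, a + q.2.length = j → word lo hi a q.2.length = q.2 →
    I2.al q.1 (st (j - q.1) (SS (j - q.1) t)).card (ZS (j - q.1) (SS (j - q.1) t)) ≠ 0

lemma be_of_mid {m b : ℕ} {V : PowerSeries A} (h : dd ^ b ∣ dd * PowerSeries.coeff m V) :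
    be m b V = 0 := by
  unfold be
  apply coeff_eq_zero_of_dvd
  rw [pow_succ', pow_two, mul_assoc]
  exact mul_dvd_mul_left _ h

lemma badK_len {a : ℕ} : ∀ q ∈ badK a, 4 ≤ q.1 ∧ q.1 ≤ q.2.length := by
  intro q hq
  unfold badK at hq
  simp only [List.mem_append] at hq
  have aux : ∀ (c : Prop) [Decidable c] (L : List (ℕ × List Ltr)),
      (∀ q ∈ L, 4 ≤ q.1 ∧ q.1 ≤ q.2.length) → q ∈ (if c then L else []) → 4 ≤ q.1 ∧ q.1 ≤ q.2.length := by
    intro c _ L hL h
    split_ifs at h with hc
    · exact hL q h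
    · simp at h
  rcases hq with ((((((h | h) | h) | h) | h) | h) | h) | h
  all_goals exact aux _ _ (by decide) h

/-- the top of level `J` has a representation with a known profile at the window `J - n`, `n ≥ 4` -/
lemma tri (I : SO P r) (V : EV P r) (h : GoodTo P r (j + 1)) {n : ℕ} (hn : 4 ≤ n) (hi1 : 1 ≤ i)
    (hin : i + n = j + 1)
    (hL : ∀ (t : Tops P) lo hi e, Cp.Comp j (t : P) lo hi e → Laws lo hi j)
    (hc : ∀ m, 4 ≤ m → m < n → Cln P (j + 1 - m) m) (t : Tops P) :
    ∃ lo hi e, Cp.Comp (j + 1) (t : P) lo hi e ∧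
      (Early (j + 1) lo hi ∨
      ((st i (SS i t)).card ≤ 1) ∨
      ((st i (SS i t)).card = 2 ∧ (j + 1 = 16 → i = 8 → 0 ≤ I2.al 8 2 (ZS 8 (SS 8 t)))) ∨
      (i = 8 ∧ (st i (SS i t)).card = 3 ∧ 12 ≤ j + 1 ∧ j + 1 ≤ 16 ∧ E7c (j + 1) lo hi)) := by
  have hr := h.hr
  obtain ⟨lo0, hi0, e0, C0⟩ := Cp.comp_exists h.H t.2 h.hr h.good
  obtain ⟨lo, hi, e, C, hpre⟩ := exists_pre C0 (fun lo hi e C => laws3 I h C)
  have L3 := laws3 I h C
  have L := hL t lo hi e (C.mono (by omega))
  have hcard := card_SS h (show i ≤ j + 1 by omega) C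
  refine ⟨lo, hi, e, C, ?_⟩
  rcases hpre with hl | ⟨-, hR⟩ | ⟨-, hR⟩ | ⟨h0, -, -⟩ | ⟨h0, hF⟩ | ⟨a, h0, h1, h2, h3, hN, h4⟩
  · have := hl i (by omega)
    right; left
    omega
  · exact Or.inl (Or.inl hR)
  · exact Or.inl (Or.inr (Or.inl hR))
  · omega
  · -- level 6
    right
    obtain ⟨⟨f0, f1, f2, f3, f4, f5, f6⟩, ⟨g0, g1, g2, g3, g4, g5, g6⟩⟩ := hF
    obtain rfl | rfl : i = 1 ∨ i = 2 := by omega
    · left; omega
    · right; left
      refine ⟨by omega, fun h5 => by omega⟩
  · -- late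
    have ha1 : ∀ k, k < a → lo k = hi k := fun k hk => by have := h2 k hk; omega
    have ha2 : lo a < hi a := by omega
    by_cases hb : lo i + 2 ≤ hi i
    · right; right; right
      have hbad : ∀ q ∈ badK a, q.1 < n → a + q.2.length = j + 1 → word lo hi a q.2.length ≠ q.2 := by
        intro q hq hqn hql hw
        refine V.al_bad h C h0 h2 h3 q hq hql hw ?_
        exact al_of_dvd (hc q.1 (badK_len q hq).1 hqn t)
      have L' : Laws lo hi (j + 1 - 1) := L
      obtain ⟨rfl, k2, k3, k4⟩ := late_b3 L3 L' hN h0 h1 ha1 ha2 h4 hn (by omega) hbad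
        (by rwa [show j + 1 - n = i by omega])
      obtain rfl : i = 8 := by omega
      refine ⟨rfl, ?_, by omega, by omega, h2, h3, k4⟩
      rw [hcard]
      have w1 := L3.Lw_word hN h0 ha1 ha2 (d := j + 1 - 4) (by omega) 7 (by omega)
      have w2 := L3.Hw_word hN h0 ha1 ha2 (d := j + 1 - 4) (by omega) 7 (by omega)
      simp only [Nat.reduceSub, Nat.reduceAdd] at w1 w2
      rw [← w1, ← w2]
      rcases k4 with k4 | ⟨k5, k4⟩
      · rw [k4]
        have : 8 ≤ j + 1 - 4 ∧ j + 1 - 4 ≤ 12 := by omega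
        generalize j + 1 - 4 = d at this ⊢
        obtain ⟨d1, d2⟩ := this
        interval_cases d <;> decide
      · rw [show j + 1 - 4 = 8 by omega, k4]
        decide
    · right
      rcases Nat.lt_or_ge (lo i) (hi i) with hb2 | hb2
      · right; left
        have hbe : hi i = lo i + 1 := by omega
        refine ⟨by omega, ?_⟩
        intro h16 h8
        subst h8
        obtain rfl : j = 15 := by omega
        obtain ⟨rfl, hone⟩ := late_16 L3 L hN h0 h1 ha1 ha2 h4 hbe
        have hv := C.toWin.al_quad h t.2 ha1 hbe hone (by omega) (by omega) (by omega)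
          (S := SS 8 t) (fun y hy => (SS_ext h (by omega) t).mem y (by omega))
          (SS_part h (by omega) (by omega) t)
        rw [hv, if_pos le_rfl]
        have hle := C.lo_le 16 le_rfl
        simp only [Nat.reduceAdd]
        have : 1 ≤ hi 16 + 1 - lo 16 := by omega
        have h5 : (1 : ℤ) ≤ ((hi 16 + 1 - lo 16 : ℕ) : ℤ) := by exact_mod_cast this
        linarith
      · left
        omega

/-- one stage of the induction -/
lemma stage_step (I : SO P r) (V : EV P r) (h : GoodTo P r (j + 1)) {n : ℕ} (hn : 4 ≤ n)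
    (hi1 : 1 ≤ i) (hin : i + n = j + 1)
    (hL : ∀ (t : Tops P) lo hi e, Cp.Comp j (t : P) lo hi e → Laws lo hi j)
    (hlow : ∀ m, 1 ≤ m → m < n → Cln P i m)
    (hc : ∀ m, 4 ≤ m → m < n → Cln P (j + 1 - m) m) : Cln P i n := by
  have hr := h.hr
  have hlo : ∀ t : Tops P, ∀ m, m < n → dd ^ (st i (SS i t)).card ∣ ZC i (SS i t) m := by
    intro t m hm
    rcases Nat.eq_zero_or_pos m with rfl | h0
    · rw [ZC_zero h.H (by omega)]
    · exact hlow m h0 hm t
  have hP : ∀ t : Tops P, Part i (SS i t) := fun t => SS_part h (by omega) (by omega) t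
  by_cases h88 : j + 1 = 16 ∧ i = 8
  · obtain ⟨h16, rfl⟩ := h88
    obtain rfl : n = 8 := by omega
    obtain rfl : j = 15 := by omega
    have hal : ∀ t : Tops P, 0 ≤ I2.al 8 (st 8 (SS 8 t)).card (ZS 8 (SS 8 t)) := by
      intro t
      obtain ⟨lo, hi, e, C, hh⟩ := tri I V h hn hi1 hin hL hc t
      rcases hh with hh | hh | ⟨hh, hh2⟩ | ⟨-, hh, -, -, hh2⟩
      · exact (ec_al (SS_ext h (by omega) t) h.H (by omega) h.good C hh (by omega) (by omega)).ge
      · exact (al_zero_one h.H (hP t) hh 8).ge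
      · rw [hh]
        exact hh2 rfl rfl
      · rw [hh]
        exact (V.al_E7 h C hh2).ge
    refine stage_first h (by omega) hin.le ?_ hal
    intro t
    obtain ⟨lo, hi, e, C, hh⟩ := tri I V h hn hi1 hin hL hc t
    rcases hh with hh | hh | ⟨hh, hh2⟩ | ⟨-, hh, -, -, hh2⟩
    · exact ec_prof (SS_ext h (by omega) t) h.H (by omega) h.good C hh (by omega) (by omega) (by omega)
    · exact prof_small h.H (hP t) (by omega) (hlo t) _
    · exact prof_small h.H (hP t) (by omega) (hlo t) _
    · refine prof_three h.H (hP t) hh (hlo t) ?_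
      intro m hm hm2
      obtain rfl : m = 8 := by omega
      rw [hh]
      exact V.be_E7 h C (by omega) (by omega) hh2 8 (by omega) (by omega) (by omega)
  · refine stage h (by omega) hin.le ?_ ?_
    · intro t
      obtain ⟨lo, hi, e, C, hh⟩ := tri I V h hn hi1 hin hL hc t
      rcases hh with hh | hh | ⟨hh, hh2⟩ | ⟨rfl, hh, h12, h16, hh2⟩
      · exact ec_prof (SS_ext h (by omega) t) h.H (by omega) h.good C hh (by omega) (by omega) (by omega)
      · exact prof_small h.H (hP t) (by omega) (hlo t) _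
      · exact prof_small h.H (hP t) (by omega) (hlo t) _
      · refine prof_three h.H (hP t) hh (hlo t) ?_
        intro m hm hm2
        rcases Nat.lt_or_ge m 5 with hm5 | hm5
        · have h1 := prof35 h.H (by omega) (show 8 + 2 ≤ j + 1 by omega)
            (fun m _ hm => h.good m (by omega)) (split_gt h) (mem_tops t)
          rw [bb_eq h (by omega), VV_eq h (by omega)] at h1
          exact be_of_mid (h1.mid m (by omega))
        · rw [hh]
          exact V.be_E7 h C h12 h16 hh2 m hm5 (by omega) (by omega)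
    · intro t
      obtain ⟨lo, hi, e, C, hh⟩ := tri I V h hn hi1 hin hL hc t
      rcases hh with hh | hh | ⟨hh, hh2⟩ | ⟨rfl, hh, h12, h16, hh2⟩
      · exact (ec_be (SS_ext h (by omega) t) h.H (by omega) h.good C hh (by omega) (by omega)).le
      · exact (be_zero_small h.H (hP t) (by omega) _).le
      · exact (be_zero_small h.H (hP t) (by omega) _).le
      · rw [hh]
        exact (V.be_E7 h C h12 h16 hh2 _ (by omega) (by omega) (by omega)).le

/-- THE MAIN INDUCTION: all individual identities `(E,1)(i)`, `i + E ≤ j`, and all the laws -/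
theorem main (I : SO P r) (V : EV P r) : ∀ {j : ℕ}, GoodTo P r j →
    (∀ i n, 1 ≤ i → 1 ≤ n → i + 2 ≤ j → i + n ≤ j → Cln P i n) ∧
    (∀ (t : Tops P) lo hi e, Cp.Comp j (t : P) lo hi e → Laws lo hi j) := by
  intro j
  induction j with
  | zero =>
    intro h
    refine ⟨fun i n _ _ h1 _ => by omega, fun t lo hi e C => ?_⟩
    exact ⟨laws3 I h C, fun a E _ _ h3 _ h5 _ => by omega, fun a w _ _ _ h3 h5 => by omega⟩
  | succ j ih =>
    intro h
    obtain ⟨ihA, ihL⟩ := ih (h.mono (Nat.le_succ j))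
    -- the last diagonal
    have diag : ∀ n, 4 ≤ n → n + 1 ≤ j + 1 → Cln P (j + 1 - n) n := by
      intro n
      induction n using Nat.strong_induction_on with
      | _ n ihn =>
        intro hn hnj
        refine stage_step I V h hn (by omega) (by omega) ihL (fun m hm1 hm2 => ?_)
          (fun m hm hm2 => ihn m hm2 hm (by omega))
        exact ihA _ m (by omega) hm1 (by omega) (by omega)
    have hA : ∀ i n, 1 ≤ i → 1 ≤ n → i + 2 ≤ j + 1 → i + n ≤ j + 1 → Cln P i n := by
      intro i n hi hn h2 h3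
      rcases Nat.lt_or_ge n 3 with h4 | h4
      · exact cln_two h h2 hn (by omega)
      rcases Nat.lt_or_ge n 4 with h5 | h5
      · obtain rfl : n = 3 := by omega
        exact cln_three I h hi h3
      rcases Nat.lt_or_ge (i + n) (j + 1) with h6 | h6
      · exact ihA i n hi hn (by omega) (by omega)
      · have := diag n h5 (by omega)
        rwa [show j + 1 - n = i by omega] at this
    refine ⟨hA, fun t lo hi e C => ?_⟩
    have L := ihL t lo hi e (C.mono (Nat.le_succ j))
    refine ⟨laws3 I h C, ?_, ?_⟩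
    · intro a E h1 h2 h3 h4 h5 h6
      rcases Nat.lt_or_ge (a + E) (j + 1) with h7 | h7
      · exact L.fq a E h1 h2 h3 h4 (by omega) h6
      rcases Nat.lt_or_ge (a + 1) E with h8 | h8
      · -- the same law one level earlier
        have := (L.fq a (a + 1) h1 h2 h3 (by omega) (by omega) (fun k hk hk' => h6 k hk (by omega))).1
        omega
      · have hba : hi a = lo a + 1 := by
          obtain ⟨b, rfl⟩ : ∃ b, a = b + 1 := ⟨a - 1, by omega⟩
          have e1 := h1 b (by omega)
          have e2 := C.lo_step b (by omega)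
          have e3 := C.hi_step b (by omega)
          omega
        have hr := h.hr
        have hv := C.toWin.al_quad h t.2 h1 hba h6 (by omega) h8 h5
          (S := SS a t) (fun y hy => (SS_ext h (by omega) t).mem y (by omega))
          (SS_part h (by omega) (by omega) t)
        have hc := card_SS h (show a ≤ j + 1 by omega) C
        have hz := al_of_dvd (hA a E (by omega) (by omega) (by omega) (by omega) t)
        rw [hc, show hi a + 1 - lo a = 2 by omega, hv] at hz
        have hle := C.lo_le (a + E) (by omega)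
        split_ifs at hz with h9
        · exact ⟨h9, by omega⟩
        · omega
    · intro a w hw h1 h2 h3 h4 h5
      rcases Nat.lt_or_ge (a + w.length) (j + 1) with h6 | h6
      · exact L.bad a w hw h1 h2 h3 (by omega) h5
      unfold badW at hw
      obtain ⟨q, hq, rfl⟩ := List.mem_map.1 hw
      have hq2 := badK_len q hq
      refine V.al_bad h C h3 h1 h2 q hq (by omega) h5 ?_
      exact al_of_dvd (hA _ q.1 (by omega) (by omega) (by omega) (by omega) t)

/-- THE SHAPES (S3, S4): every component natural down to level `j` has one of the shapes -/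
theorem shape_all (I : SO P r) (V : EV P r) (h : GoodTo P r j) (t : Tops P) :
    ∃ lo hi e, Cp.Comp j (t : P) lo hi e ∧ Shape j lo hi := by
  obtain ⟨lo, hi, e, C⟩ := Cp.comp_exists h.H t.2 h.hr h.good
  exact exists_shape C (fun lo hi e C => (main I V h).2 t lo hi e C)

/-- all individual identities -/
theorem cln_all (I : SO P r) (V : EV P r) (h : GoodTo P r j) {n : ℕ} (hi : 1 ≤ i) (hn : 1 ≤ n)
    (h2 : i + 2 ≤ j) (h3 : i + n ≤ j) : Cln P i n :=
  (main I V h).1 i n hi hn h2 h3

end Pool.Agent.GaussPoset.Wd
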