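import Pool.Agent.W_448e7_h24.EsB
import Pool.Agent.W_448ev_h61.EvL4
import Pool.Agent.W_448ev_h61.EvL5
import Pool.Agent.W_448ev_h61.EvL6
import Pool.Agent.W_448ev_h61.EvL7
import Pool.Agent.W_448ev_h61.EvL7e
import Pool.Agent.W_448ev_h61.EvL8
import Pool.Agent.W_448wd_h84.WdL

/-!
# MP_448cb3_co, G2: the input `EV` of the main induction, from the evaluator
-/

set_option autoImplicit false

namespace Pool.Agent.GaussPoset.Win.Ev

set_option linter.unusedSectionVars false

open Finset

section rows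

variable {lo hi : ℕ → ℕ} {j a : ℕ}

/-- the trunk check at a variable level -/
lemma rows_trunk' (hlo : ∀ k, k < j → lo (k + 1) = lo k ∨ lo (k + 1) = lo k + 1)
    (hhi : ∀ k, k < j → hi (k + 1) = hi k ∨ hi (k + 1) = hi k + 1)
    {w : List Wd.Ltr} (hd : a + w.length ≤ j) (hw : Wd.word lo hi a w.length = w)
    (h0 : ∀ k, k < a → lo k = 0 ∧ hi k = 0) (h1 : lo a = 0) (h2 : hi a = 1) {base s0 R : ℕ}
    (ha : a = base + s0) {los his : List ℕ} (hchk : chkT w s0 0 R los his = true) :
    Rows lo hi base 0 R los his := by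
  subst ha
  have hw' : Wd.word (fun k => lo (base + k)) (fun k => hi (base + k)) s0 w.length = w := by
    rw [← hw]
    unfold Wd.word
    rw [List.length_map, List.length_range]
    refine List.map_congr_left fun n _ => ?_
    simp only [show base + (s0 + n + 1) = base + s0 + n + 1 by omega,
      show base + (s0 + n) = base + s0 + n by omega]
  have key := rows_trunk (lo := fun k => lo (base + k)) (hi := fun k => hi (base + k))
    (j := j - base) (a := s0) (w := w) (fun k hk => hlo (base + k) (by omega))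
    (fun k hk => hhi (base + k) (by omega)) (by omega) hw' (fun k hk => h0 (base + k) (by omega))
    h1 h2 hchk
  constructor
  · intro k hk
    have := key.lo_eq k hk
    simpa only [Nat.zero_add] using this
  · intro k hk
    have := key.hi_eq k hk
    simpa only [Nat.zero_add] using this

end rows

universe u

variable {P : Type u} [Fintype P] [PartialOrder P] [DecidableEq P] {r i j : ℕ}
variable {C : Finset P} {t : P} {lo hi : ℕ → ℕ} {x : ℕ → ℕ → P} {base c0 R s : ℕ} {los his : List ℕ}

/-- local data from the word, with trunk, variable level -/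
lemma loc_trunk' (h : GoodTo P r j) (ht : lev t = 0) (hc : Comp P t j lo hi x) (hp : Part i C)
    (hmem : ∀ z, lev z ≤ j → (z ∈ C ↔ z ≤ t)) {a : ℕ} {w : List Wd.Ltr} (hd : a + w.length ≤ j)
    (hw : Wd.word lo hi a w.length = w) (h0 : ∀ k, k < a → lo k = 0 ∧ hi k = 0) (h1 : lo a = 0)
    (h2 : hi a = 1) {s0 : ℕ} (ha : a = base + s0) (hi' : i = base + s) (hs : s < R)
    (hchk : chkT w s0 0 R los his = true) :
    Loc P r j t lo hi x C i base 0 R s los his := by
  have hR : 0 + R ≤ s0 + w.length + 1 := by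
    unfold chkT at hchk
    rw [Bool.and_eq_true, decide_eq_true_eq] at hchk
    exact hchk.1
  exact ⟨h, ht, hc, hp, fun z hz => hmem z (by omega),
    rows_trunk' (Comp.lo_step' hc) (Comp.hi_step' hc) hd hw h0 h1 h2 ha hchk, hi', hs, by omega⟩

/-- first order coefficient, with trunk -/
theorem al_trunk (h : GoodTo P r j) (ht : lev t = 0) (hc : Comp P t j lo hi x) (hp : Part i C)
    (hmem : ∀ z, lev z ≤ j → (z ∈ C ↔ z ≤ t)) {a : ℕ} {w : List Wd.Ltr} (hd : a + w.length ≤ j)
    (hw : Wd.word lo hi a w.length = w) (h0 : ∀ k, k < a → lo k = 0 ∧ hi k = 0) (h1 : lo a = 0)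
    (h2 : hi a = 1) {s0 m E : ℕ} {v : ℤ} (ha : a = base + s0)
    (hchk : chkT w s0 0 R los his = true) (hg : goodE los his R s m E v = true)
    (hi' : i = base + s) (hm1 : 1 ≤ m) (hm : m ≤ 2)
    (hE : E < 32) (htop : base = 0 ∨ E ≤ s) (hbot : s + E < R)
    (hb : his.getD s 0 = los.getD s 0 + m) :
    I2.al E (st i C).card (ZS i C) = v := by
  have Lc := loc_trunk' (s := s) h ht hc hp hmem hd hw h0 h1 h2 ha hi' (by omega) hchk
  exact al_goodE Lc hg hm1 hm hE htop hbot (by rw [Lc.card_st]; omega)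

end Pool.Agent.GaussPoset.Win.Ev

namespace Pool.Agent.GaussPoset.Wd

set_option linter.unusedSectionVars false

open Finset Win Win.I2 Win.Ev

universe u

variable {P : Type u} [Fintype P] [PartialOrder P] [DecidableEq P] {r j i E : ℕ}

lemma mem_ite_list {α : Type*} {c : Prop} [Decidable c] {L : List α} {q : α}
    (h : q ∈ (if c then L else [])) : c ∧ q ∈ L := by
  split_ifs at h with hc
  · exact ⟨hc, h⟩
  · simp at h

/-- the sixteen words -/
theorem ev_bad {j a : ℕ} {t : Tops P} {lo hi : ℕ → ℕ} {e : ℕ → ℕ → P} (h : GoodTo P r j)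
    (C : Cp.Comp j (t : P) lo hi e) (h3 : 3 ≤ a) (h0 : ∀ k, k < a → lo k = 0 ∧ hi k = 0)
    (h1 : lo a = 0 ∧ hi a = 1) :
    ∀ q ∈ badK a, a + q.2.length = j → word lo hi a q.2.length = q.2 →
    I2.al q.1 (st (j - q.1) (SS (j - q.1) t)).card (ZS (j - q.1) (SS (j - q.1) t)) ≠ 0 := by
  intro q hq hl hw
  have hr := h.hr
  obtain ⟨h11, h12⟩ := h1
  have hlen := badK_len q hq
  have hi1 : 1 ≤ j - q.1 := by omega
  have hij : j - q.1 ≤ j := by omega
  have hmem : ∀ z, lev z ≤ j → (z ∈ SS (j - q.1) t ↔ z ≤ (t : P)) :=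
    fun z hz => (SS_ext h hij t).mem z hz
  have hp : Part (j - q.1) (SS (j - q.1) t) := SS_part h hij hij t
  have T := fun {w : List Ltr} {s0 base R s m E v} {los his : List ℕ} (hd : a + w.length ≤ j) hw ha hchk hg hi' hm1 hm hE htop hbot hb =>
    al_trunk (i := j - q.1) (R := R) (s := s) (los := los) (his := his) (base := base)
      (a := a) (w := w) (s0 := s0) (m := m) (E := E) (v := v) h t.2 C.toWin hp hmem hd hw h0 h11
      h12 ha hchk hg hi' hm1 hm hE htop hbot hb
  have B := fun {w : List Ltr} {f c R s m E v} {los his : List ℕ} (hd : a + w.length ≤ j) hw hchk hg hi' hm1 hm hE htop hbot hb =>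
    al_bad (i := j - q.1) (R := R) (s := s) (los := los) (his := his) (e := f) (c := c)
      (a := a) (w := w) (m := m) (E := E) (v := v) h t.2 C.toWin hp hmem hd hw
      (fun k hk => by rw [(h0 k hk).1, (h0 k hk).2]) (by omega)
      hchk hg hi' hm1 hm hE htop hbot hb
  unfold badK at hq
  simp only [List.mem_append] at hq
  rcases hq with ((((((hq | hq) | hq) | hq) | hq) | hq) | hq) | hq
  · obtain ⟨rfl, hq'⟩ := mem_ite_list hq
    simp only [List.mem_cons, List.not_mem_nil, or_false] at hq'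
    rcases hq' with rfl | rfl | rfl | rfl
    · rw [T (s0 := 3) (base := 0) hl.le hw rfl (by decide) e4_OC_OO_CO_OO (by simp only [List.length_cons, List.length_nil] at hl ⊢; omega) (by omega) (by omega)
        (by omega) (by omega) (by omega) rfl]
      omega
    · rw [T (s0 := 3) (base := 0) hl.le hw rfl (by decide) e4_OC_CO_CO_OO (by simp only [List.length_cons, List.length_nil] at hl ⊢; omega) (by omega) (by omega)
        (by omega) (by omega) (by omega) rfl]
      omega
    · rw [B (f := 0) (c := 0) hl.le hw (by decide) bad7_OC_CO_CO_OC_CC_OC_OC_OC (by simp only [List.length_cons, List.length_nil] at hl ⊢; omega) (by omega) (by omega)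
        (by omega) (by omega) (by omega) rfl]
      omega
    · rw [B (f := 0) (c := 0) hl.le hw (by decide) bad7_OC_CO_CO_OC_CC_OC_OC_OO (by simp only [List.length_cons, List.length_nil] at hl ⊢; omega) (by omega) (by omega)
        (by omega) (by omega) (by omega) rfl]
      omega
  · obtain ⟨ha, hq'⟩ := mem_ite_list hq
    simp only [List.mem_cons, List.not_mem_nil, or_false] at hq'
    rcases hq' with rfl | rfl
    · rw [T (s0 := 4) (base := a - 4) hl.le hw (by simp only [List.length_cons, List.length_nil] at hl ⊢; omega) (by decide) e4_OC_OO_CO_OC (by simp only [List.length_cons, List.length_nil] at hl ⊢; omega) (by omega) (by omega)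
        (by omega) (by omega) (by omega) rfl]
      omega
    · rw [T (s0 := 4) (base := a - 4) hl.le hw (by simp only [List.length_cons, List.length_nil] at hl ⊢; omega) (by decide) e4_OC_CO_CO_OC (by simp only [List.length_cons, List.length_nil] at hl ⊢; omega) (by omega) (by omega)
        (by omega) (by omega) (by omega) rfl]
      omega
  · obtain ⟨rfl, hq'⟩ := mem_ite_list hq
    simp only [List.mem_cons, List.not_mem_nil, or_false] at hq'
    rcases hq' with rfl | rfl | rfl | rfl | rfl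
    · rw [T (s0 := 4) (base := 0) hl.le hw rfl (by decide) e5_OC_CO_CO_OO_CO (by simp only [List.length_cons, List.length_nil] at hl ⊢; omega) (by omega) (by omega)
        (by omega) (by omega) (by omega) rfl]
      omega
    · rw [B (f := 0) (c := 0) hl.le hw (by decide) bad7_OC_CO_CO_OO_CC_OC_OC_OO (by simp only [List.length_cons, List.length_nil] at hl ⊢; omega) (by omega) (by omega)
        (by omega) (by omega) (by omega) rfl]
      omega
    · rw [B (f := 4) (c := 2) hl.le hw (by decide) bad11_OC_CO_CO_OO_CC_OC_OC_CO_CC_OC_OC_OO (by simp only [List.length_cons, List.length_nil] at hl ⊢; omega) (by omega) (by omega)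
        (by omega) (by omega) (by omega) rfl]
      omega
    · rw [B (f := 3) (c := 2) hl.le hw (by decide) bad11_OC_CO_CO_OO_CC_OC_OC_CO_CC_OC_OC_OC_OC (by simp only [List.length_cons, List.length_nil] at hl ⊢; omega) (by omega) (by omega)
        (by omega) (by omega) (by omega) rfl]
      omega
    · rw [B (f := 3) (c := 2) hl.le hw (by decide) bad11_OC_CO_CO_OO_CC_OC_OC_CO_CC_OC_OC_OC_OO (by simp only [List.length_cons, List.length_nil] at hl ⊢; omega) (by omega) (by omega)
        (by omega) (by omega) (by omega) rfl]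
      omega
  · obtain ⟨ha, hq'⟩ := mem_ite_list hq
    simp only [List.mem_cons, List.not_mem_nil, or_false] at hq'
    subst hq'
    rw [T (s0 := 5) (base := a - 5) hl.le hw (by simp only [List.length_cons, List.length_nil] at hl ⊢; omega) (by decide) e5_OC_CO_CO_OO_CC (by simp only [List.length_cons, List.length_nil] at hl ⊢; omega) (by omega) (by omega)
      (by omega) (by omega) (by omega) rfl]
    omega
  · obtain ⟨rfl, hq'⟩ := mem_ite_list hq
    simp only [List.mem_cons, List.not_mem_nil, or_false] at hq'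
    subst hq'
    rw [T (s0 := 5) (base := 0) hl.le hw rfl (by decide) e6_OC_CO_CO_OO_CO_OO (by simp only [List.length_cons, List.length_nil] at hl ⊢; omega) (by omega) (by omega)
      (by omega) (by omega) (by omega) rfl]
    omega
  · obtain ⟨ha, hq'⟩ := mem_ite_list hq
    simp only [List.mem_cons, List.not_mem_nil, or_false] at hq'
    subst hq'
    rw [T (s0 := 6) (base := a - 6) hl.le hw (by simp only [List.length_cons, List.length_nil] at hl ⊢; omega) (by decide) e6_OC_CO_CO_OO_CO_OC (by simp only [List.length_cons, List.length_nil] at hl ⊢; omega) (by omega) (by omega)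
      (by omega) (by omega) (by omega) rfl]
    omega
  · obtain ⟨rfl, hq'⟩ := mem_ite_list hq
    simp only [List.mem_cons, List.not_mem_nil, or_false] at hq'
    subst hq'
    rw [T (s0 := 6) (base := 0) hl.le hw rfl (by decide) e7_OC_CO_CO_OO_CO_OO_OO (by simp only [List.length_cons, List.length_nil] at hl ⊢; omega) (by omega) (by omega)
      (by omega) (by omega) (by omega) rfl]
    omega
  · obtain ⟨ha, hq'⟩ := mem_ite_list hq
    simp only [List.mem_cons, List.not_mem_nil, or_false] at hq'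
    subst hq'
    rw [T (s0 := 7) (base := a - 7) hl.le hw (by simp only [List.length_cons, List.length_nil] at hl ⊢; omega) (by decide) e7_OC_CO_CO_OO_CO_OO_OC (by simp only [List.length_cons, List.length_nil] at hl ⊢; omega) (by omega) (by omega)
      (by omega) (by omega) (by omega) rfl]
    omega

/-- prefixes of the word of `E7` -/
lemma E7c.take {J : ℕ} {lo hi : ℕ → ℕ} (h : E7c J lo hi) {d : ℕ} (hd : d ≤ J - 4)
    (h12 : 12 < J ∨ d ≤ 7) (hJ : 12 ≤ J) : word lo hi 4 d = E7.take d := by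
  obtain ⟨-, -, h3 | ⟨h4, h5⟩⟩ := h
  · rw [← word_take (d := J - 4) hd, h3, List.take_take, min_eq_left hd]
  · subst h4
    have : d ≤ 7 := by omega
    rw [← word_take (d := 8) (by omega), h5]
    interval_cases d <;> rfl

section E7

variable (h : GoodTo P r j) {t : Tops P} {lo hi : ℕ → ℕ} {e : ℕ → ℕ → P}
  (C : Cp.Comp j (t : P) lo hi e) (h12 : 12 ≤ j) (hE : E7c j lo hi)
include h C h12 hE

/-- local data of `E7` at the window `8`, from a word of length `d` -/
lemma E7c.loc {w : List Ltr} (hd : 4 + w.length ≤ j) (hw : word lo hi 4 w.length = w) {R : ℕ}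
    {los his : List ℕ} (hs : 8 < R) (hchk : chkT w 4 0 R los his = true) :
    Loc P r j (t : P) lo hi (fun k s => e k s) (SS 8 t) 8 0 0 R 8 los his := by
  obtain ⟨g0, ⟨g1, g2⟩, -⟩ := hE
  exact loc_trunk (x := fun k s => e k s) h t.2 C.toWin (SS_part h (by omega) (by omega) t)
    (fun z hz => (SS_ext h (by omega) t).mem z hz) hd hw g0 g1 g2 rfl hs hchk

/-- energies `5`, `6` -/
lemma E7c.be56 : be 5 3 (ZS 8 (SS 8 t)) = 0 ∧ be 6 3 (ZS 8 (SS 8 t)) = 0 := by
  obtain ⟨g0, ⟨g1, g2⟩, -⟩ := id hE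
  have hw := hE.take (d := 7) (by omega) (by omega) h12
  have L := loc_trunk (base := 2) (s := 6) (R := 10) (los := [0, 0, 0, 0, 1, 2, 2, 3, 3, 3])
    (his := [0, 0, 1, 1, 2, 3, 4, 4, 4, 4]) (w := E7.take 7) h t.2 C.toWin
    (SS_part h (i := 8) (k := 8) (by omega) (by omega) t)
    (fun z hz => (SS_ext h (by omega) t).mem z hz) (by show 4 + 7 ≤ j; omega) hw g0 g1 g2 rfl (by omega)
    (by decide)
  exact L.be_good3 g_l_OC_CO_CO_OO_CC_OC_OC (Or.inr (by omega))

/-- energies `7`, `8` -/
lemma E7c.be78 : be 7 3 (ZS 8 (SS 8 t)) = 0 ∧ be 8 3 (ZS 8 (SS 8 t)) = 0 := by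
  by_cases hc : j = 12 ∧ word lo hi 4 8 = E7.take 7 ++ [OO]
  · have L := E7c.loc (w := E7.take 7 ++ [OO]) h C h12 hE (by show 4 + 8 ≤ j; omega) hc.2 (R := 13)
      (los := [0, 0, 0, 0, 0, 0, 1, 2, 2, 3, 3, 3, 3])
      (his := [0, 0, 0, 0, 1, 1, 2, 3, 4, 4, 4, 4, 5]) (by omega) (by decide)
    have B := L.be_goodB E7_4b (by omega) (by omega) (by omega) (Or.inl rfl)
    exact B
  · have hw : word lo hi 4 8 = E7.take 8 := by
      obtain ⟨-, -, h3 | h4⟩ := hE
      · rw [← word_take (d := j - 4) (by omega), h3, List.take_take, min_eq_left (by omega)]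
      · exact absurd h4 hc
    have L := E7c.loc (w := E7.take 8) h C h12 hE (by show 4 + 8 ≤ j; omega) hw (R := 13)
      (los := [0, 0, 0, 0, 0, 0, 1, 2, 2, 3, 3, 3, 4])
      (his := [0, 0, 0, 0, 1, 1, 2, 3, 4, 4, 4, 4, 5]) (by omega) (by decide)
    have B := L.be_goodB E7_4 (by omega) (by omega) (by omega) (Or.inl rfl)
    exact B

/-- energies `9`, `10` -/
lemma E7c.be910 (hj : 13 ≤ j) : be 9 3 (ZS 8 (SS 8 t)) = 0 ∧ be 10 3 (ZS 8 (SS 8 t)) = 0 := by
  have L := E7c.loc (w := E7.take 9) h C h12 hE (by show 4 + 9 ≤ j; omega) (hE.take (d := 9) (by omega) (by omega) h12) (R := 14)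
    (los := [0, 0, 0, 0, 0, 0, 1, 2, 2, 3, 3, 3, 4, 5])
    (his := [0, 0, 0, 0, 1, 1, 2, 3, 4, 4, 4, 4, 5, 5]) (by omega) (by decide)
  have B := L.be_goodB E7_5 (by omega) (by omega) (by omega) (Or.inl rfl)
  exact B

/-- energies `11`, `12` -/
lemma E7c.be1112 (hj : 14 ≤ j) : be 11 3 (ZS 8 (SS 8 t)) = 0 ∧ be 12 3 (ZS 8 (SS 8 t)) = 0 := by
  have L := E7c.loc (w := E7.take 10) h C h12 hE (by show 4 + 10 ≤ j; omega) (hE.take (d := 10) (by omega) (by omega) h12) (R := 15)
    (los := [0, 0, 0, 0, 0, 0, 1, 2, 2, 3, 3, 3, 4, 5, 5])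
    (his := [0, 0, 0, 0, 1, 1, 2, 3, 4, 4, 4, 4, 5, 5, 5]) (by omega) (by decide)
  have B := L.be_goodB E7_6 (by omega) (by omega) (by omega) (Or.inl rfl)
  exact B

/-- energies `13`, `14` -/
lemma E7c.be1314 (hj : 15 ≤ j) : be 13 3 (ZS 8 (SS 8 t)) = 0 ∧ be 14 3 (ZS 8 (SS 8 t)) = 0 := by
  have L := E7c.loc (w := E7.take 11) h C h12 hE (by show 4 + 11 ≤ j; omega)
    (hE.take (d := 11) (by omega) (by omega) h12) (R := 16)
    (los := [0, 0, 0, 0, 0, 0, 1, 2, 2, 3, 3, 3, 4, 5, 5, 5])
    (his := [0, 0, 0, 0, 1, 1, 2, 3, 4, 4, 4, 4, 5, 5, 5, 5]) (by omega) (by decide)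
  have X13 := Ev.okXs_mono (N' := 13) E7_7_X (by omega)
  have e1 := L.be_all (b := 3) (n := 13) E7_7_ok.1 E7_7_ok.2 (by omega) (by omega) (by omega)
    (by omega) (by omega) (Or.inl rfl) X13
  have e2 := L.be_all (b := 3) (n := 14) E7_7_ok.1 E7_7_ok.2 (by omega) (by omega) (by omega)
    (by omega) (by omega) (Or.inl rfl) E7_7_X
  exact ⟨e1.trans E7_7_13, e2.trans E7_7_14⟩

/-- all second order coefficients of `E7` at the window `8` -/
theorem ev_E7 (m : ℕ) (hm : 5 ≤ m) (hm2 : m ≤ 2 * (j - 8)) (hm3 : m ≤ 14) :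
    be m 3 (ZS 8 (SS 8 t)) = 0 := by
  rcases Nat.lt_or_ge m 7 with h7 | h7
  · have := E7c.be56 h C h12 hE
    obtain rfl | rfl : m = 5 ∨ m = 6 := by omega
    exacts [this.1, this.2]
  rcases Nat.lt_or_ge m 9 with h9 | h9
  · have := E7c.be78 h C h12 hE
    obtain rfl | rfl : m = 7 ∨ m = 8 := by omega
    exacts [this.1, this.2]
  rcases Nat.lt_or_ge m 11 with h11 | h11
  · have := E7c.be910 h C h12 hE (by omega)
    obtain rfl | rfl : m = 9 ∨ m = 10 := by omega
    exacts [this.1, this.2]
  rcases Nat.lt_or_ge m 13 with h13 | h13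
  · have := E7c.be1112 h C h12 hE (by omega)
    obtain rfl | rfl : m = 11 ∨ m = 12 := by omega
    exacts [this.1, this.2]
  · have := E7c.be1314 h C h12 hE (by omega)
    obtain rfl | rfl : m = 13 ∨ m = 14 := by omega
    exacts [this.1, this.2]

/-- the first order coefficient of `E7` at the window `8`, energy `8` -/
theorem ev_al_E7 (hj : j = 16) : I2.al 8 3 (ZS 8 (SS 8 t)) = 0 := by
  subst hj
  have L := E7c.loc (w := E7.take 12) h C h12 hE (by show 4 + 12 ≤ 16; omega)
    (hE.take (d := 12) (by omega) (by omega) h12) (R := 17)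
    (los := [0, 0, 0, 0, 0, 0, 1, 2, 2, 3, 3, 3, 4, 5, 5, 5, 5])
    (his := [0, 0, 0, 0, 1, 1, 2, 3, 4, 4, 4, 4, 5, 5, 5, 5, 5]) (by omega) (by decide)
  exact al_goodE L E7_al8 (by omega) (by omega) (by omega) (Or.inl rfl) (by omega) rfl

end E7

/-- THE INPUT `EV` -/
theorem EV_holds : EV P r where
  be_E7 := fun h C h12 _ hE => ev_E7 h C h12 hE
  al_E7 := fun h C hE => ev_al_E7 h C (by omega) hE rfl
  al_bad := fun h C h3 h0 h1 => ev_bad h C h3 h0 h1

end Pool.Agent.GaussPoset.Wd
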