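import Mathlib

/-!
# MP_448cb3_co, letters of a component: the laws and the words (rows 466 and 470)

A component (strip) is given by `lo, hi : ℕ → ℕ` (the row of level `k` is `lo k, …, hi k`).  Letters of the step
`k → k + 1`: left C iff `lo (k+1) = lo k + 1`, right O iff `hi (k+1) = hi k + 1`.  This file has no poset in it.
-/

namespace Pool.Agent.GaussPoset.Wd

/-- left pendant pattern below the window: letters C, O (= `Win.pdL`) -/
def pdL (lo hi : ℕ → ℕ) (i : ℕ) : Prop :=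
  lo (i + 1) = lo i + 1 ∧ lo (i + 2) = lo (i + 1) ∧ lo i < hi i

/-- right pendant pattern below the window (= `Win.pdR`) -/
def pdR (lo hi : ℕ → ℕ) (i : ℕ) : Prop :=
  hi (i + 1) = hi i ∧ hi (i + 2) = hi (i + 1) + 1 ∧ lo i < hi i

/-- left pendant pattern above the window (= `Win.puL`) -/
def puL (lo hi : ℕ → ℕ) (i : ℕ) : Prop :=
  2 ≤ i ∧ lo (i - 1) = lo (i - 2) + 1 ∧ lo i = lo (i - 1) ∧ lo i < hi i

/-- right pendant pattern above the window (= `Win.puR`) -/
def puR (lo hi : ℕ → ℕ) (i : ℕ) : Prop :=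
  2 ≤ i ∧ hi (i - 1) = hi (i - 2) ∧ hi i = hi (i - 1) + 1 ∧ lo i < hi i

instance (lo hi : ℕ → ℕ) (i : ℕ) : Decidable (pdL lo hi i) := by unfold pdL; infer_instance
instance (lo hi : ℕ → ℕ) (i : ℕ) : Decidable (pdR lo hi i) := by unfold pdR; infer_instance
instance (lo hi : ℕ → ℕ) (i : ℕ) : Decidable (puL lo hi i) := by unfold puL; infer_instance
instance (lo hi : ℕ → ℕ) (i : ℕ) : Decidable (puR lo hi i) := by unfold puR; infer_instance

/-- number of the pendant patterns below (CO) -/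
def npd (lo hi : ℕ → ℕ) (i : ℕ) : ℕ := (if pdL lo hi i then 1 else 0) + (if pdR lo hi i then 1 else 0)

/-- number of the pendant patterns above (OC read upwards) -/
def npu (lo hi : ℕ → ℕ) (i : ℕ) : ℕ := (if puL lo hi i then 1 else 0) + (if puR lo hi i then 1 else 0)

/-- number of patterns COO below the window (= `Win.flw`) -/
def flw (lo hi : ℕ → ℕ) (i : ℕ) : ℕ :=
  (if lo (i + 3) = lo (i + 2) ∧ (pdL lo hi i ∨ (pdR lo hi i ∧ lo (i + 2) = hi (i + 2)))
    then 1 else 0) +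
  (if hi (i + 3) = hi (i + 2) + 1 ∧ (pdR lo hi i ∨ (pdL lo hi i ∧ lo (i + 2) = hi (i + 2)))
    then 1 else 0)

/-- number of patterns OCC above the window (= `Win.fuw`) -/
def fuw (lo hi : ℕ → ℕ) (i : ℕ) : ℕ :=
  (if 3 ≤ i ∧ lo (i - 2) = lo (i - 3) + 1 ∧ (puL lo hi i ∨ (puR lo hi i ∧ lo (i - 2) = hi (i - 2)))
    then 1 else 0) +
  (if 3 ≤ i ∧ hi (i - 2) = hi (i - 3) ∧ (puR lo hi i ∨ (puL lo hi i ∧ lo (i - 2) = hi (i - 2)))
    then 1 else 0)

/-- the exceptional position of the two pendant patterns (= `Win.Flip`) -/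
def Flip (lo hi : ℕ → ℕ) (i : ℕ) : Prop :=
  hi i = lo i + 2 ∧ ((puL lo hi i ∧ pdR lo hi i) ∨ (puR lo hi i ∧ pdL lo hi i))

instance (lo hi : ℕ → ℕ) (i : ℕ) : Decidable (Flip lo hi i) := by unfold Flip; infer_instance

/-- the pattern C, C, O below the window on one side -/
def cco (lo hi : ℕ → ℕ) (i : ℕ) : Prop :=
  (lo (i + 1) = lo i + 1 ∧ lo (i + 2) = lo (i + 1) + 1 ∧ lo (i + 3) = lo (i + 2)) ∨
  (hi (i + 1) = hi i ∧ hi (i + 2) = hi (i + 1) ∧ hi (i + 3) = hi (i + 2) + 1)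

instance (lo hi : ℕ → ℕ) (i : ℕ) : Decidable (cco lo hi i) := by unfold cco; infer_instance

/-- left chain of length `E` below the window `a`: letters C, O, …, O (at a one-element row nothing is asked) -/
def chL (lo hi : ℕ → ℕ) (a E : ℕ) : Prop :=
  lo (a + 1) = lo a + 1 ∧ ∀ k, k < E → 1 ≤ k → lo (a + k + 1) = lo (a + k) ∨ lo (a + k) = hi (a + k)

/-- right chain of length `E` below the window `a` -/
def chR (lo hi : ℕ → ℕ) (a E : ℕ) : Prop :=
  hi (a + 1) = hi a ∧ ∀ k, k < E → 1 ≤ k → hi (a + k + 1) = hi (a + k) + 1 ∨ lo (a + k) = hi (a + k)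

instance (lo hi : ℕ → ℕ) (a E : ℕ) : Decidable (chL lo hi a E) := by unfold chL; infer_instance
instance (lo hi : ℕ → ℕ) (a E : ℕ) : Decidable (chR lo hi a E) := by unfold chR; infer_instance

/-- number of the elements `y` of level `a + E` such that the up-set of `y` has exactly one element on every level
`a + 1, …, a + E` and the one on level `a + 1` is below both elements of the row `a` (which has two elements) -/
def loE (lo hi : ℕ → ℕ) (a E : ℕ) : ℕ :=
  if chL lo hi a E ∧ chR lo hi a E then (if lo (a + E) = hi (a + E) then 1 else 2)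
  else if chL lo hi a E ∨ chR lo hi a E then 1 else 0

/-- letters of a step: (left C, right O) -/
abbrev Ltr := Bool × Bool

def OO : Ltr := (false, true)
def CO : Ltr := (true, true)
def OC : Ltr := (false, false)
def CC : Ltr := (true, false)

/-- the letters of the steps `a → a + 1`, …, `a + d - 1 → a + d` -/
def word (lo hi : ℕ → ℕ) (a d : ℕ) : List Ltr :=
  (List.range d).map fun n => (decide (lo (a + n + 1) ≠ lo (a + n)), decide (hi (a + n + 1) ≠ hi (a + n)))

/-- explicit words which are excluded by one identity each; `(E, w)`: the identity is (E,1) at the window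
`a + w.length - E`.  (E,1)(a) for the words which are not excluded by another law; `E6` stops at level `10`
((4,1)(7)), `E7` has no `OO` at level `12` ((4,1)(8)) and at level `16` ((4,1)(12)) and stops at level `16`
((5,1)(12)) -/
def badK (a : ℕ) : List (ℕ × List Ltr) :=
  (if a = 3 then [(4, [OC, OO, CO, OO]), (4, [OC, CO, CO, OO]),
    (4, [OC, CO, CO, OC, CC, OC, OC, OC]), (4, [OC, CO, CO, OC, CC, OC, OC, OO])] else []) ++
  (if 4 ≤ a then [(4, [OC, OO, CO, OC]), (4, [OC, CO, CO, OC])] else []) ++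
  (if a = 4 then [(5, [OC, CO, CO, OO, CO]),
    (4, [OC, CO, CO, OO, CC, OC, OC, OO]),
    (4, [OC, CO, CO, OO, CC, OC, OC, CO, CC, OC, OC, OO]),
    (5, [OC, CO, CO, OO, CC, OC, OC, CO, CC, OC, OC, OC, OC]),
    (5, [OC, CO, CO, OO, CC, OC, OC, CO, CC, OC, OC, OC, OO])] else []) ++
  (if 5 ≤ a then [(5, [OC, CO, CO, OO, CC])] else []) ++
  (if a = 5 then [(6, [OC, CO, CO, OO, CO, OO])] else []) ++
  (if 6 ≤ a then [(6, [OC, CO, CO, OO, CO, OC])] else []) ++
  (if a = 6 then [(7, [OC, CO, CO, OO, CO, OO, OO])] else []) ++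
  (if 7 ≤ a then [(7, [OC, CO, CO, OO, CO, OO, OC])] else [])

/-- the words of `badK` -/
def badW (a : ℕ) : List (List Ltr) := (badK a).map fun q => q.2

/-- the words of `badW` which are excluded at windows below the first double level -/
def badWords : List (ℕ × List Ltr) :=
  [(3, [OC, CO, CO, OC, CC, OC, OC, OC]), (3, [OC, CO, CO, OC, CC, OC, OC, OO]),
   (4, [OC, CO, CO, OO, CC, OC, OC, OO]),
   (4, [OC, CO, CO, OO, CC, OC, OC, CO, CC, OC, OC, OO]),
   (4, [OC, CO, CO, OO, CC, OC, OC, CO, CC, OC, OC, OC, OC]),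
   (4, [OC, CO, CO, OO, CC, OC, OC, CO, CC, OC, OC, OC, OO])]

/-- the laws for one component natural down to level `j` which come from the windows `≥ j' - 3`, `j' ≤ j` -/
structure Laws3 (lo hi : ℕ → ℕ) (j : ℕ) : Prop where
  lo_zero : lo 0 = 0
  hi_zero : hi 0 = 0
  lo_step : ∀ k, k < j → lo (k + 1) = lo k ∨ lo (k + 1) = lo k + 1
  hi_step : ∀ k, k < j → hi (k + 1) = hi k ∨ hi (k + 1) = hi k + 1
  lo_le : ∀ k, k ≤ j → lo k ≤ hi k
  /-- (2,1)(i) -/
  two : ∀ i, i + 2 ≤ j → npd lo hi i = npu lo hi i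
  two_le : ∀ i, i + 2 ≤ j → npd lo hi i ≤ 1
  /-- (4,2)(i), `b ≥ 4` -/
  two4 : ∀ i, 1 ≤ i → i + 2 ≤ j → lo i + 3 ≤ hi i →
    (pdL lo hi i ↔ puL lo hi i) ∧ (pdR lo hi i ↔ puR lo hi i)
  /-- (3,1)(i), `b ≥ 2` -/
  thr : ∀ i, 1 ≤ i → i + 3 ≤ j → lo i < hi i → flw lo hi i = fuw lo hi i
  /-- (5,2)(i), `b = 3` -/
  be5 : ∀ i, 1 ≤ i → i + 3 ≤ j → ¬ Flip lo hi i
  /-- (6,2)(i), `b = 3` -/
  be6 : ∀ i, 1 ≤ i → i + 3 ≤ j → hi i = lo i + 2 → lo (i + 2) < hi (i + 2) → ¬ cco lo hi i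

/-- all the laws for one component natural down to level `j` -/
structure Laws (lo hi : ℕ → ℕ) (j : ℕ) : Prop extends Laws3 lo hi j where
  /-- (E,1)(a) for quadric rows, `a` = first level with two elements -/
  fq : ∀ a E, (∀ k, k < a → lo k = hi k) → lo a < hi a → 3 ≤ a → 4 ≤ E → a + E ≤ j →
    (∀ k, 1 ≤ k → k < E → lo (a + k) = hi (a + k)) → E ≤ a ∧ lo (a + E) = hi (a + E)
  bad : ∀ a w, w ∈ badW a → (∀ k, k < a → lo k = 0 ∧ hi k = 0) → lo a = 0 ∧ hi a = 1 → 3 ≤ a →
    a + w.length ≤ j → word lo hi a w.length ≠ w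

/-- normal form at one-element rows: a step from one element to one element does not move -/
def NF (lo hi : ℕ → ℕ) (j : ℕ) : Prop :=
  ∀ k, k < j → lo k = hi k → lo (k + 1) = hi (k + 1) → lo (k + 1) = lo k

lemma Laws3.mono {lo hi : ℕ → ℕ} {j j' : ℕ} (h : Laws3 lo hi j) (hj : j' ≤ j) : Laws3 lo hi j' where
  lo_zero := h.lo_zero
  hi_zero := h.hi_zero
  lo_step := fun k hk => h.lo_step k (by omega)
  hi_step := fun k hk => h.hi_step k (by omega)
  lo_le := fun k hk => h.lo_le k (by omega)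
  two := fun i hi => h.two i (by omega)
  two_le := fun i hi => h.two_le i (by omega)
  two4 := fun i h1 hi => h.two4 i h1 (by omega)
  thr := fun i h1 hi => h.thr i h1 (by omega)
  be5 := fun i h1 hi => h.be5 i h1 (by omega)
  be6 := fun i h1 hi => h.be6 i h1 (by omega)

lemma Laws.mono {lo hi : ℕ → ℕ} {j j' : ℕ} (h : Laws lo hi j) (hj : j' ≤ j) : Laws lo hi j' where
  toLaws3 := h.toLaws3.mono hj
  fq := fun a E h1 h2 h3 h4 h5 => h.fq a E h1 h2 h3 h4 (by omega)
  bad := fun a w h1 h2 h3 h4 h5 => h.bad a w h1 h2 h3 h4 (by omega)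

/-! ## the rows given by a word (relative levels: `3` = the first level with two elements) -/

def Lw (w : List Ltr) (n : ℕ) : ℕ := (w.take (n - 3)).countP fun l => l.1

def Hw (w : List Ltr) (n : ℕ) : ℕ := if n < 3 then 0 else 1 + (w.take (n - 3)).countP fun l => l.2

/-- the laws with the last level `w.length + 3`, functions `L`, `H` of relative levels -/
def New0 (L H : ℕ → ℕ) (d : ℕ) : Prop :=
  L (d + 3) ≤ H (d + 3) ∧ (1 ≤ d → L (d + 2) = H (d + 2) → L (d + 3) = H (d + 3) → L (d + 3) = L (d + 2))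

def New2 (L H : ℕ → ℕ) (d : ℕ) : Prop :=
  2 ≤ d → npd L H (d + 1) = npu L H (d + 1) ∧ npd L H (d + 1) ≤ 1 ∧
    (L (d + 1) + 3 ≤ H (d + 1) → (pdL L H (d + 1) ↔ puL L H (d + 1)) ∧ (pdR L H (d + 1) ↔ puR L H (d + 1)))

def New3 (L H : ℕ → ℕ) (d : ℕ) : Prop :=
  3 ≤ d → ¬ Flip L H d ∧ (L d < H d → flw L H d = fuw L H d) ∧
    (H d = L d + 2 → L (d + 2) < H (d + 2) → ¬ cco L H d)

def New4 (A : ℕ) (L H : ℕ → ℕ) (d : ℕ) : Prop :=
  4 ≤ d → (∀ k, k < d → 1 ≤ k → L (k + 3) = H (k + 3)) → d ≤ A ∧ L (d + 3) = H (d + 3)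

instance (L H : ℕ → ℕ) (d : ℕ) : Decidable (New0 L H d) := by unfold New0; infer_instance
instance (L H : ℕ → ℕ) (d : ℕ) : Decidable (New2 L H d) := by unfold New2; infer_instance
instance (L H : ℕ → ℕ) (d : ℕ) : Decidable (New3 L H d) := by unfold New3; infer_instance
instance (A : ℕ) (L H : ℕ → ℕ) (d : ℕ) : Decidable (New4 A L H d) := by unfold New4; infer_instance

/-- the laws of `Laws3` with the last level `w.length + 3` -/
def NewA (w : List Ltr) : Prop :=
  New0 (Lw w) (Hw w) w.length ∧ New2 (Lw w) (Hw w) w.length ∧ New3 (Lw w) (Hw w) w.length ∧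
  w.head? ≠ some CO

instance (w : List Ltr) : Decidable (NewA w) := by unfold NewA; infer_instance

/-- the laws with the last level `w.length + 3` -/
def New (A : ℕ) (w : List Ltr) : Prop :=
  NewA w ∧ New4 A (Lw w) (Hw w) w.length ∧ w ∉ badW A

instance (A : ℕ) (w : List Ltr) : Decidable (New A w) := by unfold New; infer_instance

/-- the tree of the words -/
def tree (A : ℕ) : ℕ → List (List Ltr)
  | 0 => [[]]
  | d + 1 => ((tree A d).flatMap fun w => [w ++ [OO], w ++ [CO], w ++ [OC], w ++ [CC]]).filter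
      fun w => decide (New A w)

end Pool.Agent.GaussPoset.Wd
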