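import Pool.Agent.W_448wd_h84.WdB

/-!
# MP_448cb3_co, the list of the late words (row 466)
-/

namespace Pool.Agent.GaussPoset.Wd

/-- the words of the late components which are not quadrics -/
def lateW (a : ℕ) : List (List Ltr) :=
  [[], [OO], [OC], [OC, OO], [OC, CO], [OC, OO, OO], [OC, OO, CO], [OC, CO, CO]] ++
  (if a = 3 then [[OC, OO, CO, OC], [OC, CO, CO, OC], [OC, CO, CO, OC, CC], [OC, CO, CO, OC, CC, OC],
    [OC, CO, CO, OC, CC, OC, OC]] else [[OC, OO, CO, OO], [OC, CO, CO, OO]]) ++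
  (if a = 4 then [[OC, CO, CO, OO, CC], [OC, CO, CO, OO, CC, CO], [OC, CO, CO, OO, CC, OC],
    [OC, CO, CO, OO, CC, OC, OC], [OC, CO, CO, OO, CC, OC, OC, CO], [OC, CO, CO, OO, CC, OC, OC, CO, CC],
    [OC, CO, CO, OO, CC, OC, OC, CO, CC, OC], [OC, CO, CO, OO, CC, OC, OC, CO, CC, OC, OC],
    [OC, CO, CO, OO, CC, OC, OC, CO, CC, OC, OC, OC]] else []) ++
  (if 5 ≤ a then [[OC, CO, CO, OO, CO]] else []) ++
  (if a = 5 then [[OC, CO, CO, OO, CO, OC], [OC, CO, CO, OO, CO, OC, OC]] else []) ++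
  (if 6 ≤ a then [[OC, CO, CO, OO, CO, OO]] else []) ++
  (if a = 6 then [[OC, CO, CO, OO, CO, OO, OC]] else []) ++
  (if 7 ≤ a then [[OC, CO, CO, OO, CO, OO, OO]] else [])

/-- the word of a quadric -/
def Qw (d : ℕ) : List Ltr := CC :: List.replicate (d - 1) OC

instance decQ (a d : ℕ) (w : List Ltr) : Decidable (((1 ≤ d ∧ d ≤ a) ∧ w = Qw d) ∨ w ∈ lateW a) := by
  infer_instance

lemma tree3 : ∀ d, d < 8 → ∀ w ∈ tree 3 d, ((1 ≤ d ∧ d ≤ 3) ∧ w = Qw d) ∨ w ∈ lateW 3 := by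
  decide +kernel

lemma tree3' : tree 3 8 = [] := by decide +kernel

lemma tree4 : ∀ d, d < 13 → ∀ w ∈ tree 4 d, ((1 ≤ d ∧ d ≤ 4) ∧ w = Qw d) ∨ w ∈ lateW 4 := by
  decide +kernel

lemma tree4' : tree 4 13 = [] := by decide +kernel

lemma tree5 : ∀ d, d < 8 → ∀ w ∈ tree 5 d, ((1 ≤ d ∧ d ≤ 5) ∧ w = Qw d) ∨ w ∈ lateW 5 := by
  decide +kernel

lemma tree5' : tree 5 8 = [] := by decide +kernel

lemma tree6 : ∀ d, d < 8 → ∀ w ∈ tree 6 d, ((1 ≤ d ∧ d ≤ 6) ∧ w = Qw d) ∨ w ∈ lateW 6 := by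
  decide +kernel

lemma tree6' : tree 6 8 = [] := by decide +kernel

lemma tree7 : ∀ d, d < 8 → ∀ w ∈ tree 7 d, ((1 ≤ d ∧ d ≤ 7) ∧ w = Qw d) ∨ w ∈ lateW 7 := by
  decide +kernel

lemma tree7' : tree 7 8 = [] := by decide +kernel

lemma tree8 : ∀ d, d < 8 → ∀ w ∈ tree 8 d, ((1 ≤ d ∧ d ≤ 8) ∧ w = Qw d) ∨ w ∈ lateW 8 := by
  decide +kernel

lemma tree8' : tree 8 8 = [Qw 8] := by decide +kernel

variable {lo hi : ℕ → ℕ} {j a d : ℕ}

lemma head_word {m : ℕ} (h : m ≤ d) (hor : (word lo hi a d).head? ≠ some CO) :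
    (word lo hi a m).head? ≠ some CO := by
  rw [← word_take h]
  rcases m with _ | m
  · simp
  · rw [List.head?_take]
    simpa using hor

/-- one-element rows below the window `a` continue by one element at a time, at most down to level `2 a` -/
lemma Laws.quad (h : Laws lo hi j) (h0 : 3 ≤ a) (h1 : ∀ k, k < a → lo k = hi k) (h2 : lo a < hi a)
    (h3 : ∀ k, 1 ≤ k → k ≤ 3 → lo (a + k) = hi (a + k)) :
    ∀ d, a + d ≤ j → ∀ k, 1 ≤ k → k ≤ d → lo (a + k) = hi (a + k) ∧ (4 ≤ k → k ≤ a) := by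
  intro d
  induction d with
  | zero => intro _ k hk hk'; omega
  | succ d ih =>
    intro hd k hk hk'
    rcases Nat.lt_or_ge k (d + 1) with h4 | h4
    · exact ih (by omega) k hk (by omega)
    · obtain rfl : k = d + 1 := by omega
      rcases Nat.lt_or_ge 3 (d + 1) with h5 | h5
      · have e1 := h.fq a (d + 1) h1 h2 h0 (by omega) (by omega)
          (fun k hk hk1 => (ih (by omega) k hk (by omega)).1)
        exact ⟨e1.2, fun _ => e1.1⟩
      · exact ⟨h3 _ (by omega) h5, fun h6 => by omega⟩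

/-- the word of one-element rows in normal form -/
lemma word_quad (hN : NF lo hi j) (hd : a + d ≤ j) (h1 : 1 ≤ d) (hc : lo (a + 1) = lo a + 1 ∧ hi (a + 1) = hi a)
    (h3 : ∀ k, 1 ≤ k → k ≤ d → lo (a + k) = hi (a + k)) : word lo hi a d = Qw d := by
  induction d with
  | zero => omega
  | succ d ih =>
    rcases Nat.eq_zero_or_pos d with rfl | h4
    · simp [word, Qw, CC, hc]
    · rw [word_succ, ih (by omega) h4 (fun k hk hk' => h3 k hk (by omega))]
      have e1 := hN (a + d) (by omega) (h3 d h4 (by omega)) (h3 (d + 1) (by omega) le_rfl)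
      have e2 := h3 d h4 (by omega)
      have e3 := h3 (d + 1) (by omega) le_rfl
      rw [← Nat.add_assoc] at e3
      have e4 : hi (a + d + 1) = hi (a + d) := by omega
      obtain ⟨m, rfl⟩ : ∃ m, d = m + 1 := ⟨d - 1, by omega⟩
      simp [e1, e4, Qw, List.replicate_succ', OC]

/-- S4: the list of the late components (normal form, first letter not CO) -/
theorem Laws.late (h : Laws lo hi j) (hN : NF lo hi j) (h0 : 3 ≤ a) (ha : a ≤ j)
    (h1 : ∀ k, k < a → lo k = hi k) (h2 : lo a < hi a) (hor : (word lo hi a (j - a)).head? ≠ some CO) :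
    ((1 ≤ j - a ∧ j - a ≤ a) ∧ word lo hi a (j - a) = Qw (j - a)) ∨ word lo hi a (j - a) ∈ lateW a := by
  -- small `a`
  have key : ∀ N, (∀ d, d < N → ∀ w ∈ tree a d, ((1 ≤ d ∧ d ≤ a) ∧ w = Qw d) ∨ w ∈ lateW a) →
      tree a N = [] → ((1 ≤ j - a ∧ j - a ≤ a) ∧ word lo hi a (j - a) = Qw (j - a)) ∨
        word lo hi a (j - a) ∈ lateW a := by
    intro N hN1 hN2
    rcases Nat.lt_or_ge (j - a) N with h3 | h3
    · exact hN1 _ h3 _ (h.mem_tree hN h0 h1 h2 (j - a) (by omega) (Or.inl rfl) hor)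
    · have := h.mem_tree hN h0 h1 h2 (A := a) N (by omega) (Or.inl rfl) (head_word h3 hor)
      rw [hN2] at this
      simp at this
  rcases Nat.lt_or_ge a 8 with h8 | h8
  · obtain rfl | rfl | rfl | rfl | rfl : a = 3 ∨ a = 4 ∨ a = 5 ∨ a = 6 ∨ a = 7 := by omega
    · exact key 8 tree3 tree3'
    · exact key 13 tree4 tree4'
    · exact key 8 tree5 tree5'
    · exact key 8 tree6 tree6'
    · exact key 8 tree7 tree7'
  · have hW : lateW 8 = lateW a := by
      unfold lateW
      simp only [show ¬ a = 3 by omega, show ¬ a = 4 by omega, show ¬ a = 5 by omega, show ¬ a = 6 by omega,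
        show 5 ≤ a by omega, show 6 ≤ a by omega, show 7 ≤ a by omega]
      rfl
    rcases Nat.lt_or_ge (j - a) 8 with h3 | h3
    · have := h.mem_tree hN h0 h1 h2 (A := 8) (j - a) (by omega) (Or.inr (by omega)) hor
      have := tree8 _ h3 _ this
      rw [hW] at this
      rcases this with ⟨h4, h5⟩ | h4
      · exact Or.inl ⟨by omega, h5⟩
      · exact Or.inr h4
    · have h4 := h.mem_tree hN h0 h1 h2 (A := 8) 8 (by omega) (Or.inr (by omega)) (head_word h3 hor)
      rw [tree8', List.mem_singleton] at h4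
      have hL := h.Lw_word hN h0 h1 h2 (d := 8) (by omega)
      have hH := h.Hw_word hN h0 h1 h2 (d := 8) (by omega)
      rw [h4] at hL hH
      have hr : ∀ k, 1 ≤ k → k ≤ 8 → lo (a + k) = 1 ∧ hi (a + k) = 1 := by
        intro k hk hk'
        have e1 := hL (k + 3) (by omega)
        have e2 := hH (k + 3) (by omega)
        rw [show a - 3 + (k + 3) = a + k by omega] at e1 e2
        rw [← e1, ← e2]
        interval_cases k <;> decide
      have h5 := h.at_a hN ha (by omega) h1 h2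
      have h6 := hr 1 (by omega) (by omega)
      have hc : lo (a + 1) = lo a + 1 ∧ hi (a + 1) = hi a := by omega
      have h7 := h.quad h0 h1 h2 (fun k hk hk' => by
        have := hr k hk (by omega)
        omega) (j - a) (by omega)
      left
      refine ⟨⟨by omega, (h7 (j - a) (by omega) le_rfl).2 (by omega)⟩, ?_⟩
      exact word_quad hN (by omega) (by omega) hc (fun k hk hk' => (h7 k hk hk').1)

end Pool.Agent.GaussPoset.Wd
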