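import Pool.Agent.W_448wd_h84.WdE
import Pool.Agent.W_448wd_h84.WdS
import Pool.Agent.W_448al_h63.LK
import Pool.Agent.W_448cp_h96.CE
import Pool.Agent.W_448i2_h61.TD

/-!
# MP_448cb3_co, the laws of one component from the landed identities
-/

namespace Pool.Agent.GaussPoset.Wd

set_option linter.unusedSectionVars false

open Finset Win

universe u

variable {P : Type u} [Fintype P] [PartialOrder P] [DecidableEq P] {r j : ℕ}
variable {t : P} {lo hi : ℕ → ℕ} {e : ℕ → ℕ → P}

lemma npd_eq (i : ℕ) : npd lo hi i = Cp.nPD lo hi i := by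
  unfold npd Cp.nPD pdL pdR
  congr 1

lemma npu_eq (i : ℕ) : npu lo hi (i + 2) = Cp.nPU lo hi i := by
  unfold npu Cp.nPU puL puR
  simp

lemma npu_small {i : ℕ} (h : i < 2) : npu lo hi i = 0 := by
  unfold npu puL puR
  rw [if_neg (by omega), if_neg (by omega)]

/-- (2,1) -/
theorem law_two (h : GoodTo P r j) (ht : lev t = 0) (C : Cp.Comp j t lo hi e) {i : ℕ}
    (hi2 : i + 2 ≤ j) : npd lo hi i = npu lo hi i ∧ npd lo hi i ≤ 1 := by
  classical
  obtain ⟨h1, h2⟩ := indiv_21 h i (by omega) t ht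
  have h3 : (PDt i t).card = npd lo hi i := by
    rw [npd_eq, ← C.card_PD h.H h.good ht hi2]
    rfl
  have h4 : (PUt i t).card = npu lo hi i := by
    rcases Nat.lt_or_ge i 2 with h5 | h5
    · rw [npu_small h5, card_eq_zero, Finset.eq_empty_iff_forall_notMem]
      intro z hz
      have := (mem_PU.1 (mem_PUt.1 hz).1).1
      omega
    · obtain ⟨k, rfl⟩ : ∃ k, i = k + 2 := ⟨i - 2, by omega⟩
      rw [npu_eq, ← C.card_PU h.H (by omega)]
      rfl
  omega

/-- (4,2) -/
theorem law_two4 (h : GoodTo P r j) (ht : lev t = 0) (C : Cp.Comp j t lo hi e) {i : ℕ}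
    (hi1 : 1 ≤ i) (hi2 : i + 2 ≤ j) (hb : lo i + 3 ≤ hi i) :
    (pdL lo hi i ↔ puL lo hi i) ∧ (pdR lo hi i ↔ puR lo hi i) := by
  classical
  obtain ⟨h1, h2⟩ := law_two h ht C hi2
  have W := C.toWin
  have hS5 := (near_level' (i := i) (h.mono (by omega)) hi1).2 t lo hi e ht (W.mono (by omega))
  have e1 := C.lo_step i (by omega)
  have e2 := C.hi_step i (by omega)
  have hL : pdL lo hi i → (pen (e (i + 1) (lo i + 1))).card ≠ 0 := by
    rintro ⟨d1, d2, d3⟩ h0
    rw [card_eq_zero] at h0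
    have hz := W.PD_left h ht hi2 d1 d2 d3
    have hm := mem_PD.1 hz
    obtain ⟨w, hw, hw2⟩ := hm.2.2
    have h3 : w = e (i + 1) (lo i + 1) := by
      have hlo := C.lo_le (i + 2) hi2
      obtain ⟨b, b1, b2, b3, rfl⟩ := (W.uc_iff h ht (k := i + 1) (by omega) le_rfl hlo).1 hw
      have e9 : lo (i + 1 + 1) = lo (i + 2) := rfl
      rw [show b = lo i + 1 by omega]
    have h4 : e (i + 2) (lo (i + 2)) ∈ pen (e (i + 1) (lo i + 1)) := by
      rw [← h3]
      exact mem_pen.2 ⟨hw, hm.2.1⟩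
    rw [h0] at h4
    exact absurd h4 (Finset.notMem_empty _)
  have hR : pdR lo hi i → (pen (e (i + 1) (hi i))).card ≠ 0 := by
    rintro ⟨d1, d2, d3⟩ h0
    rw [card_eq_zero] at h0
    have hz := W.PD_right h ht hi2 d1 d2 d3
    have hm := mem_PD.1 hz
    obtain ⟨w, hw, hw2⟩ := hm.2.2
    have h3 : w = e (i + 1) (hi i) := by
      have hlo := C.lo_le (i + 2) hi2
      obtain ⟨b, b1, b2, b3, rfl⟩ := (W.uc_iff h ht (k := i + 1) (by omega) hlo le_rfl).1 hw
      rw [show b = hi i by omega]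
    have h4 : e (i + 2) (hi (i + 2)) ∈ pen (e (i + 1) (hi i)) := by
      rw [← h3]
      exact mem_pen.2 ⟨hw, hm.2.1⟩
    rw [h0] at h4
    exact absurd h4 (Finset.notMem_empty _)
  have hd : npd lo hi i = (if pdL lo hi i then 1 else 0) + (if pdR lo hi i then 1 else 0) := rfl
  have hu : npu lo hi i = (if puL lo hi i then 1 else 0) + (if puR lo hi i then 1 else 0) := rfl
  have l1 : LCO lo hi i ↔ puL lo hi i := Iff.rfl
  have l2 : RCO lo hi i ↔ puR lo hi i := Iff.rfl
  rcases hS5 with ⟨h3, h4, -⟩ | ⟨h3, h4, b, hb1, hb2⟩ | ⟨h3, h4, b, hb1, hb2⟩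
  · rw [l1] at h3
    rw [l2] at h4
    rw [if_neg h3, if_neg h4] at hu
    rw [hd] at h1
    split_ifs at h1 with h5 h6 h6
    · omega
    · omega
    · omega
    · tauto
  · rw [l1] at h3
    rw [l2] at h4
    rw [if_pos h3, if_neg h4] at hu
    have h5 : ¬ pdR lo hi i := by
      intro h6
      have h7 := hR h6
      rw [hb2 (hi i) (by omega) le_rfl, if_neg (by omega)] at h7
      exact h7 rfl
    rw [hd, if_neg h5] at h1
    split_ifs at h1 with h6
    · tauto
    · omega
  · rw [l2] at h3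
    rw [l1] at h4
    rw [if_neg h4, if_pos h3] at hu
    have h5 : ¬ pdL lo hi i := by
      intro h6
      have h7 := hL h6
      rw [hb2 (lo i + 1) (by omega) (by omega), if_neg (by omega)] at h7
      exact h7 rfl
    rw [hd, if_neg h5] at h1
    split_ifs at h1 with h6
    · tauto
    · omega

/-! ## components as parts -/

/-- the maximal elements above `x` -/
noncomputable def tps (x : P) : Finset P := by
  classical
  exact univ.filter (fun t => lev t = 0 ∧ x ≤ t)

lemma mem_tps {x t : P} : t ∈ tps x ↔ lev t = 0 ∧ x ≤ t := by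
  classical
  unfold tps
  rw [mem_filter]
  exact ⟨fun h => h.2, fun h => ⟨mem_univ _, h⟩⟩

end Pool.Agent.GaussPoset.Wd
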