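import Pool.Agent.W_448wd_h84.WdL
import Pool.Agent.W_448so_h63.EB
import Pool.Agent.W_448so_h39.FJ
import Pool.Agent.W_448s6_h67.PcC

/-!
# MP_448cb3_co, case B: the laws with the last level `j + 1`

`NJ P r j`: the levels less than `j` are good and no element of level `j + 1` is below two maximal
elements.  Then the laws (5,2), (3,1), (6,2) hold for every component also at the window `j - 2`, with the
level `j + 1` arbitrary.
-/

namespace Pool.Agent.GaussPoset.Wd

set_option linter.unusedSectionVars false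

open Finset Win Win.I2

universe u

variable {P : Type u} [Fintype P] [PartialOrder P] [DecidableEq P] {r j i k : ℕ}

/-- CASE B -/
structure NJ (P : Type u) [Fintype P] [PartialOrder P] [DecidableEq P] (r j : ℕ) : Prop where
  g : GoodTo P r j
  hr : j + 1 ≤ r
  no : ∀ z : P, lev z = j + 1 → ¬ Hul.Jn z

lemma NJ.nj (h : NJ P r j) {z : P} (hz : lev z ≤ j + 1) : ¬ Hul.Jn z := by
  rcases Nat.lt_or_ge (lev z) (j + 1) with h1 | h1
  · exact h.g.no_join z (by omega)
  · exact h.no z (by omega)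

theorem NJ.split (h : NJ P r j) : Split (j + 1) (topOf : P → Tops P) := by
  intro v y hvy hv
  refine Subtype.ext ?_
  exact Hul.top_unique (h.nj hv) (topOf v).2 (topOf y).2 (le_topOf v) (hvy.le.trans (le_topOf y))

/-- the extended component does not depend on the level of the decomposition -/
lemma NJ.cext_eq (h : NJ P r j) (hij : i ≤ j + 1) (t : Tops P) :
    cext (j + 1) (topOf : P → Tops P) t = SS i t := by
  unfold SS
  ext x
  rw [mem_cext, mem_cext]
  constructor
  · intro hx y hy hl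
    exact hx y hy (hl.trans hij)
  · intro hx y hy hl
    rcases Nat.lt_or_ge (lev y) i with h1 | h1
    · exact hx y hy h1.le
    · obtain ⟨y', hy', hl'⟩ := exists_above' (x := y) (j := i) h1
      rw [Split.le h.split (y := y') y hy' hl]
      exact hx y' (hy.trans hy') hl'.le

lemma NJ.mem (h : NJ P r j) (hij : i ≤ j + 1) (t : Tops P) {y : P} (hy : lev y ≤ j + 1) :
    y ∈ SS i t ↔ y ≤ (t : P) := by
  rw [← h.cext_eq hij t, mem_cext]
  constructor
  · intro h1
    have h2 := h1 y le_rfl hy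
    rw [← h2]
    exact le_topOf y
  · intro h1 z hz hlz
    refine Subtype.ext ?_
    exact Hul.top_unique (h.nj hy) (topOf z).2 t.2 (hz.trans (le_topOf z)) h1

lemma NJ.part (h : NJ P r j) (hij : i ≤ j + 1) (hk : k ≤ j + 1) (t : Tops P) : Part k (SS i t) := by
  rw [← h.cext_eq hij t]
  exact part_cext h.g.H hk h.split t

lemma NJ.bb_eq (h : NJ P r j) (hij : i ≤ j + 1) (t : Tops P) :
    bb i (j + 1) (topOf : P → Tops P) t = (st i (SS i t)).card := by
  unfold bb
  rw [h.cext_eq hij t]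

lemma NJ.VV_eq (h : NJ P r j) (hij : i ≤ j + 1) (t : Tops P) :
    VV i (j + 1) (topOf : P → Tops P) t = ZS i (SS i t) := by
  unfold VV
  rw [h.cext_eq hij t]

lemma NJ.card_SS (h : NJ P r j) (hij : i ≤ j) {t : Tops P} {lo hi : ℕ → ℕ} {e : ℕ → ℕ → P}
    (C : Cp.Comp j (t : P) lo hi e) : (st i (SS i t)).card = hi i + 1 - lo i :=
  C.toWin.card_st hij (fun _ _ => h.mem (by omega) t (by omega))

section values

variable {t : P} {lo hi : ℕ → ℕ} {x : ℕ → ℕ → P} {S : Finset P}

/-- the second order values of a natural component (two levels below the window) without flip -/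
theorem be6_gen (g : GoodTo P r j) (C : Win.Comp P t j lo hi x) (ht : lev t = 0) (hi1 : 1 ≤ i)
    (h3 : i + 2 ≤ j) (hS : ∀ y, lev y ≤ i + 2 → (y ∈ S ↔ y ≤ t)) (hP : Part (i + 1) S)
    (hf : ¬ Win.Flip lo hi i) :
    al 3 (st i S).card (ZS i S) = ((FL i S).card : ℤ) - Win.fuw lo hi i ∧
    be 6 (st i S).card (ZS i S) = - ((SO.N1f i S).card : ℤ) - ((SO.N5f i S).card : ℤ) := by
  have K := cm6_of g C ht hi1 h3 hS hP hf
  obtain ⟨psi, hM⟩ := good_mat g.H (g.good i (by omega))
  have Q := K.ps6 hM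
  have hc := C.card_st (i := i) (S := S) (by omega) (fun y hy => hS y (by omega))
  have hl := C.lohi i (by omega)
  have h4 := so_al3 Q
  have h7 : I2.al 3 (st i S).card (ZS i S) = ((FL i S).card : ℤ) - ((FU' i S).card : ℤ) := by
    rw [h4, C.card_ZL g ht (by omega) hS, C.card_ZU g ht hi1 (by omega)
      (fun y hy => hS y (by omega))]
    ring
  have h6 := SO.PS6.six' Q (by omega)
  rw [h7, QQ_nat g C ht hi1 (by omega) hS hP hf] at h6
  refine ⟨?_, by linarith⟩
  rw [h7, C.card_FU g ht (by omega) (fun y hy => hS y (by omega))]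

end values

section two

variable (h : NJ P r j) (hi1 : 1 ≤ i) (h3 : i + 2 ≤ j)
include h hi1 h3

/-- (5,2) -/
theorem NJ.be5_all (t : Tops P) : be 5 (st i (SS i t)).card (ZS i (SS i t)) = 0 := by
  have hr := h.hr
  have h1 := be5_zero h.g.H (by omega) (show i + 3 ≤ j + 1 by omega)
    (fun m _ hm => h.g.good m (by omega)) h.split (by
      intro c _ hb
      rw [h.bb_eq (by omega)] at hb ⊢
      rw [h.VV_eq (by omega)]
      obtain ⟨lo, hi, e, C⟩ := Cp.comp_exists h.g.H c.2 h.g.hr h.g.good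
      have h2 := be5_nat h.g C.toWin c.2 hi1 (by omega)
        (fun y hy => h.mem (i := i) (by omega) c (by omega))
        (h.part (by omega) (by omega) c)
      omega) t (mem_tops t)
  rwa [h.bb_eq (by omega), h.VV_eq (by omega)] at h1

/-- no flip -/
theorem NJ.no_flip {t : Tops P} {lo hi : ℕ → ℕ} {e : ℕ → ℕ → P} (C : Cp.Comp j (t : P) lo hi e) :
    ¬ Flip lo hi i := by
  intro hf
  have hS : ∀ y, lev y ≤ i + 2 → (y ∈ Wd.SS i t ↔ y ≤ (t : P)) :=
    fun y hy => h.mem (i := i) (by omega) t (by omega)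
  have h1 := be5_nat h.g C.toWin t.2 hi1 (by omega) hS (h.part (by omega) (by omega) t)
  have h2 := F5_flip h.g C.toWin t.2 hi1 (by omega) hS hf
  have h4 := h.be5_all hi1 h3 t
  rw [← card_pos] at h2
  omega

/-- the values -/
theorem NJ.vals {t : Tops P} {lo hi : ℕ → ℕ} {e : ℕ → ℕ → P} (C : Cp.Comp j (t : P) lo hi e) :
    al 3 (st i (SS i t)).card (ZS i (SS i t)) = ((FL i (SS i t)).card : ℤ) - fuw lo hi i ∧
    be 6 (st i (SS i t)).card (ZS i (SS i t)) =
      - ((SO.N1f i (SS i t)).card : ℤ) - ((SO.N5f i (SS i t)).card : ℤ) :=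
  be6_gen h.g C.toWin t.2 hi1 h3 (fun y hy => h.mem (i := i) (by omega) t (by omega))
    (h.part (by omega) (by omega) t) (h.no_flip hi1 h3 C)

/-- (3,1), (6,2) -/
theorem NJ.al3_sq (t : Tops P) : (al 3 (st i (SS i t)).card (ZS i (SS i t))) ^ 2 =
    2 * be 6 (st i (SS i t)).card (ZS i (SS i t)) := by
  have hr := h.hr
  have h1 := Win.I2.al3_sq h.g.H (by omega) (show i + 3 ≤ j + 1 by omega)
    (fun m _ hm => h.g.good m (by omega)) h.split (by
      intro c _
      rw [h.bb_eq (by omega), h.VV_eq (by omega)]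
      exact h.be5_all hi1 h3 c) (by
      intro c _ hb
      rw [h.bb_eq (by omega)] at hb ⊢
      rw [h.VV_eq (by omega)]
      obtain ⟨lo, hi, e, C⟩ := Cp.comp_exists h.g.H c.2 h.g.hr h.g.good
      have h2 := (h.vals hi1 h3 C).2
      have h4 := sq_nonneg (al 3 (st i (SS i c)).card (ZS i (SS i c)))
      rw [h2]
      have h5 : (0 : ℤ) ≤ (SO.N1f i (SS i c)).card := by positivity
      have h6 : (0 : ℤ) ≤ (SO.N5f i (SS i c)).card := by positivity
      linarith) t (mem_tops t)
  rwa [h.bb_eq (by omega), h.VV_eq (by omega)] at h1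

/-- THE LAWS at the windows `i ≤ j - 2`: chain balance, nothing hangs below a twisted triple -/
theorem NJ.law {t : Tops P} {lo hi : ℕ → ℕ} {e : ℕ → ℕ → P} (C : Cp.Comp j (t : P) lo hi e) :
    (FL i (SS i t)).card = fuw lo hi i ∧ SO.N1f i (SS i t) = ∅ ∧ SO.N5f i (SS i t) = ∅ := by
  obtain ⟨h1, h2⟩ := h.vals hi1 h3 C
  have h4 := h.al3_sq hi1 h3 t
  have h5 : (0 : ℤ) ≤ (SO.N1f i (SS i t)).card := by positivity
  have h6 : (0 : ℤ) ≤ (SO.N5f i (SS i t)).card := by positivity
  have h7 := sq_nonneg (al 3 (st i (SS i t)).card (ZS i (SS i t)))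
  rw [h4] at h7
  have h8 : al 3 (st i (SS i t)).card (ZS i (SS i t)) = 0 := by
    have : (al 3 (st i (SS i t)).card (ZS i (SS i t))) ^ 2 = 0 := by
      rw [h4]
      linarith
    exact pow_eq_zero_iff (two_ne_zero) |>.1 this
  refine ⟨?_, ?_, ?_⟩
  · rw [h1] at h8
    have h9 : ((FL i (SS i t)).card : ℤ) = (fuw lo hi i : ℕ) := by
      have : (fuw lo hi i : ℤ) = (Win.fuw lo hi i : ℤ) := rfl
      linarith
    exact_mod_cast h9
  · rw [← card_eq_zero]
    have : ((SO.N1f i (SS i t)).card : ℤ) = 0 := by linarith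
    exact_mod_cast this
  · rw [← card_eq_zero]
    have : ((SO.N5f i (SS i t)).card : ℤ) = 0 := by linarith
    exact_mod_cast this

end two

end Pool.Agent.GaussPoset.Wd
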