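import Pool.Agent.W_448ev_h61.EvE
import Pool.Agent.W_448i2_h61.TC
import Pool.Agent.W_448co_h5.Second

/-!
# MP_448cb3_co, (E,1)(a) for the quadric rows

`a` is the first level with two elements, the levels `a + 1, …, a + E - 1` have one element each.
For `2 ≤ E ≤ a + 1` the coefficient of `q^E d` in the window series is (number of elements of
level `a + E`) `- [E ≤ a]`: the configurations supported on the two chains cancel by reflection.
-/

namespace Pool.Agent.GaussPoset.Wd

set_option linter.unusedSectionVars false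

open Finset Win Win.Ev

universe u

/-! ## duality modulo `d ^ 2` -/

/-- `w'` is the image of `w` under the duality `d ↦ - d + …` modulo `d ^ 2` -/
def TT (w w' : A) : Prop :=
  PowerSeries.coeff 0 w' = PowerSeries.coeff 0 w ∧ PowerSeries.coeff 1 w' = - PowerSeries.coeff 1 w

lemma c0_mul (f g : A) :
    PowerSeries.coeff 0 (f * g) = PowerSeries.coeff 0 f * PowerSeries.coeff 0 g := by
  rw [PowerSeries.coeff_mul]
  simp

lemma c1_mul (f g : A) : PowerSeries.coeff 1 (f * g) =
    PowerSeries.coeff 0 f * PowerSeries.coeff 1 g + PowerSeries.coeff 1 f * PowerSeries.coeff 0 g := by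
  rw [PowerSeries.coeff_mul]
  rw [show (1 : ℕ) = 0 + 1 from rfl, Finset.Nat.antidiagonal_succ]
  simp

lemma TT.mul {u v u' v' : A} (h : TT u u') (h' : TT v v') : TT (u * v) (u' * v') := by
  obtain ⟨h1, h2⟩ := h
  obtain ⟨h3, h4⟩ := h'
  refine ⟨?_, ?_⟩
  · rw [c0_mul, c0_mul, h1, h3]
  · rw [c1_mul, c1_mul, h1, h2, h3, h4]
    ring

lemma TT.one : TT 1 1 := by
  refine ⟨rfl, ?_⟩
  rw [PowerSeries.coeff_one]
  simp

lemma TT.zero : TT 0 0 := ⟨rfl, by simp⟩

lemma TT.prod {ι : Type*} (s : Finset ι) {f g : ι → A} (h : ∀ z ∈ s, TT (f z) (g z)) :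
    TT (∏ z ∈ s, f z) (∏ z ∈ s, g z) := by
  classical
  induction s using Finset.induction_on with
  | empty => rw [Finset.prod_empty, Finset.prod_empty]; exact TT.one
  | insert a s ha ih =>
    rw [Finset.prod_insert ha, Finset.prod_insert ha]
    exact (h a (mem_insert_self _ _)).mul (ih fun z hz => h z (mem_insert_of_mem hz))

lemma c0_dd : PowerSeries.coeff 0 dd = 0 := by unfold dd; simp
lemma c1_dd : PowerSeries.coeff 1 dd = 1 := by unfold dd; simp
lemma c0_xx : PowerSeries.coeff 0 xx = -1 := by unfold xx dd; simp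
lemma c1_xx : PowerSeries.coeff 1 xx = 1 := by
  unfold xx dd
  rw [map_sub, PowerSeries.coeff_one]
  simp
lemma c0_xi : PowerSeries.coeff 0 xi = -1 := by unfold xi; rw [map_neg, PowerSeries.coeff_mk]
lemma c1_xi : PowerSeries.coeff 1 xi = -1 := by unfold xi; rw [map_neg, PowerSeries.coeff_mk]

lemma TT.xx_xi : TT xx xi := ⟨by rw [c0_xx, c0_xi], by rw [c1_xx, c1_xi]⟩
lemma TT.xi_xx : TT xi xx := ⟨by rw [c0_xx, c0_xi], by rw [c1_xx, c1_xi]; norm_num⟩
lemma TT.dd_xd : TT dd (xi * dd) := by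
  refine ⟨by rw [c0_mul, c0_dd, mul_zero], ?_⟩
  rw [c1_mul, c0_dd, c1_dd, c0_xi]
  norm_num
lemma TT.xd_dd : TT (xi * dd) dd := by
  refine ⟨by rw [c0_mul, c0_dd, mul_zero], ?_⟩
  rw [c1_mul, c0_dd, c1_dd, c0_xi]
  norm_num

variable {P : Type u} [Fintype P] [PartialOrder P] [DecidableEq P] {r a E : ℕ}

open Classical in
lemma wP_low {e : P → ℕ} {z : P} (hz : a < lev z) : wP a e z =
    if FD e z then (if GU e z then 0 else xx) else (if GU e z then 1 else dd) := by
  unfold wP
  rw [if_pos hz]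

open Classical in
lemma wP_upp {e : P → ℕ} {z : P} (hz : lev z < a) : wP a e z =
    if FU e z then (if GD e z then 0 else xi) else (if GD e z then 1 else xi * dd) := by
  unfold wP
  rw [if_neg (by omega), if_pos hz]

lemma tt_low {e e' : P → ℕ} {z z' : P} (hz : a < lev z) (hz' : lev z' < a)
    (h1 : FU e' z' ↔ FD e z) (h2 : GD e' z' ↔ GU e z) : TT (wP a e z) (wP a e' z') := by
  classical
  rw [wP_low hz, wP_upp hz']
  simp only [h1, h2]
  by_cases hd : FD e z
  · by_cases hu : GU e z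
    · rw [if_pos hd, if_pos hu, if_pos hd, if_pos hu]
      exact TT.zero
    · rw [if_pos hd, if_neg hu, if_pos hd, if_neg hu]
      exact TT.xx_xi
  · by_cases hu : GU e z
    · rw [if_neg hd, if_pos hu, if_neg hd, if_pos hu]
      exact TT.one
    · rw [if_neg hd, if_neg hu, if_neg hd, if_neg hu]
      exact TT.dd_xd

lemma tt_upp {e e' : P → ℕ} {z z' : P} (hz : lev z < a) (hz' : a < lev z')
    (h1 : FD e' z' ↔ FU e z) (h2 : GU e' z' ↔ GD e z) : TT (wP a e z) (wP a e' z') := by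
  classical
  rw [wP_low hz', wP_upp hz]
  simp only [h1, h2]
  by_cases hd : FU e z
  · by_cases hu : GD e z
    · rw [if_pos hd, if_pos hu, if_pos hd, if_pos hu]
      exact TT.zero
    · rw [if_pos hd, if_neg hu, if_pos hd, if_neg hu]
      exact TT.xi_xx
  · by_cases hu : GD e z
    · rw [if_neg hd, if_pos hu, if_neg hd, if_pos hu]
      exact TT.one
    · rw [if_neg hd, if_neg hu, if_neg hd, if_neg hu]
      exact TT.xd_dd

open Classical in
lemma wP_site {e : P → ℕ} {z : P} (hz : lev z = a) : wP a e z =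
    if FD e z then (if FU e z then 0 else xx) else (if FU e z then 1 else dd) := by
  unfold wP
  rw [if_neg (by omega), if_neg (by omega)]

lemma tt_site {e e' : P → ℕ} {z : P} (hz : lev z = a)
    (h1 : FD e' z ↔ FU e z) (h2 : FU e' z ↔ FD e z) : TT (wP a e z) (xi * wP a e' z) := by
  classical
  rw [wP_site hz, wP_site hz]
  simp only [h1, h2]
  by_cases hd : FD e z
  · by_cases hu : FU e z
    · rw [if_pos hd, if_pos hu, if_pos hu, if_pos hd, mul_zero]
      exact TT.zero
    · rw [if_pos hd, if_neg hu, if_neg hu, if_pos hd, mul_one]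
      exact TT.xx_xi
  · by_cases hu : FU e z
    · rw [if_neg hd, if_pos hu, if_pos hu, if_neg hd, mul_comm, xx_mul_xi]
      exact TT.one
    · rw [if_neg hd, if_neg hu, if_neg hu, if_neg hd]
      exact TT.dd_xd

/-! ## the chains -/

/-- `C` is the part of a component with two sites `s1`, `s2`; `y k` is the only element of the
level `k ≠ a`, `k < a + E` -/
structure Qd (r a E : ℕ) (C : Finset P) (y : ℕ → P) (s1 s2 : P) : Prop where
  H : Gr P r
  hr : a + E ≤ r
  part : Part a C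
  dn : ∀ {x z : P}, z ∈ C → x ⋖ z → lev z < a + E → x ∈ C
  hE : 2 ≤ E
  hEa : E ≤ a + 1
  ne : s1 ≠ s2
  st1 : ∀ z, z ∈ C → lev z = a → z = s1 ∨ z = s2
  m1 : s1 ∈ C
  m2 : s2 ∈ C
  l1 : lev s1 = a
  l2 : lev s2 = a
  ym : ∀ k, k < a + E → k ≠ a → y k ∈ C
  yl : ∀ k, k < a + E → k ≠ a → lev (y k) = k
  uniq : ∀ z, z ∈ C → lev z < a + E → lev z ≠ a → y (lev z) = z

variable {C : Finset P} {y : ℕ → P} {s1 s2 : P} {e : P → ℕ}

/-- the elements with `|lev z - a| < E` -/
noncomputable def S0 (a E : ℕ) (C : Finset P) : Finset P := C.filter (fun z => a < lev z + E ∧ lev z < a + E)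

lemma mem_S0 {z : P} : z ∈ S0 a E C ↔ z ∈ C ∧ a < lev z + E ∧ lev z < a + E := by
  unfold S0; rw [mem_filter]

namespace Qd

variable (Q : Qd r a E C y s1 s2)
include Q

lemma cov_s {s : P} (hs : s ∈ C) (hl : lev s = a) : y (a + 1) ⋖ s := by
  have hr := Q.hr
  have hE := Q.hE
  obtain ⟨x, hx⟩ := dc_nonempty Q.H (x := s) (by omega)
  have h1 := mem_dc.1 hx
  have h2 := Q.dn hs h1 (by omega)
  have h3 := lev_dc Q.H hx
  have h4 := Q.uniq x h2 (by omega) (by omega)
  rw [h3, hl] at h4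
  rw [h4]
  exact h1

lemma cov_t {s : P} (hs : s ∈ C) (hl : lev s = a) : s ⋖ y (a - 1) := by
  have hE := Q.hE
  have hEa := Q.hEa
  obtain ⟨x, hx⟩ := uc_nonempty Q.H (x := s) (by omega)
  have h1 := mem_uc.1 hx
  have h2 := Q.part.up hs h1
  have h3 := lev_uc Q.H hx
  have h4 := Q.uniq x h2 (by omega) (by omega)
  rw [show lev x = a - 1 by omega] at h4
  rw [h4]
  exact h1

lemma cov_y {k : ℕ} (hk : k + 1 < a + E) (h1 : k ≠ a) (h2 : k + 1 ≠ a) : y (k + 1) ⋖ y k := by
  have m1 := Q.ym (k + 1) hk h2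
  have l1 := Q.yl (k + 1) hk h2
  obtain ⟨x, hx⟩ := uc_nonempty Q.H (x := y (k + 1)) (by omega)
  have g1 := mem_uc.1 hx
  have g2 := Q.part.up m1 g1
  have g3 := lev_uc Q.H hx
  have g4 := Q.uniq x g2 (by omega) (by omega)
  rw [show lev x = k by omega] at g4
  rw [g4]
  exact g1

/-- an excited element of `C` in the support -/
lemma spt_mem (he : Spt (S0 a E C) e) {z : P} (h : 0 < e z) : z ∈ S0 a E C := by
  by_contra hz
  rw [he z hz] at h
  exact Nat.lt_irrefl _ h

lemma FD_low (he : Spt (S0 a E C) e) {k : ℕ} (h1 : a < k) (h2 : k < a + E) :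
    FD e (y k) ↔ k + 1 < a + E ∧ e (y k) < e (y (k + 1)) := by
  constructor
  · rintro ⟨z, hz, hlt⟩
    have h3 := mem_S0.1 (Q.spt_mem he (lt_of_le_of_lt (Nat.zero_le _) hlt))
    have h4 := (Q.H.covBy_iff.1 hz).2
    rw [Q.yl k h2 (by omega)] at h4
    have h5 := Q.uniq z h3.1 h3.2.2 (by omega)
    rw [h4] at h5
    rw [h5]
    exact ⟨by omega, hlt⟩
  · rintro ⟨h3, h4⟩
    exact ⟨_, Q.cov_y h3 (by omega) (by omega), h4⟩

lemma GU_low {k : ℕ} (h1 : a < k) (h2 : k + 1 < a + E) :
    GU e (y (k + 1)) ↔ e (y (k + 1)) ≤ e (y k) := by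
  constructor
  · rintro ⟨z, hz, hle⟩
    have m1 := Q.ym (k + 1) h2 (by omega)
    have l1 := Q.yl (k + 1) h2 (by omega)
    have h3 := Q.part.up m1 hz
    have h4 := (Q.H.covBy_iff.1 hz).2
    have h5 := Q.uniq z h3 (by omega) (by omega)
    rw [show lev z = k by omega] at h5
    rw [h5]
    exact hle
  · intro h
    exact ⟨_, Q.cov_y h2 (by omega) (by omega), h⟩

lemma GU_low1 : GU e (y (a + 1)) ↔ e (y (a + 1)) ≤ e s1 ∨ e (y (a + 1)) ≤ e s2 := by
  have hE := Q.hE
  have m1 := Q.ym (a + 1) (by omega) (by omega)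
  have l1 := Q.yl (a + 1) (by omega) (by omega)
  constructor
  · rintro ⟨z, hz, hle⟩
    have h3 := Q.part.up m1 hz
    have h4 := (Q.H.covBy_iff.1 hz).2
    rcases Q.st1 z h3 (by omega) with rfl | rfl
    · exact Or.inl hle
    · exact Or.inr hle
  · rintro (h | h)
    · exact ⟨_, Q.cov_s Q.m1 Q.l1, h⟩
    · exact ⟨_, Q.cov_s Q.m2 Q.l2, h⟩

lemma FU_upp (he : Spt (S0 a E C) e) {k : ℕ} (h1 : k < a) (h2 : a < k + E) :
    FU e (y k) ↔ a + 1 < k + E ∧ e (y k) < e (y (k - 1)) := by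
  have hEa := Q.hEa
  constructor
  · rintro ⟨z, hz, hlt⟩
    have h3 := mem_S0.1 (Q.spt_mem he (lt_of_le_of_lt (Nat.zero_le _) hlt))
    have h4 := (Q.H.covBy_iff.1 hz).2
    rw [Q.yl k (by omega) (by omega)] at h4
    have h5 := Q.uniq z h3.1 h3.2.2 (by omega)
    rw [show lev z = k - 1 by omega] at h5
    rw [h5]
    exact ⟨by omega, hlt⟩
  · rintro ⟨h3, h4⟩
    have h5 := Q.cov_y (k := k - 1) (by omega) (by omega) (by omega)
    rw [show k - 1 + 1 = k by omega] at h5
    exact ⟨_, h5, h4⟩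

lemma GD_upp {k : ℕ} (h1 : k + 1 < a) :
    GD e (y k) ↔ e (y k) ≤ e (y (k + 1)) := by
  constructor
  · rintro ⟨z, hz, hle⟩
    have m1 := Q.ym k (by omega) (by omega)
    have l1 := Q.yl k (by omega) (by omega)
    have h3 := Q.part.dn m1 (by omega) hz
    have h4 := (Q.H.covBy_iff.1 hz).2
    have h5 := Q.uniq z h3 (by omega) (by omega)
    rw [show lev z = k + 1 by omega] at h5
    rw [h5]
    exact hle
  · intro h
    exact ⟨_, Q.cov_y (by omega) (by omega) (by omega), h⟩

lemma GD_upp1 : GD e (y (a - 1)) ↔ e (y (a - 1)) ≤ e s1 ∨ e (y (a - 1)) ≤ e s2 := by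
  have hE := Q.hE
  have hEa := Q.hEa
  have m1 := Q.ym (a - 1) (by omega) (by omega)
  have l1 := Q.yl (a - 1) (by omega) (by omega)
  constructor
  · rintro ⟨z, hz, hle⟩
    have h3 := Q.part.dn m1 (by omega) hz
    have h4 := (Q.H.covBy_iff.1 hz).2
    rcases Q.st1 z h3 (by omega) with rfl | rfl
    · exact Or.inl hle
    · exact Or.inr hle
  · rintro (h | h)
    · exact ⟨_, Q.cov_t Q.m1 Q.l1, h⟩
    · exact ⟨_, Q.cov_t Q.m2 Q.l2, h⟩

lemma FD_s {s : P} (hs : s ∈ C) (hl : lev s = a) : FD e s ↔ e s < e (y (a + 1)) := by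
  have hE := Q.hE
  constructor
  · rintro ⟨z, hz, hlt⟩
    have h4 := (Q.H.covBy_iff.1 hz).2
    have h3 := Q.dn hs hz (by omega)
    have h5 := Q.uniq z h3 (by omega) (by omega)
    rw [h4, hl] at h5
    rw [h5]
    exact hlt
  · intro h
    exact ⟨_, Q.cov_s hs hl, h⟩

lemma FU_s {s : P} (hs : s ∈ C) (hl : lev s = a) : FU e s ↔ e s < e (y (a - 1)) := by
  constructor
  · rintro ⟨z, hz, hlt⟩
    have h4 := (Q.H.covBy_iff.1 hz).2
    have h3 := Q.part.up hs hz
    have h5 := Q.uniq z h3 (by omega) (by omega)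
    rw [show lev z = a - 1 by omega] at h5
    rw [h5]
    exact hlt
  · intro h
    exact ⟨_, Q.cov_t hs hl, h⟩

end Qd

/-! ## reflection -/

/-- the reflection of the chains -/
noncomputable def rf (a E : ℕ) (C : Finset P) (y : ℕ → P) (z : P) : P :=
  if z ∈ S0 a E C ∧ lev z ≠ a then y (2 * a - lev z) else z

namespace Qd

variable (Q : Qd r a E C y s1 s2)
include Q

lemma y_mem {k : ℕ} (h1 : k ≠ a) (h2 : a < k + E) (h3 : k < a + E) : y k ∈ S0 a E C := by
  rw [mem_S0, Q.yl k h3 h1]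
  exact ⟨Q.ym k h3 h1, h2, h3⟩

lemma rf_y {k : ℕ} (h1 : k ≠ a) (h2 : a < k + E) (h3 : k < a + E) :
    rf a E C y (y k) = y (2 * a - k) := by
  unfold rf
  rw [if_pos ⟨Q.y_mem h1 h2 h3, by rw [Q.yl k h3 h1]; exact h1⟩, Q.yl k h3 h1]

lemma rf_s {s : P} (hl : lev s = a) : rf a E C y s = s := by
  unfold rf
  rw [if_neg (fun h => h.2 hl)]

lemma rf_out {z : P} (hz : z ∉ S0 a E C) : rf a E C y z = z := by
  unfold rf
  rw [if_neg (fun h => hz h.1)]

/-- the three kinds of elements -/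
lemma cases {z : P} (hz : z ∈ S0 a E C) :
    (lev z = a) ∨ (lev z ≠ a ∧ a < lev z + E ∧ lev z < a + E ∧ z = y (lev z)) := by
  by_cases h : lev z = a
  · exact Or.inl h
  · obtain ⟨h1, h2, h3⟩ := mem_S0.1 hz
    exact Or.inr ⟨h, h2, h3, (Q.uniq z h1 h3 h).symm⟩

lemma rf_mem {z : P} (hz : z ∈ S0 a E C) : rf a E C y z ∈ S0 a E C := by
  have hEa := Q.hEa
  rcases Q.cases hz with h | ⟨h1, h2, h3, h4⟩
  · rw [Q.rf_s h]
    exact hz
  · rw [h4, Q.rf_y h1 h2 h3]
    exact Q.y_mem (by omega) (by omega) (by omega)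

lemma rf_rf (z : P) : rf a E C y (rf a E C y z) = z := by
  have hEa := Q.hEa
  by_cases hz : z ∈ S0 a E C
  · rcases Q.cases hz with h | ⟨h1, h2, h3, h4⟩
    · rw [Q.rf_s h, Q.rf_s h]
    · rw [h4, Q.rf_y h1 h2 h3, Q.rf_y (by omega) (by omega) (by omega)]
      congr 1
      omega
  · rw [Q.rf_out hz, Q.rf_out hz]

lemma rf_spt (he : Spt (S0 a E C) e) : Spt (S0 a E C) (e ∘ rf a E C y) := by
  intro z hz
  rw [Function.comp_apply, Q.rf_out hz]
  exact he z hz

lemma sum_rf (f : P → ℕ) : ∑ z ∈ S0 a E C, f (rf a E C y z) = ∑ z ∈ S0 a E C, f z :=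
  Finset.sum_nbij' (rf a E C y) (rf a E C y) (fun _ h => Q.rf_mem h) (fun _ h => Q.rf_mem h)
    (fun _ _ => Q.rf_rf _) (fun _ _ => Q.rf_rf _) (fun _ _ => rfl)

lemma prod_rf (f : P → A) : ∏ z ∈ S0 a E C, f (rf a E C y z) = ∏ z ∈ S0 a E C, f z :=
  Finset.prod_nbij' (rf a E C y) (rf a E C y) (fun _ h => Q.rf_mem h) (fun _ h => Q.rf_mem h)
    (fun _ _ => Q.rf_rf _) (fun _ _ => Q.rf_rf _) (fun _ _ => rfl)

lemma st_eq : st a C = {s1, s2} := by
  ext z
  rw [mem_st, mem_insert, mem_singleton]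
  constructor
  · rintro ⟨h1, h2⟩
    exact Q.st1 z h1 h2
  · rintro (rfl | rfl)
    · exact ⟨Q.m1, Q.l1⟩
    · exact ⟨Q.m2, Q.l2⟩

lemma tC_S0 (he : Spt (S0 a E C) e) : tC a C e = ∏ z ∈ S0 a E C, wP a e z := by
  have hE := Q.hE
  have hEa := Q.hEa
  have hr := Q.hr
  have heC : Spt C e := fun x hx => he x (fun h => hx (mem_S0.1 h).1)
  rw [tC_prod Q.H (by omega) Q.part heC]
  refine prod_restrict Q.H (by omega) (fun z hz => (mem_S0.1 hz).1) ?_ ?_ ?_ he
  · intro z hz
    rw [mem_st] at hz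
    exact mem_S0.2 ⟨hz.1, by omega, by omega⟩
  · intro x hx hl z hz
    rw [mem_S0] at hx ⊢
    have h1 := (Q.H.covBy_iff.1 hz).2
    exact ⟨Q.part.up hx.1 hz, by omega, by omega⟩
  · intro x hx hl z hz
    rw [mem_S0] at hx ⊢
    have h1 := (Q.H.covBy_iff.1 hz).2
    exact ⟨Q.part.dn hx.1 hl hz, by omega, by omega⟩

/-- reflection, local weights -/
lemma tt_rf (he : Spt (S0 a E C) e) {z : P} (hz : z ∈ S0 a E C) :
    TT (wP a e z) ((if lev z = a then xi else 1) * wP a (e ∘ rf a E C y) (rf a E C y z)) := by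
  have hE := Q.hE
  have hEa := Q.hEa
  set e' := e ∘ rf a E C y with he'
  have hy : ∀ k, k ≠ a → a < k + E → k < a + E → e' (y k) = e (y (2 * a - k)) := by
    intro k h1 h2 h3
    rw [he', Function.comp_apply, Q.rf_y h1 h2 h3]
  have hs : ∀ s, lev s = a → e' s = e s := by
    intro s hl
    rw [he', Function.comp_apply, Q.rf_s hl]
  have hspt : Spt (S0 a E C) e' := Q.rf_spt he
  rcases Q.cases hz with h | ⟨h1, h2, h3, h4⟩
  · rw [if_pos h, Q.rf_s h]
    have hzC := (mem_S0.1 hz).1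
    refine tt_site h ?_ ?_
    · rw [Q.FD_s hzC h, Q.FU_s hzC h, hs z h, hy (a + 1) (by omega) (by omega) (by omega)]
      rw [show 2 * a - (a + 1) = a - 1 by omega]
    · rw [Q.FD_s hzC h, Q.FU_s hzC h, hs z h, hy (a - 1) (by omega) (by omega) (by omega)]
      rw [show 2 * a - (a - 1) = a + 1 by omega]
  · rw [if_neg h1, one_mul]
    set k := lev z with hk
    rw [h4, Q.rf_y h1 h2 h3]
    rcases Nat.lt_or_gt_of_ne h1 with h5 | h5
    · refine tt_upp (by rw [Q.yl k h3 h1]; exact h5)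
        (by rw [Q.yl (2 * a - k) (by omega) (by omega)]; omega) ?_ ?_
      · rw [Q.FD_low hspt (by omega) (by omega), Q.FU_upp he h5 h2,
          hy (2 * a - k) (by omega) (by omega) (by omega)]
        rw [show 2 * a - (2 * a - k) = k by omega]
        constructor
        · rintro ⟨g1, g2⟩
          rw [hy _ (by omega) (by omega) (by omega),
            show 2 * a - (2 * a - k + 1) = k - 1 by omega] at g2
          exact ⟨by omega, g2⟩
        · rintro ⟨g1, g2⟩
          refine ⟨by omega, ?_⟩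
          rw [hy _ (by omega) (by omega) (by omega),
            show 2 * a - (2 * a - k + 1) = k - 1 by omega]
          exact g2
      · rcases Nat.lt_or_ge (k + 1) a with h6 | h6
        · rw [Q.GD_upp h6]
          have := Q.GU_low (e := e') (k := 2 * a - k - 1) (by omega) (by omega)
          rw [show 2 * a - k - 1 + 1 = 2 * a - k by omega] at this
          rw [this, hy _ (by omega) (by omega) (by omega), hy _ (by omega) (by omega) (by omega),
            show 2 * a - (2 * a - k) = k by omega, show 2 * a - (2 * a - k - 1) = k + 1 by omega]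
        · have h7 : k = a - 1 := by omega
          rw [h7, show 2 * a - (a - 1) = a + 1 by omega, Q.GU_low1, Q.GD_upp1,
            hy _ (by omega) (by omega) (by omega), hs s1 Q.l1, hs s2 Q.l2,
            show 2 * a - (a + 1) = a - 1 by omega]
    · refine tt_low (by rw [Q.yl k h3 h1]; exact h5)
        (by rw [Q.yl (2 * a - k) (by omega) (by omega)]; omega) ?_ ?_
      · rw [Q.FD_low he h5 h3, Q.FU_upp hspt (by omega) (by omega),
          hy (2 * a - k) (by omega) (by omega) (by omega)]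
        rw [show 2 * a - (2 * a - k) = k by omega]
        constructor
        · rintro ⟨g1, g2⟩
          rw [hy _ (by omega) (by omega) (by omega),
            show 2 * a - (2 * a - k - 1) = k + 1 by omega] at g2
          exact ⟨by omega, g2⟩
        · rintro ⟨g1, g2⟩
          refine ⟨by omega, ?_⟩
          rw [hy _ (by omega) (by omega) (by omega),
            show 2 * a - (2 * a - k - 1) = k + 1 by omega]
          exact g2
      · rcases Nat.lt_or_ge (a + 1) k with h6 | h6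
        · have := Q.GU_low (e := e) (k := k - 1) (by omega) (by omega)
          rw [show k - 1 + 1 = k by omega] at this
          rw [this, Q.GD_upp (k := 2 * a - k) (by omega), hy _ (by omega) (by omega) (by omega),
            hy _ (by omega) (by omega) (by omega),
            show 2 * a - (2 * a - k) = k by omega, show 2 * a - (2 * a - k + 1) = k - 1 by omega]
        · have h7 : k = a + 1 := by omega
          rw [h7, show 2 * a - (a + 1) = a - 1 by omega, Q.GU_low1, Q.GD_upp1,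
            hy _ (by omega) (by omega) (by omega), hs s1 Q.l1, hs s2 Q.l2,
            show 2 * a - (a - 1) = a + 1 by omega]

/-- reflection changes the sign of the coefficient of `d` -/
theorem c1_rf (he : Spt (S0 a E C) e) :
    PowerSeries.coeff 1 (tC a C e) + PowerSeries.coeff 1 (tC a C (e ∘ rf a E C y)) = 0 := by
  classical
  have hE := Q.hE
  have h1 := TT.prod (S0 a E C) (fun z hz => Q.tt_rf he hz)
  rw [Finset.prod_mul_distrib, Q.prod_rf (fun z => wP a (e ∘ rf a E C y) z), ← Q.tC_S0 he,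
    ← Q.tC_S0 (Q.rf_spt he)] at h1
  have h2 : ∏ z ∈ S0 a E C, (if lev z = a then xi else (1 : A)) = xi * xi := by
    rw [← Finset.prod_filter]
    have h3 : (S0 a E C).filter (fun z => lev z = a) = {s1, s2} := by
      rw [← Q.st_eq]
      ext z
      rw [mem_filter, mem_S0, mem_st]
      constructor
      · rintro ⟨⟨g1, -⟩, g2⟩
        exact ⟨g1, g2⟩
      · rintro ⟨g1, g2⟩
        exact ⟨⟨g1, by omega, by omega⟩, g2⟩
    rw [h3, Finset.prod_pair Q.ne]
  rw [h2] at h1
  have hspt' : Spt C (e ∘ rf a E C y) := fun x hx => Q.rf_spt he x (fun h => hx (mem_S0.1 h).1)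
  have h4 : PowerSeries.coeff 0 (tC a C (e ∘ rf a E C y)) = 0 := by
    obtain ⟨w, hw⟩ := dd_dvd_tC Q.H Q.part hspt' ⟨s1, mem_st.2 ⟨Q.m1, Q.l1⟩⟩
    rw [hw, c0_mul, c0_dd, zero_mul]
  have h5 := h1.2
  rw [c1_mul, h4, mul_zero, add_zero, c0_mul, c0_xi] at h5
  linarith

/-- the configurations on the two chains cancel -/
theorem sum_S0 (n : ℕ) : ∑ e ∈ (S0 a E C).piAntidiag n, PowerSeries.coeff 1 (tC a C e) = 0 := by
  classical
  refine Finset.sum_involution (fun e _ => e ∘ rf a E C y) ?_ ?_ ?_ ?_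
  · intro e he
    exact Q.c1_rf (spt_of_mem he)
  · intro e he h1 h2
    have h3 := Q.c1_rf (spt_of_mem he)
    rw [h2] at h3
    omega
  · intro e he
    rw [mem_piAntidiag] at he ⊢
    refine ⟨?_, ?_⟩
    · have := Q.sum_rf e
      rw [← he.1]
      exact this
    · intro x hx
      by_contra h
      exact hx (Q.rf_spt (fun z hz => by
        by_contra h0
        exact hz (he.2 z h0)) x h)
  · intro e he
    funext z
    rw [Function.comp_apply, Function.comp_apply, Q.rf_rf]

end Qd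

end Pool.Agent.GaussPoset.Wd
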