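import Pool.Agent.W_448wd_h84.WdQ

/-!
# MP_448cb3_co, (E,1)(a) for the quadric rows: the value
-/

namespace Pool.Agent.GaussPoset.Wd

set_option linter.unusedSectionVars false

open Finset Win Win.Ev

universe u

variable {P : Type u} [Fintype P] [PartialOrder P] [DecidableEq P] {r a E : ℕ}
variable {C : Finset P} {y : ℕ → P} {s1 s2 : P} {e : P → ℕ}

/-- indicator -/
def indS (S : Finset P) : P → ℕ := fun x => if x ∈ S then 1 else 0

lemma indS_mem {S : Finset P} {x : P} (h : x ∈ S) : indS S x = 1 := if_pos h

lemma indS_not {S : Finset P} {x : P} (h : x ∉ S) : indS S x = 0 := if_neg h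

lemma sum_indS {S C : Finset P} (h : S ⊆ C) : ∑ x ∈ C, indS S x = S.card := by
  unfold indS
  rw [← Finset.sum_filter, Finset.sum_const, smul_eq_mul, mul_one]
  congr 1
  ext x
  rw [mem_filter]
  exact ⟨fun h => h.2, fun h' => ⟨h h', h'⟩⟩

lemma card_le_sum {S C : Finset P} (hS : S ⊆ C) (h1 : ∀ x ∈ S, 0 < e x) :
    S.card ≤ ∑ x ∈ C, e x := by
  calc S.card = ∑ _x ∈ S, 1 := by simp
    _ ≤ ∑ x ∈ S, e x := Finset.sum_le_sum h1
    _ ≤ ∑ x ∈ C, e x := Finset.sum_le_sum_of_subset hS

lemma eq_indS {S C : Finset P} (hS : S ⊆ C) (he : Spt C e) (h1 : ∀ x ∈ S, 0 < e x)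
    (hc : ∑ x ∈ C, e x = S.card) : e = indS S := by
  classical
  funext x
  by_cases hx : x ∈ S
  · rw [indS_mem hx]
    by_contra hne
    have h2 : 2 ≤ e x := by
      have := h1 x hx
      omega
    have h3 := Finset.add_sum_erase S e hx
    have h4 := card_le_sum (e := e) (S := S.erase x) (C := S.erase x) (Subset.refl _)
      (fun z hz => h1 z (mem_of_mem_erase hz))
    rw [card_erase_of_mem hx] at h4
    have h5 : ∑ x ∈ S, e x ≤ ∑ x ∈ C, e x := Finset.sum_le_sum_of_subset hS
    have h6 : 0 < S.card := card_pos.2 ⟨x, hx⟩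
    omega
  · rw [indS_not hx]
    by_contra hne
    have h2 : x ∈ C := by
      by_contra h
      exact hne (he x h)
    have h3 := card_le_sum (e := e) (S := insert x S) (C := C)
      (insert_subset h2 hS) (fun z hz => by
        rcases mem_insert.1 hz with rfl | hz
        · omega
        · exact h1 z hz)
    rw [card_insert_of_notMem hx] at h3
    omega

lemma up_closed (hC : Part a C) {x z : P} (hx : x ∈ C) (hxz : x ≤ z) : z ∈ C := by
  revert hx
  exact normb_induct (y := z) (C := fun x => x ∈ C → z ∈ C) (fun h => h)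
    (fun x w hxw _ ih hx => ih (hC.up hx hxw)) x hxz

/-- the lower chain -/
noncomputable def chL' (a E : ℕ) (y : ℕ → P) : Finset P := (Finset.Ioo a (a + E)).image y

/-- the upper chain -/
noncomputable def chU' (a E : ℕ) (y : ℕ → P) : Finset P := (Finset.Ico (a - E) a).image y

namespace Qd

variable (Q : Qd r a E C y s1 s2)
include Q

lemma card_img {s : Finset ℕ} (h : ∀ k ∈ s, k < a + E ∧ k ≠ a) : (s.image y).card = s.card := by
  apply card_image_of_injOn
  intro k hk l hl hkl
  have h1 := h k hk
  have h2 := h l hl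
  have h3 := Q.yl k h1.1 h1.2
  have h4 := Q.yl l h2.1 h2.2
  rw [← h3, hkl, h4]

lemma mem_chL {x : P} : x ∈ chL' a E y ↔ x ∈ C ∧ a < lev x ∧ lev x < a + E := by
  unfold chL'
  rw [mem_image]
  constructor
  · rintro ⟨k, hk, rfl⟩
    rw [Finset.mem_Ioo] at hk
    rw [Q.yl k hk.2 (by omega)]
    exact ⟨Q.ym k hk.2 (by omega), hk.1, hk.2⟩
  · rintro ⟨h1, h2, h3⟩
    exact ⟨lev x, Finset.mem_Ioo.2 ⟨h2, h3⟩, Q.uniq x h1 h3 (by omega)⟩

lemma mem_chU (hE : E ≤ a) {x : P} : x ∈ chU' a E y ↔ x ∈ C ∧ a ≤ lev x + E ∧ lev x < a := by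
  unfold chU'
  rw [mem_image]
  constructor
  · rintro ⟨k, hk, rfl⟩
    rw [Finset.mem_Ico] at hk
    rw [Q.yl k (by omega) (by omega)]
    exact ⟨Q.ym k (by omega) (by omega), by omega, hk.2⟩
  · rintro ⟨h1, h2, h3⟩
    exact ⟨lev x, Finset.mem_Ico.2 ⟨by omega, h3⟩, Q.uniq x h1 (by omega) (by omega)⟩

lemma card_chL {z : P} (hl : lev z = a + E) : (insert z (chL' a E y)).card = E := by
  have hE := Q.hE
  rw [card_insert_of_notMem]
  · unfold chL'
    rw [Q.card_img (fun k hk => by rw [Finset.mem_Ioo] at hk; omega), Nat.card_Ioo]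
    omega
  · rw [Q.mem_chL]
    rintro ⟨-, -, h⟩
    omega

lemma card_chU (hE : E ≤ a) : (chU' a E y).card = E := by
  unfold chU'
  rw [Q.card_img (fun k hk => by rw [Finset.mem_Ico] at hk; omega), Nat.card_Ico]
  omega

lemma sub_L {z : P} (hz : z ∈ C) : insert z (chL' a E y) ⊆ C := by
  apply insert_subset hz
  intro x hx
  exact (Q.mem_chL.1 hx).1

lemma sub_U (hE : E ≤ a) : chU' a E y ⊆ C := fun _ hx => ((Q.mem_chU hE).1 hx).1

/-- the configurations outside `S0` -/
theorem far_cases (hA : AdmL a e) (hB : AdmU a e) (he : Spt C e) (hn : ∑ x ∈ C, e x = E) {z : P}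
    (hz : z ∈ C) (hz0 : z ∉ S0 a E C) (hez : 0 < e z) :
    (lev z = a + E ∧ e = indS (insert z (chL' a E y))) ∨ (E ≤ a ∧ e = indS (chU' a E y)) := by
  classical
  have hr := Q.hr
  have hE := Q.hE
  have hEa := Q.hEa
  rcases Nat.lt_or_ge (lev z) (a + E) with h1 | h1
  · right
    have h2 : lev z + E ≤ a := by
      by_contra h
      exact hz0 (mem_S0.2 ⟨hz, by omega, h1⟩)
    have h3 : ∀ d, lev z + d < a → 0 < e (y (lev z + d)) := by
      intro d
      induction d with
      | zero =>
        intro _
        rw [add_zero, Q.uniq z hz h1 (by omega)]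
        exact hez
      | succ d ih =>
        intro hd
        have h4 := Q.cov_y (k := lev z + d) (by omega) (by omega) (by omega)
        refine pos_dn Q.H (by omega) hB ?_ (ih (by omega)) h4
        rw [Q.yl _ (by omega) (by omega)]
        omega
    have h4 : ((Finset.Ico (lev z) a).image y).card = a - lev z := by
      rw [Q.card_img (fun k hk => by rw [Finset.mem_Ico] at hk; omega), Nat.card_Ico]
    have h5 : (Finset.Ico (lev z) a).image y ⊆ C := by
      intro x hx
      rw [mem_image] at hx
      obtain ⟨k, hk, rfl⟩ := hx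
      rw [Finset.mem_Ico] at hk
      exact Q.ym k (by omega) (by omega)
    have h6 : ∀ x ∈ (Finset.Ico (lev z) a).image y, 0 < e x := by
      intro x hx
      rw [mem_image] at hx
      obtain ⟨k, hk, rfl⟩ := hx
      rw [Finset.mem_Ico] at hk
      have := h3 (k - lev z) (by omega)
      rwa [show lev z + (k - lev z) = k by omega] at this
    have h7 := card_le_sum h5 h6
    rw [h4, hn] at h7
    have h8 : lev z = a - E := by omega
    refine ⟨by omega, ?_⟩
    unfold chU'
    rw [← h8]
    exact eq_indS h5 he h6 (by rw [hn, h4]; omega)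
  · left
    have h3 : ∀ x ∈ insert z (chL' a E y), 0 < e x := by
      intro x hx
      rw [mem_insert] at hx
      rcases hx with rfl | hx
      · exact hez
      · rw [Q.mem_chL] at hx
        obtain ⟨g1, g2, g3⟩ := hx
        obtain ⟨w, hw, hwl⟩ := exists_above' (x := z) (j := lev x) (by omega)
        have g4 := Q.uniq w (up_closed Q.part hz hw) (by omega) (by omega)
        have g5 := Q.uniq x g1 g3 (by omega)
        rw [hwl, g5] at g4
        rw [g4]
        exact pos_above Q.H hA (by omega) z hw hez
    have h4 : lev z = a + E := by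
      by_contra hne
      obtain ⟨w, hw, hwl⟩ := exists_above' (x := z) (j := a + E) h1
      have g1 : 0 < e w := pos_above Q.H hA (by omega) z hw hez
      have g2 : w ∈ C := up_closed Q.part hz hw
      have g3 : z ∉ insert w (chL' a E y) := by
        rw [mem_insert, Q.mem_chL]
        rintro (rfl | ⟨-, -, h⟩)
        · omega
        · omega
      have g4 := card_le_sum (e := e) (S := insert z (insert w (chL' a E y))) (C := C)
        (insert_subset hz (Q.sub_L g2)) (fun x hx => by
          rcases mem_insert.1 hx with rfl | hx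
          · exact hez
          · rcases mem_insert.1 hx with rfl | hx
            · exact g1
            · exact h3 x (mem_insert_of_mem hx))
      rw [card_insert_of_notMem g3, Q.card_chL hwl, hn] at g4
      omega
    refine ⟨h4, eq_indS (Q.sub_L hz) he h3 ?_⟩
    rw [hn, Q.card_chL h4]

lemma spt_L {z : P} (hz : z ∈ C) : Spt C (indS (insert z (chL' a E y))) :=
  fun _ hx => indS_not (fun h => hx (Q.sub_L hz h))

lemma spt_U (hE : E ≤ a) : Spt C (indS (chU' a E y)) :=
  fun _ hx => indS_not (fun h => hx (Q.sub_U hE h))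

/-- value of the lower configurations -/
theorem val_L (hspt : Spt C e) (e1 : ∀ x, x ∈ C → a < lev x → lev x < a + E → e x = 1)
    (hlow : ∀ x, e x ≠ 0 → a < lev x ∧ lev x ≤ a + E) (ele : ∀ x, e x ≤ 1) :
    PowerSeries.coeff 1 (tC a C e) = 1 := by
  classical
  have hr := Q.hr
  have hE := Q.hE
  have hEa := Q.hEa
  rw [tC_prod Q.H (by omega) Q.part hspt]
  have hy1 := Q.ym (a + 1) (by omega) (by omega)
  have hy2 := Q.yl (a + 1) (by omega) (by omega)
  have hsub : ({s1, s2, y (a + 1)} : Finset P) ⊆ C := by
    intro x hx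
    rw [mem_insert, mem_insert, mem_singleton] at hx
    rcases hx with rfl | rfl | rfl
    · exact Q.m1
    · exact Q.m2
    · exact hy1
  rw [← Finset.prod_subset hsub]
  · have n1 : s1 ≠ y (a + 1) := fun h => by
      have := Q.l1
      rw [h, hy2] at this
      omega
    have n2 : s2 ≠ y (a + 1) := fun h => by
      have := Q.l2
      rw [h, hy2] at this
      omega
    rw [Finset.prod_insert (by
      rw [mem_insert, mem_singleton, not_or]
      exact ⟨Q.ne, n1⟩), Finset.prod_insert (by rw [mem_singleton]; exact n2), Finset.prod_singleton]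
    have ws : ∀ s, s ∈ C → lev s = a → wP a e s = xx := by
      intro s hs hsl
      have h0 : e s = 0 := by
        by_contra h
        have := hlow s h
        omega
      rw [wP_site hsl, if_pos, if_neg]
      · rintro ⟨v, hv, hlt⟩
        have g1 := (Q.H.covBy_iff.1 hv).2
        have := hlow v (by omega)
        omega
      · exact ⟨_, Q.cov_s hs hsl, by rw [h0, e1 _ hy1 (by omega) (by omega)]; exact Nat.one_pos⟩
    have wy : wP a e (y (a + 1)) = dd := by
      rw [wP_low (by omega), if_neg, if_neg]
      · rintro ⟨v, hv, hle⟩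
        have g1 := (Q.H.covBy_iff.1 hv).2
        rw [e1 _ hy1 (by omega) (by omega)] at hle
        have := hlow v (by omega)
        omega
      · rintro ⟨v, hv, hlt⟩
        rw [e1 _ hy1 (by omega) (by omega)] at hlt
        have := ele v
        omega
    rw [ws s1 Q.m1 Q.l1, ws s2 Q.m2 Q.l2, wy, c1_mul, c1_mul, c0_mul, c0_xx, c1_xx, c0_dd, c1_dd]
    norm_num
  · intro x hx hx2
    rw [mem_insert, mem_insert, mem_singleton, not_or, not_or] at hx2
    rcases Nat.lt_trichotomy (lev x) a with h1 | h1 | h1
    · have h0 : e x = 0 := by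
        by_contra h
        have := hlow x h
        omega
      rw [wP_upp h1, if_neg, if_pos]
      · obtain ⟨v, hv⟩ := dc_nonempty Q.H (x := x) (by omega)
        exact ⟨v, mem_dc.1 hv, by rw [h0]; exact Nat.zero_le _⟩
      · rintro ⟨v, hv, hlt⟩
        have g1 := (Q.H.covBy_iff.1 hv).2
        have := hlow v (by omega)
        omega
    · rcases Q.st1 x hx h1 with h | h
      · exact absurd h hx2.1
      · exact absurd h hx2.2.1
    · rw [wP_low h1, if_neg, if_pos]
      · obtain ⟨v, hv⟩ := uc_nonempty Q.H (x := x) (by omega)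
        have g0 := mem_uc.1 hv
        have g1 := (Q.H.covBy_iff.1 g0).2
        refine ⟨v, g0, ?_⟩
        by_cases h2 : e x = 0
        · rw [h2]
          exact Nat.zero_le _
        · have g2 := hlow x h2
          have g3 : lev x ≠ a + 1 := by
            intro h
            have := Q.uniq x hx (by omega) (by omega)
            rw [h] at this
            exact hx2.2.2 this.symm
          rw [e1 v (Q.part.up hx g0) (by omega) (by omega)]
          exact ele x
      · rintro ⟨v, hv, hlt⟩
        have g1 := (Q.H.covBy_iff.1 hv).2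
        have g2 := hlow v (by omega)
        have g3 := e1 x hx h1 (by omega)
        have := ele v
        omega

theorem tC_L {z : P} (hz : z ∈ C) (hl : lev z = a + E) :
    PowerSeries.coeff 1 (tC a C (indS (insert z (chL' a E y)))) = 1 := by
  classical
  have hE := Q.hE
  refine Q.val_L (Q.spt_L hz) ?_ ?_ ?_
  · exact fun x h1 h2 h3 => indS_mem (mem_insert_of_mem (Q.mem_chL.2 ⟨h1, h2, h3⟩))
  · intro x hx
    have h : x ∈ insert z (chL' a E y) := by
      by_contra h
      exact hx (indS_not h)
    rcases mem_insert.1 h with rfl | h'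
    · omega
    · have := Q.mem_chL.1 h'
      omega
  · intro x
    unfold indS
    split_ifs <;> omega

/-- value of the upper configuration -/
theorem val_U (hspt : Spt C e) (hEa' : E ≤ a)
    (e1 : ∀ x, x ∈ C → a ≤ lev x + E → lev x < a → e x = 1)
    (e0 : ∀ x, e x ≠ 0 → a ≤ lev x + E ∧ lev x < a) (ele : ∀ x, e x ≤ 1) :
    PowerSeries.coeff 1 (tC a C e) = -1 := by
  classical
  have hr := Q.hr
  have hE := Q.hE
  rw [tC_prod Q.H (by omega) Q.part hspt]
  have hy1 := Q.ym (a - 1) (by omega) (by omega)
  have hy2 := Q.yl (a - 1) (by omega) (by omega)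
  have hsub : ({y (a - 1)} : Finset P) ⊆ C := by
    intro x hx
    rw [mem_singleton] at hx
    rw [hx]
    exact hy1
  rw [← Finset.prod_subset hsub]
  · rw [Finset.prod_singleton, wP_upp (by omega), if_neg, if_neg]
    · rw [c1_mul, c0_xi, c1_dd, c0_dd]
      norm_num
    · rw [Q.GD_upp1, e1 _ hy1 (by omega) (by omega)]
      rintro (h | h)
      · have := e0 s1 (by omega)
        have := Q.l1
        omega
      · have := e0 s2 (by omega)
        have := Q.l2
        omega
    · rintro ⟨v, hv, hlt⟩
      rw [e1 _ hy1 (by omega) (by omega)] at hlt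
      have := ele v
      omega
  · intro x hx hx2
    rw [mem_singleton] at hx2
    rcases Nat.lt_trichotomy (lev x) a with h1 | h1 | h1
    · rw [wP_upp h1, if_neg, if_pos]
      · obtain ⟨v, hv⟩ := dc_nonempty Q.H (x := x) (by omega)
        have g0 := mem_dc.1 hv
        have g1 := (Q.H.covBy_iff.1 g0).2
        refine ⟨v, g0, ?_⟩
        by_cases h2 : e x = 0
        · rw [h2]
          exact Nat.zero_le _
        · have g2 := e0 x h2
          have g3 : lev x ≠ a - 1 := by
            intro h
            have := Q.uniq x hx (by omega) (by omega)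
            rw [h] at this
            exact hx2 this.symm
          rw [e1 v (Q.part.dn hx h1 g0) (by omega) (by omega)]
          exact ele x
      · rintro ⟨v, hv, hlt⟩
        have g1 := (Q.H.covBy_iff.1 hv).2
        have g2 := e0 v (by omega)
        have g3 := e1 x hx (by omega) h1
        have := ele v
        omega
    · have h0 : e x = 0 := by
        by_contra h
        have := e0 x h
        omega
      rw [wP_site h1, if_neg, if_pos]
      · rw [Q.FU_s hx h1, h0, e1 _ hy1 (by omega) (by omega)]
        exact Nat.one_pos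
      · rintro ⟨v, hv, hlt⟩
        have g1 := (Q.H.covBy_iff.1 hv).2
        have := e0 v (by omega)
        omega
    · have h0 : e x = 0 := by
        by_contra h
        have := e0 x h
        omega
      rw [wP_low h1, if_neg, if_pos]
      · obtain ⟨v, hv⟩ := uc_nonempty Q.H (x := x) (by omega)
        exact ⟨v, mem_uc.1 hv, by rw [h0]; exact Nat.zero_le _⟩
      · rintro ⟨v, hv, hlt⟩
        have g1 := (Q.H.covBy_iff.1 hv).2
        have := e0 v (by omega)
        omega

theorem tC_U (hEa' : E ≤ a) :
    PowerSeries.coeff 1 (tC a C (indS (chU' a E y))) = -1 := by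
  classical
  refine Q.val_U (Q.spt_U hEa') hEa' ?_ ?_ ?_
  · exact fun x h1 h2 h3 => indS_mem ((Q.mem_chU hEa').2 ⟨h1, h2, h3⟩)
  · intro x hx
    have h : x ∈ chU' a E y := by
      by_contra h
      exact hx (indS_not h)
    exact ((Q.mem_chU hEa').1 h).2
  · intro x
    unfold indS
    split_ifs <;> omega

/-- THE VALUE -/
theorem c1_ZC : PowerSeries.coeff 1 (ZC a C E : A) =
    ((C.filter (fun z => lev z = a + E)).card : ℤ) - (if E ≤ a then 1 else 0) := by
  classical
  have hr := Q.hr
  have hE := Q.hE
  set W := C.filter (fun z => lev z = a + E) with hW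
  set f : (P → ℕ) → ℤ := fun e => PowerSeries.coeff 1 (tC a C e) with hf
  unfold ZC
  rw [map_sum]
  change ∑ e ∈ C.piAntidiag E, f e = _
  rw [← Finset.sum_filter_add_sum_filter_not (C.piAntidiag E) (fun e => Spt (S0 a E C) e)]
  have hS : (C.piAntidiag E).filter (fun e => Spt (S0 a E C) e) = (S0 a E C).piAntidiag E := by
    have hsub : S0 a E C ⊆ C := fun z hz => (mem_S0.1 hz).1
    ext e
    rw [mem_filter, mem_piAntidiag, mem_piAntidiag]
    constructor
    · rintro ⟨⟨h1, h2⟩, h3⟩
      refine ⟨?_, fun x hx => by_contra fun h => hx (h3 x h)⟩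
      exact (Finset.sum_subset hsub (fun x _ hx => h3 x hx)).trans h1
    · rintro ⟨h1, h2⟩
      refine ⟨⟨?_, fun x hx => hsub (h2 x hx)⟩, fun x hx => by_contra fun h => hx (h2 x h)⟩
      exact (Finset.sum_subset hsub (fun x _ hx => by_contra fun h => hx (h2 x h))).symm.trans h1
  rw [hS, Q.sum_S0, zero_add]
  set T1 : Finset (P → ℕ) := W.image (fun z => indS (insert z (chL' a E y))) with hT1
  set T2 : Finset (P → ℕ) := if E ≤ a then {indS (chU' a E y)} else ∅ with hT2
  have hd : Disjoint T1 T2 := by
    rw [Finset.disjoint_left]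
    intro e h1 h2
    rw [hT1, mem_image] at h1
    obtain ⟨z, hz, rfl⟩ := h1
    rw [hT2] at h2
    split_ifs at h2 with h3
    · rw [mem_singleton] at h2
      have h4 := congrFun h2 z
      rw [indS_mem (mem_insert_self _ _)] at h4
      have h5 : z ∈ chU' a E y := by
        by_contra h
        rw [indS_not h] at h4
        omega
      have h6 := (Q.mem_chU h3).1 h5
      rw [hW, mem_filter] at hz
      omega
    · exact absurd h2 (notMem_empty _)
  have hsub : T1 ∪ T2 ⊆ (C.piAntidiag E).filter (fun e => ¬ Spt (S0 a E C) e) := by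
    intro e he
    rw [mem_union] at he
    rw [mem_filter, mem_piAntidiag]
    rcases he with he | he
    · rw [hT1, mem_image] at he
      obtain ⟨z, hz, rfl⟩ := he
      rw [hW, mem_filter] at hz
      refine ⟨⟨?_, fun x hx => by_contra fun h => hx (Q.spt_L hz.1 x h)⟩, fun h => ?_⟩
      · rw [sum_indS (Q.sub_L hz.1), Q.card_chL hz.2]
      · have h1 := h z (fun h => by rw [mem_S0] at h; omega)
        rw [indS_mem (mem_insert_self _ _)] at h1
        omega
    · rw [hT2] at he
      split_ifs at he with h3
      · rw [mem_singleton] at he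
        subst he
        refine ⟨⟨?_, fun x hx => by_contra fun h => hx (Q.spt_U h3 x h)⟩, fun h => ?_⟩
        · rw [sum_indS (Q.sub_U h3), Q.card_chU h3]
        · have h0 := Q.yl (a - E) (by omega) (by omega)
          have h1 := h (y (a - E)) (fun h => by rw [mem_S0] at h; omega)
          rw [indS_mem ((Q.mem_chU h3).2 ⟨Q.ym (a - E) (by omega) (by omega), by omega, by omega⟩)]
            at h1
          omega
      · exact absurd he (notMem_empty _)
  rw [← Finset.sum_subset hsub, Finset.sum_union hd]
  · have g1 : ∑ e ∈ T1, f e = (W.card : ℤ) := by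
      rw [hT1, Finset.sum_image]
      · rw [Finset.sum_congr rfl (fun z hz => ?_)]
        · rw [Finset.sum_const, nsmul_eq_mul, mul_one]
        · rw [hW, mem_filter] at hz
          exact Q.tC_L hz.1 hz.2
      · intro z hz z' hz' h
        have hz := mem_filter.1 hz
        have hz' := mem_filter.1 hz'
        simp only at h
        have h4 := congrFun h z
        rw [indS_mem (mem_insert_self _ _)] at h4
        have h5 : z ∈ insert z' (chL' a E y) := by
          by_contra h
          rw [indS_not h] at h4
          omega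
        rcases mem_insert.1 h5 with h6 | h6
        · exact h6
        · have := Q.mem_chL.1 h6
          omega
    have g2 : ∑ e ∈ T2, f e = - (if E ≤ a then 1 else 0) := by
      rw [hT2]
      split_ifs with h3
      · rw [Finset.sum_singleton]
        exact Q.tC_U h3
      · rw [Finset.sum_empty, neg_zero]
    rw [g1, g2]
    ring
  · intro e he he2
    rw [mem_filter, mem_piAntidiag] at he
    obtain ⟨⟨h1, h2⟩, h3⟩ := he
    by_contra h4
    have h5 : tC a C e ≠ 0 := by
      intro h
      apply h4
      rw [hf]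
      simp only
      rw [h, map_zero]
    obtain ⟨hA, hB⟩ := adm_of_tC h5
    have hs : Spt C e := fun x hx => by_contra fun h => hx (h2 x h)
    have h6 : ∃ z, z ∉ S0 a E C ∧ e z ≠ 0 := by
      by_contra h
      push Not at h
      exact h3 h
    obtain ⟨z, hz, hez⟩ := h6
    apply he2
    rw [mem_union]
    rcases Q.far_cases hA hB hs h1 (h2 z hez) hz (Nat.pos_of_ne_zero hez) with ⟨g1, g2⟩ | ⟨g1, g2⟩
    · left
      rw [hT1, mem_image]
      exact ⟨z, mem_filter.2 ⟨h2 z hez, g1⟩, g2.symm⟩
    · right
      rw [hT2, if_pos g1, mem_singleton]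
      exact g2

end Qd

end Pool.Agent.GaussPoset.Wd
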